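import Mathlib

/-!
Slice discs in the half-space, their mean curvature for the hyperbolic metric, and immersed discs
with ribbon singularities.
-/

set_option autoImplicit false

namespace Pool.Agent.U987.RH

open scoped ContDiff RealInnerProductSpace
open Set Metric

/-- Euclidean three-space. -/
abbrev E3 := EuclideanSpace ℝ (Fin 3)

/-- Euclidean four-space. -/
abbrev E4 := EuclideanSpace ℝ (Fin 4)

/-- The projection `(x₀, x₁, x₂, x₃) ↦ (x₀, x₁, x₂)` of four-space to three-space. -/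
noncomputable def hor (x : E4) : E3 := WithLp.toLp 2 ![x 0, x 1, x 2]

/-- The vertical unit vector `(0, 0, 0, 1)`. -/
noncomputable def up : E4 := EuclideanSpace.single 3 1

/-- Slice disc: smoothly embedded disc in the half-space `x₃ ≥ 0` with boundary in the hyperplane
`x₃ = 0`, interior in the open half-space, transversal to the hyperplane along the boundary. -/
structure SliceDisc (φ : ℂ → E4) : Prop where
  smooth : ∃ W : Set ℂ, IsOpen W ∧ closedBall 0 1 ⊆ W ∧ ContDiffOn ℝ ∞ φ W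
  inj : InjOn φ (closedBall 0 1)
  imm : ∀ z ∈ closedBall (0 : ℂ) 1, Function.Injective (fderiv ℝ φ z)
  inside : ∀ z ∈ ball (0 : ℂ) 1, 0 < φ z 3
  bdry : ∀ z ∈ sphere (0 : ℂ) 1, φ z 3 = 0
  trans : ∀ z ∈ sphere (0 : ℂ) 1, fderiv ℝ (fun w => φ w 3) z ≠ 0

/-- Immersed disc in three-space with ribbon singularities: for two different points of the disc with
the same image, exactly one of them lies in the set `A` (the union of the interior arcs), a compact
subset of the open real diameter of the disc. -/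
structure RibbonDisc (σ : ℂ → E3) : Prop where
  smooth : ∃ W : Set ℂ, IsOpen W ∧ closedBall 0 1 ⊆ W ∧ ContDiffOn ℝ ∞ σ W
  imm : ∀ z ∈ closedBall (0 : ℂ) 1, Function.Injective (fderiv ℝ σ z)
  sing : ∃ A : Set ℂ, IsCompact A ∧ (∀ a ∈ A, a.im = 0 ∧ ‖a‖ < 1) ∧
    ∀ z ∈ closedBall (0 : ℂ) 1, ∀ w ∈ closedBall (0 : ℂ) 1, z ≠ w → σ z = σ w →
      (z ∈ A ∧ w ∉ A) ∨ (w ∈ A ∧ z ∉ A)

/-- First fundamental form. -/
noncomputable def gf (φ : ℂ → E4) (u v z : ℂ) : ℝ := ⟪fderiv ℝ φ z u, fderiv ℝ φ z v⟫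

/-- Second derivative in the directions `u`, `v`. -/
noncomputable def dd (φ : ℂ → E4) (u v z : ℂ) : E4 := fderiv ℝ (fun w => fderiv ℝ φ w v) z u

/-- Half of the trace of the second derivative with respect to the first fundamental form. -/
noncomputable def htr (φ : ℂ → E4) (z : ℂ) : E4 :=
  (2 * (gf φ 1 1 z * gf φ Complex.I Complex.I z - gf φ 1 Complex.I z ^ 2))⁻¹ •
    (gf φ 1 1 z • dd φ Complex.I Complex.I z - (2 * gf φ 1 Complex.I z) • dd φ 1 Complex.I z
      + gf φ Complex.I Complex.I z • dd φ 1 1 z)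

/-- The length, in the hyperbolic metric `x₃⁻² |dx|²`, of the mean curvature vector (half of the trace
of the second fundamental form with respect to the hyperbolic metric). By the formula for a conformal
change of the metric, the mean curvature vector is `x₃² H + x₃ N(0, 0, 0, 1)`, where `H = N (htr φ)`
is the Euclidean mean curvature vector and `N` the projection onto the normal space; its hyperbolic
length is the Euclidean length of `x₃ H + N(0, 0, 0, 1)`. -/
noncomputable def hypMean (φ : ℂ → E4) (z : ℂ) : ℝ :=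
  ‖(LinearMap.range (fderiv ℝ φ z).toLinearMap)ᗮ.starProjection (φ z 3 • htr φ z + up)‖

/-- The height `x₃` is a Morse function on the open disc. -/
def MorseHeight (φ : ℂ → E4) : Prop :=
  ∀ z ∈ ball (0 : ℂ) 1, fderiv ℝ (fun w => φ w 3) z = 0 → ∀ u : ℂ,
    (∀ v : ℂ, fderiv ℝ (fderiv ℝ (fun w => φ w 3)) z u v = 0) → u = 0

/-- A smooth isotopy of slice discs with fixed boundary: `Φ t`, `0 ≤ t ≤ 1`, is a slice disc with the
boundary values of `φ`, smooth in `(t, z)`, from `Φ 0 = φ` to `Φ 1 = ψ`. -/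
def IsoStep (φ ψ : ℂ → E4) : Prop :=
  ∃ Φ : ℝ → ℂ → E4,
    (∃ W : Set (ℝ × ℂ), IsOpen W ∧ Icc 0 1 ×ˢ closedBall 0 1 ⊆ W ∧
      ContDiffOn ℝ ∞ (fun p : ℝ × ℂ => Φ p.1 p.2) W) ∧
    (∀ t ∈ Icc (0 : ℝ) 1, SliceDisc (Φ t) ∧ ∀ z ∈ sphere (0 : ℂ) 1, Φ t z = φ z) ∧
    Φ 0 = φ ∧ Φ 1 = ψ

/-- Isotopic slice discs: joined by finitely many smooth isotopies of slice discs with fixed
boundary. -/
def Isotopic (φ ψ : ℂ → E4) : Prop := Relation.ReflTransGen IsoStep φ ψ

end Pool.Agent.U987.RH
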