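import Mathlib
import Pool.Agent.U987.RH.Def

/-!
The mean curvature of the disc `(σ, δ F)`.
-/

set_option autoImplicit false

namespace Pool.Agent.U987.RH

open scoped ContDiff RealInnerProductSpace Topology
open Set Metric Filter

/-! ### The embedding of three-space -/

/-- The inclusion of three-space as a linear map. -/
noncomputable def embL : E3 →ₗ[ℝ] E4 where
  toFun s := WithLp.toLp 2 ![s 0, s 1, s 2, 0]
  map_add' a b := by
    ext i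
    fin_cases i <;> simp
  map_smul' r a := by
    ext i
    fin_cases i <;> simp

/-- The inclusion of three-space. -/
noncomputable def emb : E3 →L[ℝ] E4 := LinearMap.toContinuousLinearMap embL

theorem emb_apply (s : E3) : emb s = WithLp.toLp 2 ![s 0, s 1, s 2, 0] := rfl

theorem emb_three (s : E3) : emb s 3 = 0 := by
  rw [emb_apply]; simp

theorem up_three : up 3 = 1 := by simp [up]

theorem inner_up (x : E4) : ⟪up, x⟫ = x 3 := by
  rw [up, EuclideanSpace.inner_single_left]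
  simp

theorem norm_up : ‖up‖ = 1 := by simp [up]

theorem up_ne : up ≠ 0 := by
  intro h
  have := norm_up
  rw [h, norm_zero] at this
  exact zero_ne_one this

theorem inner_emb (a b : E3) : ⟪emb a, emb b⟫ = (⟪a, b⟫ : ℝ) := by
  rw [PiLp.inner_apply, PiLp.inner_apply, Fin.sum_univ_four, Fin.sum_univ_three, emb_apply,
    emb_apply]
  simp

theorem norm_emb (a : E3) : ‖emb a‖ = ‖a‖ := by
  have h : ‖emb a‖ ^ 2 = ‖a‖ ^ 2 := by
    rw [← real_inner_self_eq_norm_sq, ← real_inner_self_eq_norm_sq, inner_emb]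
  exact (sq_eq_sq₀ (norm_nonneg _) (norm_nonneg _)).1 h

theorem inner_emb_up (a : E3) : ⟪emb a, up⟫ = (0 : ℝ) := by
  rw [real_inner_comm, inner_up, emb_three]

theorem inner_up_emb (a : E3) : ⟪up, emb a⟫ = (0 : ℝ) := by
  rw [inner_up, emb_three]

theorem inner_pt (a b : E3) (s t : ℝ) :
    ⟪emb a + s • up, emb b + t • up⟫ = ⟪a, b⟫ + s * t := by
  rw [inner_add_left, inner_add_right, inner_add_right, real_inner_smul_left,
    real_inner_smul_left, real_inner_smul_right, real_inner_smul_right, inner_emb, inner_emb_up,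
    inner_up_emb, real_inner_self_eq_norm_sq, norm_up]
  ring

theorem norm_pt (a : E3) (s : ℝ) : ‖emb a + s • up‖ ^ 2 = ‖a‖ ^ 2 + s ^ 2 := by
  rw [← real_inner_self_eq_norm_sq, inner_pt, real_inner_self_eq_norm_sq]
  ring

theorem pt_three (a : E3) (s : ℝ) : (emb a + s • up) 3 = s := by
  have : (emb a + s • up) 3 = emb a 3 + s * up 3 := rfl
  rw [this, emb_three, up_three]
  ring

/-- `hor` as a linear map. -/
noncomputable def horL : E4 →ₗ[ℝ] E3 where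
  toFun := hor
  map_add' a b := by
    unfold hor
    ext i
    fin_cases i <;> simp
  map_smul' r a := by
    unfold hor
    ext i
    fin_cases i <;> simp

/-- `hor` as a continuous linear map. -/
noncomputable def horC : E4 →L[ℝ] E3 := LinearMap.toContinuousLinearMap horL

theorem horC_apply (x : E4) : horC x = hor x := rfl

theorem hor_emb (a : E3) : hor (emb a) = a := by
  rw [emb_apply]
  unfold hor
  ext i
  fin_cases i <;> simp

theorem hor_up : hor up = 0 := by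
  unfold hor up
  ext i
  fin_cases i <;> simp

theorem hor_pt (a : E3) (s : ℝ) : hor (emb a + s • up) = a := by
  rw [← horC_apply, map_add, map_smul, horC_apply, horC_apply, hor_emb, hor_up, smul_zero,
    add_zero]

theorem decomp (x : E4) : emb (hor x) + (x 3) • up = x := by
  rw [emb_apply]
  unfold hor up
  ext i
  fin_cases i <;> simp

/-! ### The disc `(σ, δ F)` -/

/-- The surface with projection `σ` and height `δ F`. -/
noncomputable def sq (σ : ℂ → E3) (F : ℂ → ℝ) (δ : ℝ) (z : ℂ) : E4 := emb (σ z) + (δ * F z) • up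

theorem sq_three (σ : ℂ → E3) (F : ℂ → ℝ) (δ : ℝ) (z : ℂ) : sq σ F δ z 3 = δ * F z := pt_three _ _

theorem hor_sq (σ : ℂ → E3) (F : ℂ → ℝ) (δ : ℝ) (z : ℂ) : hor (sq σ F δ z) = σ z := hor_pt _ _

theorem sq_hasFDerivAt {σ : ℂ → E3} {F : ℂ → ℝ} (δ : ℝ) {z : ℂ} (hσ : DifferentiableAt ℝ σ z)
    (hF : DifferentiableAt ℝ F z) :
    HasFDerivAt (sq σ F δ) (emb.comp (fderiv ℝ σ z) + (δ • fderiv ℝ F z).smulRight up) z :=
  (emb.hasFDerivAt.comp z hσ.hasFDerivAt).add ((hF.hasFDerivAt.const_mul δ).smul_const up)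

theorem sq_fderiv {σ : ℂ → E3} {F : ℂ → ℝ} (δ : ℝ) {z : ℂ} (hσ : DifferentiableAt ℝ σ z)
    (hF : DifferentiableAt ℝ F z) (v : ℂ) :
    fderiv ℝ (sq σ F δ) z v = emb (fderiv ℝ σ z v) + (δ * fderiv ℝ F z v) • up := by
  rw [(sq_hasFDerivAt δ hσ hF).fderiv]
  rfl

section

variable {E : Type*} [NormedAddCommGroup E] [NormedSpace ℝ E]

theorem diff_at {f : ℂ → E} {W : Set ℂ} (hW : IsOpen W) (hf : ContDiffOn ℝ ∞ f W) {z : ℂ}
    (hz : z ∈ W) : DifferentiableAt ℝ f z :=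
  (hf.contDiffAt (hW.mem_nhds hz)).differentiableAt (by simp)

theorem smooth_d {f : ℂ → E} {W : Set ℂ} (hW : IsOpen W) (hf : ContDiffOn ℝ ∞ f W) (v : ℂ) :
    ContDiffOn ℝ ∞ (fun w => fderiv ℝ f w v) W :=
  (hf.fderiv_of_isOpen hW (by simp)).clm_apply contDiffOn_const

theorem cont_d {f : ℂ → E} {W : Set ℂ} (hW : IsOpen W) (hf : ContDiffOn ℝ ∞ f W) (v : ℂ) {z : ℂ}
    (hz : z ∈ W) : ContinuousAt (fun w => fderiv ℝ f w v) z :=
  (smooth_d hW hf v).continuousOn.continuousAt (hW.mem_nhds hz)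

theorem cont_dd {f : ℂ → E} {W : Set ℂ} (hW : IsOpen W) (hf : ContDiffOn ℝ ∞ f W) (u v : ℂ) {z : ℂ}
    (hz : z ∈ W) : ContinuousAt (fun w => fderiv ℝ (fun w => fderiv ℝ f w v) w u) z :=
  cont_d hW (smooth_d hW hf v) u hz

end

theorem sq_dd {σ : ℂ → E3} {F : ℂ → ℝ} {W : Set ℂ} (hW : IsOpen W) (hσ : ContDiffOn ℝ ∞ σ W)
    (hF : ContDiffOn ℝ ∞ F W) (δ : ℝ) {z : ℂ} (hz : z ∈ W) (u v : ℂ) :
    dd (sq σ F δ) u v z = emb (fderiv ℝ (fun w => fderiv ℝ σ w v) z u) +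
      (δ * fderiv ℝ (fun w => fderiv ℝ F w v) z u) • up := by
  unfold dd
  have h1 : (fun w => fderiv ℝ (sq σ F δ) w v) =ᶠ[𝓝 z]
      sq (fun w => fderiv ℝ σ w v) (fun w => fderiv ℝ F w v) δ := by
    filter_upwards [hW.mem_nhds hz] with w hw
    exact sq_fderiv δ (diff_at hW hσ hw) (diff_at hW hF hw) v
  rw [h1.fderiv_eq]
  exact sq_fderiv δ (diff_at hW (smooth_d hW hσ v) hz) (diff_at hW (smooth_d hW hF v) hz) u

/-- First fundamental form of `(σ, δ F)`. -/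
noncomputable def ee (σ : ℂ → E3) (F : ℂ → ℝ) (u v : ℂ) (δ : ℝ) (z : ℂ) : ℝ :=
  ⟪fderiv ℝ σ z u, fderiv ℝ σ z v⟫ + δ ^ 2 * (fderiv ℝ F z u * fderiv ℝ F z v)

/-- Its determinant. -/
noncomputable def de (σ : ℂ → E3) (F : ℂ → ℝ) (δ : ℝ) (z : ℂ) : ℝ :=
  ee σ F 1 1 δ z * ee σ F Complex.I Complex.I δ z - ee σ F 1 Complex.I δ z ^ 2

/-- Second derivative of a function. -/
noncomputable def s2 {E : Type*} [NormedAddCommGroup E] [NormedSpace ℝ E] (f : ℂ → E) (u v z : ℂ) :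
    E := fderiv ℝ (fun w => fderiv ℝ f w v) z u

/-- Half of the trace of the second derivative of `f` for the first fundamental form of
`(σ, δ F)`. -/
noncomputable def tr {E : Type*} [NormedAddCommGroup E] [NormedSpace ℝ E] (σ : ℂ → E3) (F : ℂ → ℝ)
    (f : ℂ → E) (δ : ℝ) (z : ℂ) : E :=
  (2 * de σ F δ z)⁻¹ • (ee σ F 1 1 δ z • s2 f Complex.I Complex.I z
    - (2 * ee σ F 1 Complex.I δ z) • s2 f 1 Complex.I z
    + ee σ F Complex.I Complex.I δ z • s2 f 1 1 z)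

theorem sq_gf {σ : ℂ → E3} {F : ℂ → ℝ} (δ : ℝ) {z : ℂ} (hσ : DifferentiableAt ℝ σ z)
    (hF : DifferentiableAt ℝ F z) (u v : ℂ) : gf (sq σ F δ) u v z = ee σ F u v δ z := by
  unfold gf ee
  rw [sq_fderiv δ hσ hF, sq_fderiv δ hσ hF, inner_pt]
  ring

theorem sq_htr {σ : ℂ → E3} {F : ℂ → ℝ} {W : Set ℂ} (hW : IsOpen W) (hσ : ContDiffOn ℝ ∞ σ W)
    (hF : ContDiffOn ℝ ∞ F W) (δ : ℝ) {z : ℂ} (hz : z ∈ W) :
    htr (sq σ F δ) z = emb (tr σ F σ δ z) + (δ * tr σ F F δ z) • up := by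
  have h1 := diff_at hW hσ hz
  have h2 := diff_at hW hF hz
  unfold htr tr
  rw [sq_gf δ h1 h2, sq_gf δ h1 h2, sq_gf δ h1 h2, sq_dd hW hσ hF δ hz, sq_dd hW hσ hF δ hz,
    sq_dd hW hσ hF δ hz]
  unfold de s2
  rw [map_smul, map_add, map_sub, map_smul, map_smul, map_smul]
  simp only [smul_add, smul_sub, smul_smul, smul_eq_mul]
  module

/-- The quantity which is to be negative. -/
noncomputable def rr (σ : ℂ → E3) (F : ℂ → ℝ) (X : ℂ) (δ : ℝ) (z : ℂ) : ℝ :=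
  ‖F z • tr σ F σ δ z - fderiv ℝ σ z X‖ ^ 2 + 2 * (F z * tr σ F F δ z - fderiv ℝ F z X) +
    δ ^ 2 * (F z * tr σ F F δ z - fderiv ℝ F z X) ^ 2

theorem hypMean_le (φ : ℂ → E4) (z X : ℂ) :
    hypMean φ z ≤ ‖φ z 3 • htr φ z + up - fderiv ℝ φ z X‖ := by
  unfold hypMean
  set K := (LinearMap.range (fderiv ℝ φ z).toLinearMap) with hK
  have h1 : Kᗮ.starProjection (fderiv ℝ φ z X) = 0 := by
    rw [Submodule.starProjection_apply_eq_zero_iff]
    exact Submodule.le_orthogonal_orthogonal K ⟨X, rfl⟩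
  have h2 : Kᗮ.starProjection (φ z 3 • htr φ z + up) =
      Kᗮ.starProjection (φ z 3 • htr φ z + up - fderiv ℝ φ z X) := by
    rw [map_sub, h1, sub_zero]
  rw [h2]
  exact Submodule.norm_starProjection_apply_le _ _

theorem hypMean_nonneg (φ : ℂ → E4) (z : ℂ) : 0 ≤ hypMean φ z := norm_nonneg _

theorem sq_hypMean {σ : ℂ → E3} {F : ℂ → ℝ} {W : Set ℂ} (hW : IsOpen W) (hσ : ContDiffOn ℝ ∞ σ W)
    (hF : ContDiffOn ℝ ∞ F W) (δ : ℝ) {z : ℂ} (hz : z ∈ W) (X : ℂ) :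
    hypMean (sq σ F δ) z ^ 2 ≤ 1 + δ ^ 2 * rr σ F X δ z := by
  have h0 := hypMean_le (sq σ F δ) z (δ • X)
  have h1 : sq σ F δ z 3 • htr (sq σ F δ) z + up - fderiv ℝ (sq σ F δ) z (δ • X) =
      emb (δ • (F z • tr σ F σ δ z - fderiv ℝ σ z X)) +
        (1 + δ ^ 2 * (F z * tr σ F F δ z - fderiv ℝ F z X)) • up := by
    rw [sq_three, sq_htr hW hσ hF δ hz, map_smul, sq_fderiv δ (diff_at hW hσ hz)
      (diff_at hW hF hz), map_smul, map_sub, map_smul]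
    module
  rw [h1] at h0
  have h2 : hypMean (sq σ F δ) z ^ 2 ≤ ‖emb (δ • (F z • tr σ F σ δ z - fderiv ℝ σ z X)) +
        (1 + δ ^ 2 * (F z * tr σ F F δ z - fderiv ℝ F z X)) • up‖ ^ 2 :=
    pow_le_pow_left₀ (hypMean_nonneg _ _) h0 2
  refine h2.trans (le_of_eq ?_)
  rw [norm_pt, norm_smul, mul_pow, Real.norm_eq_abs, sq_abs]
  unfold rr
  ring

/-! ### Continuity -/

theorem ee_cont {σ : ℂ → E3} {F : ℂ → ℝ} {W : Set ℂ} (hW : IsOpen W) (hσ : ContDiffOn ℝ ∞ σ W)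
    (hF : ContDiffOn ℝ ∞ F W) (u v : ℂ) (δ : ℝ) {z : ℂ} (hz : z ∈ W) :
    ContinuousAt (fun q : ℝ × ℂ => ee σ F u v q.1 q.2) (δ, z) := by
  unfold ee
  have hs : ContinuousAt (fun q : ℝ × ℂ => q.2) (δ, z) := continuousAt_snd
  have a : ∀ w : ℂ, ContinuousAt (fun q : ℝ × ℂ => fderiv ℝ σ q.2 w) (δ, z) := fun w =>
    ContinuousAt.comp (x := (δ, z)) (g := fun z => fderiv ℝ σ z w) (f := fun q : ℝ × ℂ => q.2)
      (cont_d hW hσ w hz) hs
  have b : ∀ w : ℂ, ContinuousAt (fun q : ℝ × ℂ => fderiv ℝ F q.2 w) (δ, z) := fun w =>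
    ContinuousAt.comp (x := (δ, z)) (g := fun z => fderiv ℝ F z w) (f := fun q : ℝ × ℂ => q.2)
      (cont_d hW hF w hz) hs
  exact ((a u).inner (a v)).add ((continuousAt_fst.pow 2).mul ((b u).mul (b v)))

theorem de_cont {σ : ℂ → E3} {F : ℂ → ℝ} {W : Set ℂ} (hW : IsOpen W) (hσ : ContDiffOn ℝ ∞ σ W)
    (hF : ContDiffOn ℝ ∞ F W) (δ : ℝ) {z : ℂ} (hz : z ∈ W) :
    ContinuousAt (fun q : ℝ × ℂ => de σ F q.1 q.2) (δ, z) := by
  unfold de
  exact ((ee_cont hW hσ hF 1 1 δ hz).mul (ee_cont hW hσ hF Complex.I Complex.I δ hz)).sub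
    ((ee_cont hW hσ hF 1 Complex.I δ hz).pow 2)

theorem tr_cont {E : Type*} [NormedAddCommGroup E] [NormedSpace ℝ E]
    {σ : ℂ → E3} {F : ℂ → ℝ} {W : Set ℂ} (hW : IsOpen W) (hσ : ContDiffOn ℝ ∞ σ W)
    (hF : ContDiffOn ℝ ∞ F W) {f : ℂ → E} (hf : ContDiffOn ℝ ∞ f W) (δ : ℝ) {z : ℂ} (hz : z ∈ W)
    (hd : de σ F δ z ≠ 0) :
    ContinuousAt (fun q : ℝ × ℂ => tr σ F f q.1 q.2) (δ, z) := by
  unfold tr s2
  have hs : ContinuousAt (fun q : ℝ × ℂ => q.2) (δ, z) := continuousAt_snd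
  have a : ∀ u v : ℂ, ContinuousAt
      (fun q : ℝ × ℂ => fderiv ℝ (fun w => fderiv ℝ f w v) q.2 u) (δ, z) := fun u v =>
    ContinuousAt.comp (x := (δ, z)) (g := fun z => fderiv ℝ (fun w => fderiv ℝ f w v) z u)
      (f := fun q : ℝ × ℂ => q.2) (cont_dd hW hf u v hz) hs
  have h0 : 2 * de σ F δ z ≠ 0 := mul_ne_zero two_ne_zero hd
  refine ContinuousAt.smul (ContinuousAt.inv₀ (continuousAt_const.mul (de_cont hW hσ hF δ hz)) h0)
    ?_
  exact (((ee_cont hW hσ hF 1 1 δ hz).smul (a _ _)).sub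
    ((continuousAt_const.mul (ee_cont hW hσ hF 1 Complex.I δ hz)).smul (a _ _))).add
    ((ee_cont hW hσ hF Complex.I Complex.I δ hz).smul (a _ _))

theorem rr_cont {σ : ℂ → E3} {F : ℂ → ℝ} {W : Set ℂ} (hW : IsOpen W) (hσ : ContDiffOn ℝ ∞ σ W)
    (hF : ContDiffOn ℝ ∞ F W) (X : ℂ) (δ : ℝ) {z : ℂ} (hz : z ∈ W) (hd : de σ F δ z ≠ 0) :
    ContinuousAt (fun q : ℝ × ℂ => rr σ F X q.1 q.2) (δ, z) := by
  unfold rr
  have hs : ContinuousAt (fun q : ℝ × ℂ => q.2) (δ, z) := continuousAt_snd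
  have a : ContinuousAt (fun q : ℝ × ℂ => fderiv ℝ σ q.2 X) (δ, z) :=
    ContinuousAt.comp (x := (δ, z)) (g := fun z => fderiv ℝ σ z X) (f := fun q : ℝ × ℂ => q.2)
      (cont_d hW hσ X hz) hs
  have b : ContinuousAt (fun q : ℝ × ℂ => fderiv ℝ F q.2 X) (δ, z) :=
    ContinuousAt.comp (x := (δ, z)) (g := fun z => fderiv ℝ F z X) (f := fun q : ℝ × ℂ => q.2)
      (cont_d hW hF X hz) hs
  have c : ContinuousAt (fun q : ℝ × ℂ => F q.2) (δ, z) :=
    ContinuousAt.comp (x := (δ, z)) (g := F) (f := fun q : ℝ × ℂ => q.2)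
      (hF.continuousOn.continuousAt (hW.mem_nhds hz)) hs
  have d := tr_cont hW hσ hF hσ δ hz hd
  have e := tr_cont hW hσ hF hF δ hz hd
  have g := (c.mul e).sub b
  exact ((((c.smul d).sub a).norm.pow 2).add (continuousAt_const.mul g)).add
    ((continuousAt_fst.pow 2).mul (g.pow 2))

/-- The local estimate. -/
theorem local_sq {σ : ℂ → E3} {F : ℂ → ℝ} {W : Set ℂ} (hW : IsOpen W) (hσ : ContDiffOn ℝ ∞ σ W)
    (hF : ContDiffOn ℝ ∞ F W) {X z₀ : ℂ} (hz₀ : z₀ ∈ W) (hd : de σ F 0 z₀ ≠ 0) {c : ℝ}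
    (h : rr σ F X 0 z₀ < c) :
    ∃ ε > 0, ∀ z ∈ ball z₀ ε, ∀ δ ∈ Ioo 0 ε, hypMean (sq σ F δ) z ^ 2 < 1 + δ ^ 2 * c := by
  have h1 : ∀ᶠ q : ℝ × ℂ in 𝓝 (0, z₀), rr σ F X q.1 q.2 < c ∧ q.2 ∈ W :=
    ((rr_cont hW hσ hF X 0 hz₀ hd).eventually_lt_const h).and
      (continuousAt_snd.eventually (hW.mem_nhds hz₀))
  obtain ⟨ε, hε, hb⟩ := Metric.eventually_nhds_iff.1 h1
  refine ⟨ε, hε, fun z hz δ hδ => ?_⟩
  have h2 : dist ((δ, z) : ℝ × ℂ) (0, z₀) < ε := by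
    rw [Prod.dist_eq, max_lt_iff]
    refine ⟨?_, mem_ball.1 hz⟩
    rw [Real.dist_eq, sub_zero, abs_of_pos hδ.1]
    exact hδ.2
  obtain ⟨h3, h4⟩ := hb h2
  refine (sq_hypMean hW hσ hF δ h4 X).trans_lt ?_
  have : 0 < δ ^ 2 := pow_pos hδ.1 2
  have := mul_lt_mul_of_pos_left h3 this
  simp only at this
  linarith

end Pool.Agent.U987.RH
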