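import Mathlib
import Pool.Agent.U987.RH.Sq

/-!
Composition of the height with a steep function.
-/

set_option autoImplicit false

namespace Pool.Agent.U987.RH

open scoped ContDiff RealInnerProductSpace Topology
open Set Metric Filter

/-! ### The metric of the projection -/

theorem ee_zero (σ : ℂ → E3) (F : ℂ → ℝ) (u v z : ℂ) :
    ee σ F u v 0 z = ⟪fderiv ℝ σ z u, fderiv ℝ σ z v⟫ := by
  simp [ee]

theorem de_zero (σ : ℂ → E3) (F F' : ℂ → ℝ) (z : ℂ) : de σ F 0 z = de σ F' 0 z := by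
  simp only [de, ee_zero]

theorem tr_zero {E : Type*} [NormedAddCommGroup E] [NormedSpace ℝ E] (σ : ℂ → E3) (F F' : ℂ → ℝ)
    (f : ℂ → E) (z : ℂ) : tr σ F f 0 z = tr σ F' f 0 z := by
  unfold tr
  simp only [de_zero σ F F', ee_zero]

theorem gram_pos {T : ℂ →L[ℝ] E3} (hT : Function.Injective T) :
    0 < ⟪T 1, T 1⟫ * ⟪T Complex.I, T Complex.I⟫ - ⟪T 1, T Complex.I⟫ ^ 2 := by
  have h1 : 0 < ⟪T 1, T 1⟫ := by
    rw [real_inner_self_eq_norm_sq]
    have : T 1 ≠ 0 := fun h => one_ne_zero (hT (h.trans (map_zero T).symm))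
    positivity
  set E := ⟪T 1, T 1⟫ with hE
  set M := ⟪T 1, T Complex.I⟫ with hM
  set G := ⟪T Complex.I, T Complex.I⟫ with hG
  have h2 : T (M • (1 : ℂ) - E • Complex.I) ≠ 0 := by
    intro h
    have h3 := hT (h.trans (map_zero T).symm)
    have h4 := congrArg Complex.im h3
    simp at h4
    exact h1.ne' h4
  have h3 : 0 < ‖T (M • (1 : ℂ) - E • Complex.I)‖ ^ 2 := by positivity
  rw [← real_inner_self_eq_norm_sq, map_sub, map_smul, map_smul, inner_sub_left, inner_sub_right,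
    inner_sub_right, real_inner_smul_left, real_inner_smul_left, real_inner_smul_right,
    real_inner_smul_right, real_inner_smul_left, real_inner_smul_left, real_inner_smul_right,
    real_inner_smul_right, real_inner_comm (T 1) (T Complex.I), ← hE, ← hM, ← hG] at h3
  have h4 : 0 < E * (E * G - M ^ 2) := by
    refine h3.trans_eq ?_
    ring
  exact (pos_iff_pos_of_mul_pos h4).1 h1

theorem e_pos {T : ℂ →L[ℝ] E3} (hT : Function.Injective T) : 0 < ⟪T 1, T 1⟫ := by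
  rw [real_inner_self_eq_norm_sq]
  have : T 1 ≠ 0 := fun h => one_ne_zero (hT (h.trans (map_zero T).symm))
  positivity

theorem de_pos {σ : ℂ → E3} (F : ℂ → ℝ) {z : ℂ} (h : Function.Injective (fderiv ℝ σ z)) :
    0 < de σ F 0 z := by
  simp only [de, ee_zero]
  exact gram_pos h

/-- Squared length of the gradient of `f`. -/
noncomputable def qq (σ : ℂ → E3) (f : ℂ → ℝ) (z : ℂ) : ℝ :=
  (de σ f 0 z)⁻¹ * (ee σ f Complex.I Complex.I 0 z * fderiv ℝ f z 1 ^ 2
    - 2 * ee σ f 1 Complex.I 0 z * (fderiv ℝ f z 1 * fderiv ℝ f z Complex.I)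
    + ee σ f 1 1 0 z * fderiv ℝ f z Complex.I ^ 2)

/-- The gradient. -/
noncomputable def gra (σ : ℂ → E3) (f : ℂ → ℝ) (z : ℂ) : ℂ :=
  ((de σ f 0 z)⁻¹ * (ee σ f Complex.I Complex.I 0 z * fderiv ℝ f z 1 -
      ee σ f 1 Complex.I 0 z * fderiv ℝ f z Complex.I)) • (1 : ℂ) +
    ((de σ f 0 z)⁻¹ * (ee σ f 1 1 0 z * fderiv ℝ f z Complex.I -
      ee σ f 1 Complex.I 0 z * fderiv ℝ f z 1)) • Complex.I

theorem gra_f (σ : ℂ → E3) (f : ℂ → ℝ) (z : ℂ) : fderiv ℝ f z (gra σ f z) = qq σ f z := by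
  unfold gra qq
  rw [map_add, map_smul, map_smul, smul_eq_mul, smul_eq_mul]
  ring

theorem gra_σ {σ : ℂ → E3} (f : ℂ → ℝ) {z : ℂ} (h : Function.Injective (fderiv ℝ σ z)) :
    ‖fderiv ℝ σ z (gra σ f z)‖ ^ 2 = qq σ f z := by
  have hd := de_pos f h
  have hd' : de σ f 0 z = ee σ f 1 1 0 z * ee σ f Complex.I Complex.I 0 z -
    ee σ f 1 Complex.I 0 z ^ 2 := rfl
  rw [← real_inner_self_eq_norm_sq]
  unfold gra qq
  rw [map_add, map_smul, map_smul, inner_add_left, inner_add_right, inner_add_right,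
    real_inner_smul_left, real_inner_smul_left, real_inner_smul_left, real_inner_smul_left,
    real_inner_smul_right, real_inner_smul_right, real_inner_smul_right, real_inner_smul_right,
    real_inner_comm (fderiv ℝ σ z 1) (fderiv ℝ σ z Complex.I), ← ee_zero σ f, ← ee_zero σ f,
    ← ee_zero σ f]
  rw [hd'] at hd ⊢
  field_simp
  ring

theorem qq_nonneg {σ : ℂ → E3} (f : ℂ → ℝ) {z : ℂ} (h : Function.Injective (fderiv ℝ σ z)) :
    0 ≤ qq σ f z := by
  rw [← gra_σ f h]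
  positivity

theorem ext_of {f : ℂ → ℝ} {z : ℂ} (h1 : fderiv ℝ f z 1 = 0) (h2 : fderiv ℝ f z Complex.I = 0) :
    fderiv ℝ f z = 0 := by
  ext v
  have : v = v.re • (1 : ℂ) + v.im • Complex.I := by
    apply Complex.ext <;> simp
  rw [this, map_add, map_smul, map_smul, h1, h2]
  simp

theorem qq_zero {σ : ℂ → E3} {f : ℂ → ℝ} {z : ℂ} (h : Function.Injective (fderiv ℝ σ z))
    (hq : qq σ f z = 0) : fderiv ℝ f z = 0 := by
  have h1 := gra_σ f h
  rw [hq] at h1
  have h2 : fderiv ℝ σ z (gra σ f z) = 0 := by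
    have := pow_eq_zero_iff (two_ne_zero) |>.1 h1
    exact norm_eq_zero.1 this
  have h3 : gra σ f z = 0 := h (h2.trans (map_zero _).symm)
  have hd := de_pos f h
  have hd' : de σ f 0 z = ee σ f 1 1 0 z * ee σ f Complex.I Complex.I 0 z -
    ee σ f 1 Complex.I 0 z ^ 2 := rfl
  have h4 := congrArg Complex.re h3
  have h5 := congrArg Complex.im h3
  unfold gra at h4 h5
  simp only [Complex.add_re, Complex.real_smul, Complex.mul_re, Complex.ofReal_re,
    Complex.ofReal_im, Complex.I_re, Complex.I_im, Complex.zero_re, mul_one,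
    mul_zero, sub_zero, add_zero, Complex.add_im, Complex.mul_im, Complex.zero_im, zero_add] at h4 h5
  have i0 : (de σ f 0 z)⁻¹ ≠ 0 := inv_ne_zero hd.ne'
  have a := (mul_eq_zero.1 h4).resolve_left i0
  have b := (mul_eq_zero.1 h5).resolve_left i0
  set E := ee σ f 1 1 0 z
  set M := ee σ f 1 Complex.I 0 z
  set G := ee σ f Complex.I Complex.I 0 z
  have c1 : de σ f 0 z * fderiv ℝ f z 1 = 0 := by
    rw [hd']
    linear_combination E * a + M * b
  have c2 : de σ f 0 z * fderiv ℝ f z Complex.I = 0 := by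
    rw [hd']
    linear_combination M * a + G * b
  exact ext_of ((mul_eq_zero.1 c1).resolve_left hd.ne') ((mul_eq_zero.1 c2).resolve_left hd.ne')

theorem qq_of_zero {σ : ℂ → E3} {f : ℂ → ℝ} {z : ℂ} (h : fderiv ℝ f z = 0) : qq σ f z = 0 := by
  unfold qq
  rw [h]
  simp

/-! ### The steep function -/

/-- The steep function. -/
noncomputable def hh (A C s : ℝ) : ℝ := Real.exp (-(A * Real.exp (-(C * s)))) - Real.exp (-A)

/-- Its derivative. -/
noncomputable def hh1 (A C s : ℝ) : ℝ :=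
  Real.exp (-(A * Real.exp (-(C * s)))) * (A * C * Real.exp (-(C * s)))

theorem hh_deriv (A C s : ℝ) : HasDerivAt (hh A C) (hh1 A C s) s := by
  have h1 : HasDerivAt (fun s : ℝ => Real.exp (-(C * s))) (Real.exp (-(C * s)) * (-(C * 1))) s :=
    (((hasDerivAt_id s).const_mul C).neg).exp
  have h2 := ((h1.const_mul A).neg).exp.sub_const (Real.exp (-A))
  exact h2.congr_deriv (by unfold hh1; simp only [Pi.neg_apply]; ring)

theorem hh1_deriv (A C s : ℝ) :
    HasDerivAt (hh1 A C) (hh1 A C s * (A * C * Real.exp (-(C * s)) - C)) s := by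
  have h1 : HasDerivAt (fun s : ℝ => Real.exp (-(C * s))) (Real.exp (-(C * s)) * (-(C * 1))) s :=
    (((hasDerivAt_id s).const_mul C).neg).exp
  have h2 := (((h1.const_mul A).neg).exp).mul (h1.const_mul (A * C))
  exact h2.congr_deriv (by unfold hh1; simp only [Pi.neg_apply]; ring)

theorem hh_smooth (A C : ℝ) : ContDiff ℝ ∞ (hh A C) := by
  unfold hh
  fun_prop

theorem hh_zero (A C : ℝ) : hh A C 0 = 0 := by
  unfold hh
  simp

theorem hh1_pos {A C : ℝ} (hA : 0 < A) (hC : 0 < C) (s : ℝ) : 0 < hh1 A C s := by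
  unfold hh1
  positivity

theorem hh_strictMono {A C : ℝ} (hA : 0 < A) (hC : 0 < C) : StrictMono (hh A C) :=
  strictMono_of_deriv_pos fun s => by
    rw [(hh_deriv A C s).deriv]
    exact hh1_pos hA hC s

theorem hh_pos {A C : ℝ} (hA : 0 < A) (hC : 0 < C) {s : ℝ} (hs : 0 < s) : 0 < hh A C s := by
  have := hh_strictMono hA hC hs
  rwa [hh_zero] at this

theorem hh_le (A C : ℝ) (s : ℝ) : hh A C s * (A * C * Real.exp (-(C * s))) ≤ hh1 A C s ∨
    A * C < 0 := by
  by_cases h : A * C < 0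
  · exact Or.inr h
  · left
    unfold hh hh1
    push Not at h
    refine mul_le_mul_of_nonneg_right ?_ (mul_nonneg h (Real.exp_pos _).le)
    linarith [Real.exp_pos (-A)]

theorem comp_d {f : ℂ → ℝ} (A C : ℝ) {z : ℂ} (hf : DifferentiableAt ℝ f z) (v : ℂ) :
    fderiv ℝ (fun w => hh A C (f w)) z v = hh1 A C (f z) * fderiv ℝ f z v := by
  have h := (hh_deriv A C (f z)).comp_hasFDerivAt z hf.hasFDerivAt
  have h2 : HasFDerivAt (fun w => hh A C (f w)) (hh1 A C (f z) • fderiv ℝ f z) z := h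
  rw [h2.fderiv]
  rfl

theorem comp_dd {f : ℂ → ℝ} {W : Set ℂ} (hW : IsOpen W) (hf : ContDiffOn ℝ ∞ f W) (A C : ℝ)
    {z : ℂ} (hz : z ∈ W) (u v : ℂ) :
    s2 (fun w => hh A C (f w)) u v z = hh1 A C (f z) * (A * C * Real.exp (-(C * f z)) - C) *
      (fderiv ℝ f z u * fderiv ℝ f z v) + hh1 A C (f z) * s2 f u v z := by
  have h1 : (fun w => fderiv ℝ (fun w => hh A C (f w)) w v) =ᶠ[𝓝 z]
      fun w => hh1 A C (f w) * fderiv ℝ f w v := by
    filter_upwards [hW.mem_nhds hz] with w hw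
    exact comp_d A C (diff_at hW hf hw) v
  have h2 := (hh1_deriv A C (f z)).comp_hasFDerivAt z (diff_at hW hf hz).hasFDerivAt
  have h3 := h2.mul (diff_at hW (smooth_d hW hf v) hz).hasFDerivAt
  unfold s2
  rw [h1.fderiv_eq]
  have h4 : fderiv ℝ (fun w => hh1 A C (f w) * fderiv ℝ f w v) z = _ := h3.fderiv
  rw [h4]
  simp only [add_apply, smul_apply, smul_eq_mul, Function.comp_apply]
  ring

theorem comp_tr {σ : ℂ → E3} {f : ℂ → ℝ} {W : Set ℂ} (hW : IsOpen W) (hf : ContDiffOn ℝ ∞ f W)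
    (A C : ℝ) (F : ℂ → ℝ) {z : ℂ} (hz : z ∈ W) :
    2 * tr σ F (fun w => hh A C (f w)) 0 z =
      hh1 A C (f z) * (A * C * Real.exp (-(C * f z)) - C) * qq σ f z +
        hh1 A C (f z) * (2 * tr σ f f 0 z) := by
  rw [tr_zero σ F f (fun w => hh A C (f w))]
  unfold tr qq
  rw [comp_dd hW hf A C hz, comp_dd hW hf A C hz, comp_dd hW hf A C hz]
  simp only [smul_eq_mul, mul_inv]
  ring

/-- The inequality for numbers. -/
theorem ineq {h h' T Q n r k C : ℝ} (hh : 0 ≤ h) (hh' : 0 < h') (hrQ : r ^ 2 = Q)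
    (hk : 0 < k) (hkh : h * k ≤ h') (h0 : h = 0 → 0 < Q)
    (hb : n ^ 2 / k + 2 * n * r + T - C * Q < 0) :
    (h * n + h' * r) ^ 2 + h * (h' * (k - C) * Q + h' * T) - 2 * (h' * (h' * Q)) < 0 := by
  rcases hh.eq_or_lt with h1 | h1
  · rw [← h1]
    have h2 := h0 h1.symm
    have h3 : 0 < h' ^ 2 * Q := by positivity
    nlinarith
  · have a1 : h * h' * (n ^ 2 / k + 2 * n * r + T - C * Q) < 0 :=
      mul_neg_of_pos_of_neg (by positivity) hb
    have a2 : h * (h * k) * (n ^ 2 / k) ≤ h * h' * (n ^ 2 / k) :=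
      mul_le_mul_of_nonneg_right (mul_le_mul_of_nonneg_left hkh h1.le) (by positivity)
    have a3 : h * (h * k) * (n ^ 2 / k) = h ^ 2 * n ^ 2 := by field_simp
    have hQ : 0 ≤ Q := by rw [← hrQ]; positivity
    have a4 : (h * k) * (h' * Q) ≤ h' * (h' * Q) :=
      mul_le_mul_of_nonneg_right hkh (by positivity)
    have a5 : (h * n + h' * r) ^ 2 = h ^ 2 * n ^ 2 + 2 * h * h' * (n * r) + h' ^ 2 * Q := by
      rw [← hrQ]; ring
    rw [a5]
    nlinarith

theorem steep_pt {σ : ℂ → E3} {f : ℂ → ℝ} {W : Set ℂ} (hW : IsOpen W) (hf : ContDiffOn ℝ ∞ f W)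
    {A C : ℝ} (hA : 0 < A) (hC : 0 < C) {z : ℂ} (hz : z ∈ W)
    (hi : Function.Injective (fderiv ℝ σ z)) (h0 : 0 ≤ f z) (h1 : f z = 0 → 0 < qq σ f z)
    (hb : ‖tr σ f σ 0 z‖ ^ 2 / (A * C * Real.exp (-(C * f z))) +
      2 * ‖tr σ f σ 0 z‖ * √(qq σ f z) + 2 * tr σ f f 0 z - C * qq σ f z < 0) :
    ∃ X, rr σ (fun w => hh A C (f w)) X 0 z < 0 := by
  have hq := qq_nonneg f hi
  refine ⟨hh1 A C (f z) • gra σ f z, ?_⟩
  have hpos : 0 ≤ hh A C (f z) := by
    have := (hh_strictMono hA hC).monotone h0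
    rwa [hh_zero] at this
  have hpos1 := hh1_pos hA hC (f z)
  have key := ineq (h := hh A C (f z)) (h' := hh1 A C (f z)) (T := 2 * tr σ f f 0 z)
    (Q := qq σ f z) (n := ‖tr σ f σ 0 z‖) (r := √(qq σ f z))
    (k := A * C * Real.exp (-(C * f z))) (C := C) hpos hpos1
    (Real.sq_sqrt hq) (by positivity)
    ((hh_le A C (f z)).resolve_right (not_lt.2 (by positivity))) (fun h => h1 (by
      have : hh A C (f z) = hh A C 0 := by rw [h, hh_zero]
      exact (hh_strictMono hA hC).injective this)) hb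
  unfold rr
  have e1 : ‖hh A C (f z) • tr σ (fun w => hh A C (f w)) σ 0 z -
      fderiv ℝ σ z (hh1 A C (f z) • gra σ f z)‖ ≤
      hh A C (f z) * ‖tr σ f σ 0 z‖ + hh1 A C (f z) * √(qq σ f z) := by
    refine (norm_sub_le _ _).trans ?_
    rw [map_smul, norm_smul, norm_smul, Real.norm_of_nonneg hpos, Real.norm_of_nonneg hpos1.le,
      tr_zero σ _ f σ, ← gra_σ f hi, Real.sqrt_sq (norm_nonneg _)]
  have e2 := pow_le_pow_left₀ (norm_nonneg _) e1 2
  have e3 : 2 * (hh A C (f z) * tr σ (fun w => hh A C (f w)) (fun w => hh A C (f w)) 0 z -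
      fderiv ℝ (fun w => hh A C (f w)) z (hh1 A C (f z) • gra σ f z)) =
      hh A C (f z) * (hh1 A C (f z) * (A * C * Real.exp (-(C * f z)) - C) * qq σ f z +
        hh1 A C (f z) * (2 * tr σ f f 0 z)) - 2 * (hh1 A C (f z) * (hh1 A C (f z) * qq σ f z)) := by
    rw [← comp_tr hW hf A C (fun w => hh A C (f w)) hz, map_smul, smul_eq_mul,
      comp_d A C (diff_at hW hf hz), gra_f]
    ring
  simp only at e2 e3 ⊢
  rw [e3]
  have e4 : (0 : ℝ) ^ 2 = 0 := by norm_num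
  rw [e4, zero_mul, add_zero]
  linarith

/-- Continuity of the coefficients at `δ = 0`. -/
theorem tr_cont0 {E : Type*} [NormedAddCommGroup E] [NormedSpace ℝ E]
    {σ : ℂ → E3} {F : ℂ → ℝ} {W : Set ℂ} (hW : IsOpen W) (hσ : ContDiffOn ℝ ∞ σ W)
    (hF : ContDiffOn ℝ ∞ F W) {f : ℂ → E} (hf : ContDiffOn ℝ ∞ f W) {z : ℂ} (hz : z ∈ W)
    (hd : de σ F 0 z ≠ 0) : ContinuousAt (fun z => tr σ F f 0 z) z :=
  ContinuousAt.comp (x := z) (g := fun q : ℝ × ℂ => tr σ F f q.1 q.2) (f := fun w => ((0 : ℝ), w))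
    (tr_cont hW hσ hF hf 0 hz hd) (Continuous.prodMk_right (0 : ℝ)).continuousAt

theorem qq_cont {σ : ℂ → E3} {f : ℂ → ℝ} {W : Set ℂ} (hW : IsOpen W) (hσ : ContDiffOn ℝ ∞ σ W)
    (hf : ContDiffOn ℝ ∞ f W) {z : ℂ} (hz : z ∈ W) (hd : de σ f 0 z ≠ 0) :
    ContinuousAt (fun z => qq σ f z) z := by
  have hc : ContinuousAt (fun w : ℂ => ((0 : ℝ), w)) z := (Continuous.prodMk_right (0 : ℝ)).continuousAt
  have e : ∀ u v : ℂ, ContinuousAt (fun z => ee σ f u v 0 z) z := fun u v =>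
    ContinuousAt.comp (x := z) (g := fun q : ℝ × ℂ => ee σ f u v q.1 q.2)
      (f := fun w => ((0 : ℝ), w)) (ee_cont hW hσ hf u v 0 hz) hc
  have d : ContinuousAt (fun z => de σ f 0 z) z :=
    ContinuousAt.comp (x := z) (g := fun q : ℝ × ℂ => de σ f q.1 q.2)
      (f := fun w => ((0 : ℝ), w)) (de_cont hW hσ hf 0 hz) hc
  unfold qq
  exact (d.inv₀ hd).mul ((((e _ _).mul ((cont_d hW hf 1 hz).pow 2)).sub
    ((continuousAt_const.mul (e _ _)).mul ((cont_d hW hf 1 hz).mul (cont_d hW hf Complex.I hz)))).add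
    ((e _ _).mul ((cont_d hW hf Complex.I hz).pow 2)))

/-- **Steepness**: if the trace of the second derivative of `f` is negative at its critical points,
then, after composition with a steep function, the inequality for the mean curvature holds. -/
theorem steep {σ : ℂ → E3} {f : ℂ → ℝ} {W : Set ℂ} (hW : IsOpen W) (hsub : closedBall 0 1 ⊆ W)
    (hσ : ContDiffOn ℝ ∞ σ W) (hf : ContDiffOn ℝ ∞ f W)
    (hi : ∀ z ∈ closedBall (0 : ℂ) 1, Function.Injective (fderiv ℝ σ z))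
    (h0 : ∀ z ∈ closedBall (0 : ℂ) 1, 0 ≤ f z)
    (h1 : ∀ z ∈ closedBall (0 : ℂ) 1, f z = 0 → fderiv ℝ f z ≠ 0)
    (hcr : ∀ z ∈ closedBall (0 : ℂ) 1, fderiv ℝ f z = 0 → tr σ f f 0 z < 0) :
    ∃ A C : ℝ, 0 < A ∧ 0 < C ∧ ∀ z ∈ closedBall (0 : ℂ) 1,
      ∃ X, rr σ (fun w => hh A C (f w)) X 0 z < 0 := by
  have hd : ∀ z ∈ closedBall (0 : ℂ) 1, de σ f 0 z ≠ 0 := fun z hz => (de_pos f (hi z hz)).ne'
  have cT : ∀ z ∈ closedBall (0 : ℂ) 1, ContinuousAt (fun z => tr σ f f 0 z) z := fun z hz =>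
    tr_cont0 hW hσ hf hf (hsub hz) (hd z hz)
  have cN : ∀ z ∈ closedBall (0 : ℂ) 1, ContinuousAt (fun z => tr σ f σ 0 z) z := fun z hz =>
    tr_cont0 hW hσ hf hσ (hsub hz) (hd z hz)
  have cQ : ∀ z ∈ closedBall (0 : ℂ) 1, ContinuousAt (fun z => qq σ f z) z := fun z hz =>
    qq_cont hW hσ hf (hsub hz) (hd z hz)
  -- the constant `C`
  let P : ℕ → ℂ → Prop := fun n w => 2 * ‖tr σ f σ 0 w‖ * √|qq σ f w| + 2 * tr σ f f 0 w +
    ((n : ℝ) + 1)⁻¹ < ((n : ℝ) + 1) * |qq σ f w|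
  have hPm : ∀ n m : ℕ, n ≤ m → ∀ w, P n w → P m w := by
    intro n m hnm w hw
    have a1 : (n : ℝ) ≤ m := by exact_mod_cast hnm
    have a2 : ((m : ℝ) + 1)⁻¹ ≤ ((n : ℝ) + 1)⁻¹ := by
      apply inv_anti₀ (by positivity); linarith
    have a3 : ((n : ℝ) + 1) * |qq σ f w| ≤ ((m : ℝ) + 1) * |qq σ f w| :=
      mul_le_mul_of_nonneg_right (by linarith) (abs_nonneg _)
    show _ < _
    have hw' : _ < _ := hw
    linarith
  have hPc : ∀ n : ℕ, ∀ z ∈ closedBall (0 : ℂ) 1, P n z → ∀ᶠ w in 𝓝 z, P n w := by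
    intro n z hz hw
    have b1 : ContinuousAt (fun w => 2 * ‖tr σ f σ 0 w‖ * √|qq σ f w| + 2 * tr σ f f 0 w +
        ((n : ℝ) + 1)⁻¹) z := by
      refine ((((continuousAt_const.mul (cN z hz).norm)).mul ?_).add
        (continuousAt_const.mul (cT z hz))).add continuousAt_const
      exact ContinuousAt.comp (x := z) (g := Real.sqrt) (f := fun w => |qq σ f w|)
        Real.continuous_sqrt.continuousAt (cQ z hz).abs
    have b2 : ContinuousAt (fun w => ((n : ℝ) + 1) * |qq σ f w|) z :=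
      continuousAt_const.mul (cQ z hz).abs
    exact b1.eventually_lt b2 hw
  obtain ⟨N, hN⟩ : ∃ N : ℕ, ∀ z ∈ closedBall (0 : ℂ) 1, P N z := by
    have hcov : closedBall (0 : ℂ) 1 ⊆ ⋃ n : ℕ, {z | ∀ᶠ w in 𝓝 z, P n w} := by
      intro z hz
      suffices h : ∃ n : ℕ, P n z by
        obtain ⟨n, hn⟩ := h
        exact mem_iUnion.2 ⟨n, hPc n z hz hn⟩
      have hq := qq_nonneg f (hi z hz)
      rcases hq.eq_or_lt with h | h
      · have hT := hcr z hz (qq_zero (hi z hz) h.symm)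
        obtain ⟨n, hn⟩ := exists_nat_one_div_lt (K := ℝ) (ε := -(2 * tr σ f f 0 z)) (by linarith)
        refine ⟨n, ?_⟩
        show _ < _
        rw [← h]
        simp only [abs_zero, Real.sqrt_zero, mul_zero, zero_add]
        rw [one_div] at hn
        linarith
      · obtain ⟨n, hn⟩ := exists_nat_gt ((2 * ‖tr σ f σ 0 z‖ * √|qq σ f z| +
          2 * tr σ f f 0 z + 1) / |qq σ f z|)
        refine ⟨n, ?_⟩
        have hq' : 0 < |qq σ f z| := abs_pos.2 h.ne'
        rw [div_lt_iff₀ hq'] at hn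
        have c1 : ((n : ℝ) + 1)⁻¹ ≤ 1 := inv_le_one_of_one_le₀ (by
          have : (0 : ℝ) ≤ n := Nat.cast_nonneg n
          linarith)
        show _ < _
        nlinarith
    obtain ⟨N, hN⟩ := (isCompact_closedBall (0 : ℂ) 1).elim_directed_cover
      (fun n : ℕ => {z | ∀ᶠ w in 𝓝 z, P n w}) (fun n => isOpen_setOfPred_eventually_nhds) hcov
      (directed_of_isDirected_le fun n m hnm z hz => Eventually.mono hz (hPm n m hnm))
    exact ⟨N, fun z hz => (hN hz).self_of_nhds⟩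
  -- bounds
  obtain ⟨S, hS⟩ := (isCompact_closedBall (0 : ℂ) 1).exists_bound_of_continuousOn
    (f := fun z => tr σ f σ 0 z) fun z hz => (cN z hz).continuousWithinAt
  obtain ⟨B, hB⟩ := (isCompact_closedBall (0 : ℂ) 1).exists_bound_of_continuousOn
    (f := f) (hf.continuousOn.mono hsub)
  have hS0 : 0 ≤ S := (norm_nonneg _).trans (hS 0 (by simp))
  set C : ℝ := (N : ℝ) + 1 with hC
  have hC0 : 0 < C := by positivity
  set A : ℝ := (S ^ 2 + 1) * Real.exp (C * B) with hA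
  have hA0 : 0 < A := by positivity
  refine ⟨A, C, hA0, hC0, fun z hz => ?_⟩
  have hq := qq_nonneg f (hi z hz)
  refine steep_pt hW hf hA0 hC0 (hsub hz) (hi z hz) (h0 z hz) (fun h => ?_) ?_
  · refine hq.lt_of_ne fun h' => h1 z hz h (qq_zero (hi z hz) h'.symm)
  · have hP : 2 * ‖tr σ f σ 0 z‖ * √|qq σ f z| + 2 * tr σ f f 0 z + C⁻¹ < C * |qq σ f z| := hN z hz
    rw [abs_of_nonneg hq] at hP
    have c1 : ‖tr σ f σ 0 z‖ ^ 2 / (A * C * Real.exp (-(C * f z))) < C⁻¹ := by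
      have d1 : (S ^ 2 + 1) * C ≤ A * C * Real.exp (-(C * f z)) := by
        have d2 : Real.exp (C * B) * Real.exp (-(C * f z)) = Real.exp (C * (B - f z)) := by
          rw [← Real.exp_add]; congr 1; ring
        have d3 : A * C * Real.exp (-(C * f z)) = (S ^ 2 + 1) * C * Real.exp (C * (B - f z)) := by
          rw [← d2, hA]; ring
        rw [d3]
        have d4 : f z ≤ B := (le_abs_self _).trans (hB z hz)
        have d5 : 1 ≤ Real.exp (C * (B - f z)) :=
          Real.one_le_exp (mul_nonneg hC0.le (by linarith))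
        have d6 : 0 ≤ (S ^ 2 + 1) * C := by positivity
        nlinarith
      have d7 : 0 < (S ^ 2 + 1) * C := by positivity
      have d8 : ‖tr σ f σ 0 z‖ ^ 2 ≤ S ^ 2 := pow_le_pow_left₀ (norm_nonneg _) (hS z hz) 2
      calc ‖tr σ f σ 0 z‖ ^ 2 / (A * C * Real.exp (-(C * f z)))
          ≤ S ^ 2 / ((S ^ 2 + 1) * C) := by
            apply div_le_div₀ (sq_nonneg _) d8 d7 d1
        _ < (S ^ 2 + 1) / ((S ^ 2 + 1) * C) := by
            apply div_lt_div_of_pos_right _ d7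
            linarith
        _ = C⁻¹ := by
            have : S ^ 2 + 1 ≠ 0 := by positivity
            field_simp
    linarith

end Pool.Agent.U987.RH
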