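import Mathlib
import Pool.Agent.U987.RH.Steep

/-!
Second derivatives; the local perturbation of a function.
-/

set_option autoImplicit false

namespace Pool.Agent.U987.RH

open scoped ContDiff RealInnerProductSpace Topology
open Set Metric Filter

theorem s2_eq {f : ℂ → ℝ} {z : ℂ} (h : ContDiffAt ℝ ∞ f z) (u v : ℂ) :
    s2 f u v z = fderiv ℝ (fderiv ℝ f) z u v := by
  have h1 : DifferentiableAt ℝ (fderiv ℝ f) z :=
    (h.fderiv_right (m := 1) (by norm_cast)).differentiableAt (by simp)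
  have h3 : HasFDerivAt (fun w => fderiv ℝ f w v) ((fderiv ℝ (fderiv ℝ f) z).flip v) z := by
    have h5 := h1.hasFDerivAt.clm_apply (hasFDerivAt_const v z)
    have h6 : (fderiv ℝ f z ∘SL (0 : ℂ →L[ℝ] ℂ) + (fderiv ℝ (fderiv ℝ f) z).flip v) =
        (fderiv ℝ (fderiv ℝ f) z).flip v := by simp
    exact h6 ▸ h5
  unfold s2
  rw [h3.fderiv]
  rfl

theorem s2_symm {f : ℂ → ℝ} {z : ℂ} (h : ContDiffAt ℝ ∞ f z) (u v : ℂ) :
    s2 f u v z = s2 f v u z := by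
  rw [s2_eq h, s2_eq h]
  exact (h.isSymmSndFDerivAt (by
    simp only [minSmoothness_of_isRCLikeNormedField]
    exact WithTop.coe_le_coe.mpr (le_top : (2 : ℕ∞) ≤ ⊤))).eq u v

theorem s2_add_left {f : ℂ → ℝ} {z : ℂ} (h : ContDiffAt ℝ ∞ f z) (u u' v : ℂ) :
    s2 f (u + u') v z = s2 f u v z + s2 f u' v z := by
  rw [s2_eq h, s2_eq h, s2_eq h, map_add]; rfl

theorem s2_smul_left {f : ℂ → ℝ} {z : ℂ} (h : ContDiffAt ℝ ∞ f z) (c : ℝ) (u v : ℂ) :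
    s2 f (c • u) v z = c * s2 f u v z := by
  rw [s2_eq h, s2_eq h, map_smul]; rfl

/-- The second derivative in terms of the standard basis. -/
theorem s2_quad {f : ℂ → ℝ} {z : ℂ} (h : ContDiffAt ℝ ∞ f z) (w : ℂ) :
    s2 f w w z = w.re ^ 2 * s2 f 1 1 z + 2 * w.re * w.im * s2 f 1 Complex.I z +
      w.im ^ 2 * s2 f Complex.I Complex.I z := by
  have e : w = w.re • (1 : ℂ) + w.im • Complex.I := by
    apply Complex.ext <;> simp
  have e1 : ∀ v, s2 f w v z = w.re * s2 f 1 v z + w.im * s2 f Complex.I v z := by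
    intro v
    conv_lhs => rw [e]
    rw [s2_add_left h, s2_smul_left h, s2_smul_left h]
  rw [e1, s2_symm h 1 w, s2_symm h Complex.I w, e1, e1, s2_symm h Complex.I 1]
  ring

theorem s2_add {f g : ℂ → ℝ} {z : ℂ} (hf : ContDiffAt ℝ ∞ f z) (hg : ContDiffAt ℝ ∞ g z)
    (u v : ℂ) : s2 (fun w => f w + g w) u v z = s2 f u v z + s2 g u v z := by
  have hfe : ∀ᶠ w in 𝓝 z, DifferentiableAt ℝ f w :=
    ((hf.of_le (by norm_cast : (1 : ℕ∞ω) ≤ ∞)).eventually (by simp)).mono fun w hw =>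
      hw.differentiableAt (by simp)
  have hge : ∀ᶠ w in 𝓝 z, DifferentiableAt ℝ g w :=
    ((hg.of_le (by norm_cast : (1 : ℕ∞ω) ≤ ∞)).eventually (by simp)).mono fun w hw =>
      hw.differentiableAt (by simp)
  have h1 : (fun w => fderiv ℝ (fun w => f w + g w) w v) =ᶠ[𝓝 z]
      fun w => fderiv ℝ f w v + fderiv ℝ g w v := by
    filter_upwards [hfe, hge] with w h1 h2
    have : fderiv ℝ (fun w => f w + g w) w = _ := (h1.hasFDerivAt.add h2.hasFDerivAt).fderiv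
    rw [this]
    rfl
  have d1 : DifferentiableAt ℝ (fun w => fderiv ℝ f w v) z :=
    ((hf.fderiv_right (m := 1) (by norm_cast)).clm_apply contDiffAt_const).differentiableAt
      (by simp)
  have d2 : DifferentiableAt ℝ (fun w => fderiv ℝ g w v) z :=
    ((hg.fderiv_right (m := 1) (by norm_cast)).clm_apply contDiffAt_const).differentiableAt
      (by simp)
  unfold s2
  rw [h1.fderiv_eq]
  have : fderiv ℝ (fun w => fderiv ℝ f w v + fderiv ℝ g w v) z = _ :=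
    (d1.hasFDerivAt.add d2.hasFDerivAt).fderiv
  rw [this]
  rfl

/-! ### The profile -/

/-- The profile of the perturbation. -/
noncomputable def prof (a κ : ℝ) (ξ : ℂ →L[ℝ] ℝ) (b : ℂ → ℝ) (w : ℂ) : ℝ :=
  -(a * κ ^ 2) * ((1 - Real.cos (ξ w / κ)) * b w)

theorem cos_d (κ : ℝ) (ξ : ℂ →L[ℝ] ℝ) (w : ℂ) :
    HasFDerivAt (fun w => 1 - Real.cos (ξ w / κ)) ((Real.sin (ξ w / κ) / κ) • ξ) w := by
  have h1 : HasFDerivAt (fun w => ξ w / κ) (κ⁻¹ • ξ) w := by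
    have := ξ.hasFDerivAt (x := w) |>.const_mul κ⁻¹
    refine this.congr_of_eventuallyEq (Eventually.of_forall fun w => ?_)
    show ξ w / κ = κ⁻¹ * ξ w
    rw [div_eq_inv_mul]
  have h2 := (h1.cos).const_sub 1
  refine h2.congr_fderiv ?_
  ext v
  simp
  ring

theorem sin_d (κ : ℝ) (ξ : ℂ →L[ℝ] ℝ) (w : ℂ) :
    HasFDerivAt (fun w => Real.sin (ξ w / κ)) ((Real.cos (ξ w / κ) / κ) • ξ) w := by
  have h1 : HasFDerivAt (fun w => ξ w / κ) (κ⁻¹ • ξ) w := by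
    have := ξ.hasFDerivAt (x := w) |>.const_mul κ⁻¹
    refine this.congr_of_eventuallyEq (Eventually.of_forall fun w => ?_)
    show ξ w / κ = κ⁻¹ * ξ w
    rw [div_eq_inv_mul]
  have h2 := (h1.sin)
  refine h2.congr_fderiv ?_
  ext v
  simp
  ring

theorem prof_d {a κ : ℝ} {ξ : ℂ →L[ℝ] ℝ} {b : ℂ → ℝ} (hb : ContDiff ℝ ∞ b) (w v : ℂ) :
    fderiv ℝ (prof a κ ξ b) w v = -(a * κ ^ 2) * ((1 - Real.cos (ξ w / κ)) * fderiv ℝ b w v +
      (Real.sin (ξ w / κ) / κ * ξ v) * b w) := by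
  have hb1 : DifferentiableAt ℝ b w := (hb.differentiable (by simp)) w
  have h := ((cos_d κ ξ w).mul hb1.hasFDerivAt).const_mul (-(a * κ ^ 2))
  have h' : fderiv ℝ (prof a κ ξ b) w = _ := h.fderiv
  rw [h']
  simp only [smul_apply, add_apply, smul_eq_mul]
  ring

theorem prof_s2 {a κ : ℝ} {ξ : ℂ →L[ℝ] ℝ} {b : ℂ → ℝ} (hb : ContDiff ℝ ∞ b)
    (w u v : ℂ) : s2 (prof a κ ξ b) u v w = -(a * κ ^ 2) *
      ((1 - Real.cos (ξ w / κ)) * s2 b u v w + Real.sin (ξ w / κ) / κ * ξ u * fderiv ℝ b w v +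
        Real.sin (ξ w / κ) / κ * ξ v * fderiv ℝ b w u +
        Real.cos (ξ w / κ) / κ / κ * ξ u * ξ v * b w) := by
  have hb1 : DifferentiableAt ℝ b w := (hb.differentiable (by simp)) w
  have hb2 : DifferentiableAt ℝ (fun w => fderiv ℝ b w v) w :=
    ((hb.fderiv_right (m := 1) (by norm_cast)).clm_apply contDiff_const).differentiable
      (by simp) w
  have e : (fun w => fderiv ℝ (prof a κ ξ b) w v) = fun w => -(a * κ ^ 2) *
      ((1 - Real.cos (ξ w / κ)) * fderiv ℝ b w v + (Real.sin (ξ w / κ) * (ξ v / κ)) * b w) := by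
    funext w
    rw [prof_d hb]
    ring
  unfold s2
  rw [e]
  have h := ((((cos_d κ ξ w).mul hb2.hasFDerivAt).add
    (((sin_d κ ξ w).mul_const (ξ v / κ)).mul hb1.hasFDerivAt))).const_mul (-(a * κ ^ 2))
  have h' : fderiv ℝ (fun w => -(a * κ ^ 2) *
      ((1 - Real.cos (ξ w / κ)) * fderiv ℝ b w v + (Real.sin (ξ w / κ) * (ξ v / κ)) * b w)) w = _ :=
    h.fderiv
  rw [h']
  simp only [smul_apply, add_apply, smul_eq_mul]
  ring

/-- The profile lowers the second derivative in the direction `e₁` at the origin by `a`. -/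
theorem profile {a τ : ℝ} (ha : 0 < a) (hτ : 0 < τ) (ξ : ℂ →L[ℝ] ℝ) (e₁ e₂ : ℂ) (h1 : ξ e₁ = 1)
    (h2 : ξ e₂ = 0) :
    ∃ R : ℂ → ℝ, ContDiff ℝ ∞ R ∧ (∀ w : ℂ, 2 ≤ ‖w‖ → R w = 0) ∧ R 0 = 0 ∧ fderiv ℝ R 0 = 0 ∧
      s2 R e₁ e₁ 0 = -a ∧ s2 R e₂ e₂ 0 = 0 ∧ (∀ w, -a - τ ≤ s2 R e₁ e₁ w) ∧
      (∀ w, s2 R e₂ e₂ w ≤ τ) ∧ ∃ K : ℝ, ∀ w, |R w| ≤ K := by
  let b : ContDiffBump (0 : ℂ) := ⟨1, 2, one_pos, one_lt_two⟩
  have hb : ContDiff ℝ ∞ (b : ℂ → ℝ) := b.contDiff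
  have hbs : HasCompactSupport (b : ℂ → ℝ) := b.hasCompactSupport
  have c1 : ∀ v : ℂ, ∃ K, ∀ w, ‖fderiv ℝ (b : ℂ → ℝ) w v‖ ≤ K := by
    intro v
    have hc : Continuous fun w => fderiv ℝ (b : ℂ → ℝ) w v :=
      (hb.continuous_fderiv (by simp)).clm_apply continuous_const
    exact (hbs.fderiv_apply ℝ v).exists_bound_of_continuous hc
  have c2 : ∀ u v : ℂ, ∃ K, ∀ w, ‖s2 (b : ℂ → ℝ) u v w‖ ≤ K := by
    intro u v
    have h3 : ContDiff ℝ ∞ fun w => fderiv ℝ (b : ℂ → ℝ) w v :=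
      (hb.fderiv_right (by simp)).clm_apply contDiff_const
    have hc : Continuous fun w => fderiv ℝ (fun w => fderiv ℝ (b : ℂ → ℝ) w v) w u :=
      (h3.continuous_fderiv (by simp)).clm_apply continuous_const
    exact ((hbs.fderiv_apply ℝ v).fderiv_apply ℝ u).exists_bound_of_continuous hc
  obtain ⟨K1, hK1⟩ := c1 e₁
  obtain ⟨K2, hK2⟩ := c2 e₁ e₁
  obtain ⟨K3, hK3⟩ := c2 e₂ e₂
  have hK10 : 0 ≤ K1 := (norm_nonneg _).trans (hK1 0)
  have hK20 : 0 ≤ K2 := (norm_nonneg _).trans (hK2 0)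
  have hK30 : 0 ≤ K3 := (norm_nonneg _).trans (hK3 0)
  obtain ⟨κ, hκ, hκ1, hκ2⟩ : ∃ κ : ℝ, 0 < κ ∧ κ ≤ 1 ∧
      κ * (a * (2 * K1 + 2 * K2 + 2 * K3)) ≤ τ := by
    refine ⟨min 1 (τ / (a * (2 * K1 + 2 * K2 + 2 * K3) + 1)), lt_min one_pos (by positivity),
      min_le_left _ _, ?_⟩
    have h3 : min 1 (τ / (a * (2 * K1 + 2 * K2 + 2 * K3) + 1)) ≤
      τ / (a * (2 * K1 + 2 * K2 + 2 * K3) + 1) := min_le_right _ _
    have h4 := mul_le_mul_of_nonneg_right h3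
      (by positivity : 0 ≤ a * (2 * K1 + 2 * K2 + 2 * K3))
    refine h4.trans ?_
    rw [div_mul_eq_mul_div, div_le_iff₀ (by positivity)]
    nlinarith
  have hb0 : (b : ℂ → ℝ) 0 = 1 := b.one_of_mem_closedBall (mem_closedBall_self b.rIn_pos.le)
  have hbn : ∀ w, 0 ≤ (b : ℂ → ℝ) w := fun w => b.nonneg
  have hbl : ∀ w, (b : ℂ → ℝ) w ≤ 1 := fun w => b.le_one
  have hsq : κ ^ 2 ≤ κ := by nlinarith
  have habs : ∀ w, |1 - Real.cos (ξ w / κ)| ≤ 2 := fun w => by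
    rw [abs_le]
    constructor <;> linarith [Real.cos_le_one (ξ w / κ), Real.neg_one_le_cos (ξ w / κ)]
  refine ⟨prof a κ ξ b, ?_, ?_, ?_, ?_, ?_, ?_, ?_, ?_, 2 * (a * κ ^ 2), ?_⟩
  · unfold prof
    exact contDiff_const.mul ((contDiff_const.sub
      (Real.contDiff_cos.comp (ξ.contDiff.div_const κ))).mul hb)
  · intro w hw
    unfold prof
    rw [b.zero_of_le_dist (by rw [dist_zero_right]; exact hw), mul_zero, mul_zero]
  · unfold prof
    simp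
  · ext v
    rw [prof_d hb]
    simp
  · rw [prof_s2 hb, h1, hb0]
    simp
    field_simp
  · rw [prof_s2 hb, h2]
    simp
  · intro w
    rw [prof_s2 hb, h1]
    have e : -(a * κ ^ 2) * ((1 - Real.cos (ξ w / κ)) * s2 (b : ℂ → ℝ) e₁ e₁ w +
        Real.sin (ξ w / κ) / κ * 1 * fderiv ℝ (b : ℂ → ℝ) w e₁ +
        Real.sin (ξ w / κ) / κ * 1 * fderiv ℝ (b : ℂ → ℝ) w e₁ +
        Real.cos (ξ w / κ) / κ / κ * 1 * 1 * (b : ℂ → ℝ) w) =
        -(a * κ ^ 2 * ((1 - Real.cos (ξ w / κ)) * s2 (b : ℂ → ℝ) e₁ e₁ w)) -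
          a * κ * (2 * (Real.sin (ξ w / κ) * fderiv ℝ (b : ℂ → ℝ) w e₁)) -
          a * (Real.cos (ξ w / κ) * (b : ℂ → ℝ) w) := by
      field_simp
      ring
    rw [e]
    have a1 : (1 - Real.cos (ξ w / κ)) * s2 (b : ℂ → ℝ) e₁ e₁ w ≤ 2 * K2 := by
      refine (le_abs_self _).trans ?_
      rw [abs_mul]
      exact mul_le_mul (habs w) (hK2 w) (abs_nonneg _) (by norm_num)
    have a2 : Real.sin (ξ w / κ) * fderiv ℝ (b : ℂ → ℝ) w e₁ ≤ K1 := by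
      refine (le_abs_self _).trans ?_
      rw [abs_mul]
      calc |Real.sin (ξ w / κ)| * |fderiv ℝ (b : ℂ → ℝ) w e₁| ≤ 1 * K1 :=
            mul_le_mul (Real.abs_sin_le_one _) (hK1 w) (abs_nonneg _) (by norm_num)
        _ = K1 := one_mul _
    have a3 : Real.cos (ξ w / κ) * (b : ℂ → ℝ) w ≤ 1 := by
      have := Real.cos_le_one (ξ w / κ)
      nlinarith [hbn w, hbl w]
    have a4 : a * κ ^ 2 * ((1 - Real.cos (ξ w / κ)) * s2 (b : ℂ → ℝ) e₁ e₁ w) ≤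
        a * κ * (2 * K2) := by
      calc a * κ ^ 2 * ((1 - Real.cos (ξ w / κ)) * s2 (b : ℂ → ℝ) e₁ e₁ w)
          ≤ a * κ ^ 2 * (2 * K2) := mul_le_mul_of_nonneg_left a1 (by positivity)
        _ ≤ a * κ * (2 * K2) := by
            refine mul_le_mul_of_nonneg_right ?_ (by positivity)
            exact mul_le_mul_of_nonneg_left hsq ha.le
    have a5 : a * κ * (2 * (Real.sin (ξ w / κ) * fderiv ℝ (b : ℂ → ℝ) w e₁)) ≤
        a * κ * (2 * K1) := mul_le_mul_of_nonneg_left (by linarith) (by positivity)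
    have a6 : a * (Real.cos (ξ w / κ) * (b : ℂ → ℝ) w) ≤ a * 1 :=
      mul_le_mul_of_nonneg_left a3 ha.le
    have a7 : 0 ≤ κ * (a * (2 * K3)) := by positivity
    nlinarith
  · intro w
    rw [prof_s2 hb, h2]
    have e : -(a * κ ^ 2) * ((1 - Real.cos (ξ w / κ)) * s2 (b : ℂ → ℝ) e₂ e₂ w +
        Real.sin (ξ w / κ) / κ * 0 * fderiv ℝ (b : ℂ → ℝ) w e₂ +
        Real.sin (ξ w / κ) / κ * 0 * fderiv ℝ (b : ℂ → ℝ) w e₂ +
        Real.cos (ξ w / κ) / κ / κ * 0 * 0 * (b : ℂ → ℝ) w) =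
        a * κ ^ 2 * (-((1 - Real.cos (ξ w / κ)) * s2 (b : ℂ → ℝ) e₂ e₂ w)) := by
      ring
    rw [e]
    have a1 : -((1 - Real.cos (ξ w / κ)) * s2 (b : ℂ → ℝ) e₂ e₂ w) ≤ 2 * K3 := by
      refine (neg_le_abs _).trans ?_
      rw [abs_mul]
      exact mul_le_mul (habs w) (hK3 w) (abs_nonneg _) (by norm_num)
    have a4 : a * κ ^ 2 * (-((1 - Real.cos (ξ w / κ)) * s2 (b : ℂ → ℝ) e₂ e₂ w)) ≤
        a * κ * (2 * K3) := by
      calc a * κ ^ 2 * (-((1 - Real.cos (ξ w / κ)) * s2 (b : ℂ → ℝ) e₂ e₂ w))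
          ≤ a * κ ^ 2 * (2 * K3) := mul_le_mul_of_nonneg_left a1 (by positivity)
        _ ≤ a * κ * (2 * K3) := by
            refine mul_le_mul_of_nonneg_right ?_ (by positivity)
            exact mul_le_mul_of_nonneg_left hsq ha.le
    have a7 : 0 ≤ κ * (a * (2 * K1 + 2 * K2)) := by positivity
    nlinarith
  · intro w
    unfold prof
    rw [abs_mul, abs_neg, abs_of_pos (by positivity : 0 < a * κ ^ 2), abs_mul,
      abs_of_nonneg (hbn w)]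
    have h3 : |1 - Real.cos (ξ w / κ)| * (b : ℂ → ℝ) w ≤ 2 * 1 :=
      mul_le_mul (habs w) (hbl w) (hbn w) (by norm_num)
    have h4 : 0 < a * κ ^ 2 := by positivity
    nlinarith

/-! ### Rescaling -/

theorem resc {R : ℂ → ℝ} (hR : ContDiff ℝ ∞ R) {ε : ℝ} (hε : ε ≠ 0) (z₀ z : ℂ) :
    (∀ v, fderiv ℝ (fun w => ε ^ 2 * R (ε⁻¹ • (w - z₀))) z v =
      ε * fderiv ℝ R (ε⁻¹ • (z - z₀)) v) ∧
    ∀ u v, s2 (fun w => ε ^ 2 * R (ε⁻¹ • (w - z₀))) u v z = s2 R u v (ε⁻¹ • (z - z₀)) := by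
  have hl : ∀ z : ℂ, HasFDerivAt (fun w : ℂ => ε⁻¹ • (w - z₀))
      (ε⁻¹ • ContinuousLinearMap.id ℝ ℂ) z := fun z =>
    ((hasFDerivAt_id z).sub_const z₀).const_smul ε⁻¹
  have h1 : ∀ z v, fderiv ℝ (fun w => ε ^ 2 * R (ε⁻¹ • (w - z₀))) z v =
      ε * fderiv ℝ R (ε⁻¹ • (z - z₀)) v := by
    intro z v
    have hd : HasFDerivAt R (fderiv ℝ R (ε⁻¹ • (z - z₀))) (ε⁻¹ • (z - z₀)) :=
      ((hR.differentiable (by simp)) _).hasFDerivAt
    have h := (HasFDerivAt.comp z hd (hl z)).const_mul (ε ^ 2)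
    have h' : fderiv ℝ (fun w => ε ^ 2 * R (ε⁻¹ • (w - z₀))) z = _ := h.fderiv
    rw [h']
    simp only [smul_apply, ContinuousLinearMap.comp_apply, ContinuousLinearMap.id_apply,
      smul_eq_mul, map_smul]
    field_simp
  refine ⟨h1 z, fun u v => ?_⟩
  unfold s2
  have e : (fun w => fderiv ℝ (fun w => ε ^ 2 * R (ε⁻¹ • (w - z₀))) w v) =
      fun w => ε * fderiv ℝ R (ε⁻¹ • (w - z₀)) v := by
    funext w
    exact h1 w v
  rw [e]
  have hd2 : Differentiable ℝ (fun w => fderiv ℝ R w v) :=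
    ((hR.fderiv_right (m := 1) (by norm_cast)).clm_apply contDiff_const).differentiable (by simp)
  have hd : HasFDerivAt (fun w => fderiv ℝ R w v)
      (fderiv ℝ (fun w => fderiv ℝ R w v) (ε⁻¹ • (z - z₀))) (ε⁻¹ • (z - z₀)) :=
    (hd2 _).hasFDerivAt
  have h := (HasFDerivAt.comp z hd (hl z)).const_mul ε
  have h' : fderiv ℝ (fun w => ε * fderiv ℝ R (ε⁻¹ • (w - z₀)) v) z = _ := h.fderiv
  rw [h']
  simp only [smul_apply, ContinuousLinearMap.comp_apply, ContinuousLinearMap.id_apply,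
    smul_eq_mul, map_smul]
  field_simp

end Pool.Agent.U987.RH
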