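import Mathlib
import Pool.Agent.N503.WI
import Pool.Agent.N15.RC.Lift
import Pool.Agent.U987.RH.Sq

/-!
A direction close to the vertical one without lower caps.
-/

set_option autoImplicit false

namespace Pool.Agent.U987.RH

open scoped ContDiff RealInnerProductSpace ENNReal NNReal Topology
open MeasureTheory Set Metric Filter
open Pool.Agent.Y503.RB (d1 d2 fff sff fffDet nor Frame zc mk4)
open Pool.Agent.N503.ML Pool.Agent.N15.RC Pool.Agent.N503.WI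

theorem htr_eq (φ : ℂ → E4) (z : ℂ) : htr φ z = halfTrace φ z := rfl

/-- The mean curvature in a normal direction. -/
theorem mean_le {φ : ℂ → E4} {z : ℂ} (h : hypMean φ z ≤ 1) {n : E4} (hn : ‖n‖ = 1)
    (hno : ∀ v : ℂ, ⟪n, d1 φ v z⟫ = 0) : φ z 3 * ⟪meanCurv φ z, n⟫ + n 3 ≤ 1 := by
  have hmem : n ∈ (LinearMap.range (fderiv ℝ φ z).toLinearMap)ᗮ := by
    rw [Submodule.mem_orthogonal]
    rintro x ⟨v, rfl⟩
    rw [real_inner_comm]
    exact hno v
  have h1 : ⟪(LinearMap.range (fderiv ℝ φ z).toLinearMap)ᗮ.starProjection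
      (φ z 3 • htr φ z + up), n⟫ ≤ 1 := by
    refine (real_inner_le_norm _ _).trans ?_
    rw [hn, mul_one]
    exact h
  have h2 : (LinearMap.range (fderiv ℝ φ z).toLinearMap)ᗮ.starProjection
      (φ z 3 • htr φ z + up) = φ z 3 • meanCurv φ z +
        (LinearMap.range (fderiv ℝ φ z).toLinearMap)ᗮ.starProjection up := by
    rw [map_add, map_smul]
    rfl
  rw [h2, inner_add_left, real_inner_smul_left, Submodule.inner_starProjection_left_eq_right,
    Submodule.starProjection_eq_self_iff.2 hmem, inner_up] at h1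
  exact h1

/-- The density of the lower caps is small for almost vertical normal vectors. -/
theorem dens_small {φ : ℂ → E4} {z : ℂ} (hi : Function.Injective (fderiv ℝ φ z))
    (h : hypMean φ z ≤ 1) (h3 : 0 < φ z 3) {n : E4} (hn : ‖n‖ = 1)
    (hno : ∀ v : ℂ, ⟪n, d1 φ v z⟫ = 0) (hc : Cup φ n z) :
    |kdet φ n z| / √(fffDet φ z) ≤ ((1 - n 3) / φ z 3) ^ 2 * √(fffDet φ z) := by
  have h1 := dens_bound hi hno
  have h2 := inner_pos hi hno hc.2.1 hc.2.2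
  have h4 := mean_le h hn hno
  rw [abs_of_pos hc.2.2]
  refine h1.trans (mul_le_mul_of_nonneg_right ?_ (Real.sqrt_nonneg _))
  refine pow_le_pow_left₀ h2.le ?_ 2
  rw [le_div_iff₀ h3]
  linarith

/-- Volume of a box. -/
theorem vol_box (a b : Fin 4 → ℝ) :
    volume {y : E4 | ∀ i, y i ∈ Ioo (a i) (b i)} = ∏ i, ENNReal.ofReal (b i - a i) := by
  rw [← Real.volume_pi_Ioo (a := a) (b := b)]
  have hmp := EuclideanSpace.volume_preserving_symm_measurableEquiv_toLp (Fin 4)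
  rw [← hmp.measure_preimage (MeasurableSet.univ_pi fun i => measurableSet_Ioo).nullMeasurableSet]
  congr 1
  ext y
  simp [Set.mem_pi]

/-- The box around a part of the vertical axis. -/
def box (ε : ℝ) : Set E4 := {y | ∀ i, y i ∈ Ioo ((![-(ε / 8), -(ε / 8), -(ε / 8), 1 / 4] : Fin 4 → ℝ) i)
  ((![ε / 8, ε / 8, ε / 8, 1 / 2] : Fin 4 → ℝ) i)}

theorem vol_box' {ε : ℝ} (hε : 0 < ε) : volume (box ε) = ENNReal.ofReal (ε ^ 3 / 256) := by
  unfold box
  rw [vol_box, Fin.prod_univ_four]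
  simp only [Matrix.cons_val_zero, Matrix.cons_val_one, Matrix.cons_val]
  rw [← ENNReal.ofReal_mul (by linarith), ← ENNReal.ofReal_mul (by
    have : 0 ≤ ε / 8 - -(ε / 8) := by linarith
    positivity), ← ENNReal.ofReal_mul (by
    have : 0 ≤ ε / 8 - -(ε / 8) := by linarith
    positivity)]
  congr 1
  ring

theorem box_facts {ε : ℝ} (hε1 : ε < 1) {y : E4} (hy : y ∈ box ε) :
    1 / 4 < y 3 ∧ y 3 < 1 / 2 ∧ (∀ i, i ≠ 3 → |y i| < ε / 8) ∧ ‖y‖ < 1 ∧ 0 < ‖y‖ ∧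
      1 - (‖y‖⁻¹ • y) 3 ≤ ε ^ 2 := by
  have h0 := hy 0
  have h1 := hy 1
  have h2 := hy 2
  have h3 := hy 3
  simp only [Matrix.cons_val_zero, Matrix.cons_val_one, Matrix.cons_val, mem_Ioo] at h0 h1 h2 h3
  have a0 : |y 0| < ε / 8 := abs_lt.2 h0
  have a1 : |y 1| < ε / 8 := abs_lt.2 h1
  have a2 : |y 2| < ε / 8 := abs_lt.2 h2
  have b0 : y 0 ^ 2 < (ε / 8) ^ 2 := sq_lt_sq' h0.1 h0.2
  have b1 : y 1 ^ 2 < (ε / 8) ^ 2 := sq_lt_sq' h1.1 h1.2
  have b2 : y 2 ^ 2 < (ε / 8) ^ 2 := sq_lt_sq' h2.1 h2.2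
  have hε0 : 0 < ε := by linarith
  have hn : ‖y‖ ^ 2 = y 0 ^ 2 + y 1 ^ 2 + y 2 ^ 2 + y 3 ^ 2 := by
    rw [EuclideanSpace.norm_sq_eq, Fin.sum_univ_four]
    simp only [Real.norm_eq_abs, sq_abs]
  have hny : y 3 ≤ ‖y‖ := by
    have : y 3 ^ 2 ≤ ‖y‖ ^ 2 := by
      rw [hn]; nlinarith [sq_nonneg (y 0), sq_nonneg (y 1), sq_nonneg (y 2)]
    exact le_of_sq_le_sq this (norm_nonneg _)
  have hpos : 0 < ‖y‖ := by linarith [h3.1]
  refine ⟨h3.1, h3.2, ?_, ?_, hpos, ?_⟩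
  · intro i hi
    fin_cases i
    · exact a0
    · exact a1
    · exact a2
    · exact absurd rfl hi
  · have : ‖y‖ ^ 2 < 1 := by
      rw [hn]
      have c3 : y 3 ^ 2 < 1 / 4 := by nlinarith [h3.1, h3.2]
      have c4 : (ε / 8) ^ 2 < 1 / 64 := by nlinarith
      linarith
    nlinarith [norm_nonneg y]
  · have e : (‖y‖⁻¹ • y) 3 = ‖y‖⁻¹ * y 3 := rfl
    rw [e]
    have h5 : 1 - ‖y‖⁻¹ * y 3 = (‖y‖ - y 3) / ‖y‖ := by field_simp
    rw [h5, div_le_iff₀ hpos]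
    have h6 : (‖y‖ - y 3) * (‖y‖ + y 3) = y 0 ^ 2 + y 1 ^ 2 + y 2 ^ 2 := by
      have : (‖y‖ - y 3) * (‖y‖ + y 3) = ‖y‖ ^ 2 - y 3 ^ 2 := by ring
      rw [this, hn]; ring
    have h7 : 0 ≤ ‖y‖ - y 3 := by linarith
    have h8 : (‖y‖ - y 3) * (1 / 2) ≤ (‖y‖ - y 3) * (‖y‖ + y 3) :=
      mul_le_mul_of_nonneg_left (by linarith [h3.1]) h7
    have h9 : ε ^ 2 * (1 / 4) ≤ ε ^ 2 * ‖y‖ :=
      mul_le_mul_of_nonneg_left (by linarith [h3.1]) (sq_nonneg _)
    nlinarith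

theorem continuousOn_det {N₁ N₂ : ℂ → E4} {φ : ℂ → E4} {U : Set ℂ} (hP : IPatch φ U)
    (hF : Frame φ N₁ N₂ U) :
    ContinuousOn (fun x => (fderiv ℝ (cE N₁ N₂) x).det) {x : E4 | zc x ∈ U} := by
  have ho : IsOpen {x : E4 | zc x ∈ U} := by
    have : Continuous (fun x : E4 => zc x) :=
      continuous_snd.comp Pool.Agent.Y503.RB.continuous_coord
    exact hP.isOpen.preimage this
  have hs : ContDiffOn ℝ ∞ (cE N₁ N₂) {x : E4 | zc x ∈ U} := fun x hx =>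
    ((cE_det hP hF hx).1).contDiffWithinAt
  exact ContinuousLinearMap.continuous_det.comp_continuousOn
    (hs.continuousOn_fderiv_of_isOpen ho (by simp))

/-- The image of the points with small Jacobian. -/
theorem image_small {N₁ N₂ : ℂ → E4} {φ : ℂ → E4} {U : Set ℂ} (hP : IPatch φ U)
    (hF : Frame φ N₁ N₂ U) (κ : ℝ) :
    volume (cE N₁ N₂ '' {x : E4 | (zc x ∈ U ∧ ‖x‖ ≤ 10) ∧ |(fderiv ℝ (cE N₁ N₂) x).det| ≤ κ}) ≤
      ENNReal.ofReal κ * volume (closedBall (0 : E4) 10) := by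
  have ho : IsOpen {x : E4 | zc x ∈ U} := by
    have : Continuous (fun x : E4 => zc x) :=
      continuous_snd.comp Pool.Agent.Y503.RB.continuous_coord
    exact hP.isOpen.preimage this
  set S : Set E4 := {x : E4 | (zc x ∈ U ∧ ‖x‖ ≤ 10) ∧ |(fderiv ℝ (cE N₁ N₂) x).det| ≤ κ} with hS
  have hbad : IsOpen ({x : E4 | zc x ∈ U} ∩
      (fun x => |(fderiv ℝ (cE N₁ N₂) x).det|) ⁻¹' Ioi κ) :=
    (continuousOn_det hP hF).abs.isOpen_inter_preimage ho isOpen_Ioi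
  have hSm : MeasurableSet S := by
    have e : S = ({x : E4 | zc x ∈ U} ∩ closedBall 0 10) \ ({x : E4 | zc x ∈ U} ∩
        (fun x => |(fderiv ℝ (cE N₁ N₂) x).det|) ⁻¹' Ioi κ) := by
      ext x
      simp only [hS, mem_ofPred_eq, Set.mem_sdiff, mem_inter_iff, mem_closedBall_zero_iff, mem_preimage,
        mem_Ioi, not_and, not_lt]
      tauto
    rw [e]
    exact (ho.measurableSet.inter isClosed_closedBall.measurableSet).diff hbad.measurableSet
  have hd : ∀ x ∈ S, HasFDerivWithinAt (cE N₁ N₂) (fderiv ℝ (cE N₁ N₂) x) S x := fun x hx =>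
    (((cE_det hP hF hx.1.1).1.differentiableAt (by simp)).hasFDerivAt).hasFDerivWithinAt
  refine (addHaar_image_le_lintegral_abs_det_fderiv volume hSm hd).trans ?_
  calc ∫⁻ x in S, ENNReal.ofReal |(fderiv ℝ (cE N₁ N₂) x).det|
      ≤ ∫⁻ _ in S, ENNReal.ofReal κ :=
        setLIntegral_mono' hSm fun x hx => ENNReal.ofReal_le_ofReal hx.2
    _ = ENNReal.ofReal κ * volume S := by rw [setLIntegral_const]
    _ ≤ _ := by
        refine mul_le_mul_right (measure_mono fun x hx => ?_) _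
        exact mem_closedBall_zero_iff.2 hx.1.2

/-- **A good direction**, arbitrarily close to the vertical one. -/
theorem good_dir {φ : ℂ → E4} (hP : IPatch φ (ball 0 1))
    (hH : ∀ z ∈ ball (0 : ℂ) 1, hypMean φ z ≤ 1) (h3 : ∀ z ∈ ball (0 : ℂ) 1, 0 < φ z 3)
    {r : ℝ} (hr : r < 1) {η : ℝ} (hη : 0 < η) :
    ∃ y : E4, y 3 = 1 ∧ ‖y - vert‖ < η ∧
      (∀ z ∈ ball (0 : ℂ) 1, (∀ v : ℂ, ⟪y, d1 φ v z⟫ = 0) → kdet φ y z ≠ 0) ∧
      ∀ z ∈ closedBall (0 : ℂ) r, ¬ CritCap (opp φ) y z := by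
  have hsub : closedBall (0 : ℂ) r ⊆ ball 0 1 := closedBall_subset_ball hr
  obtain ⟨N₁, N₂, V, hV, hcov⟩ := framed_cover hP
  obtain ⟨Z, hZ, hZ2⟩ := sard hP
  have hPj : ∀ j, IPatch φ (V j) := fun j =>
    ⟨(hV j).1, hP.smooth.mono (hV j).2.2, fun z hz => hP.imm z ((hV j).2.2 hz)⟩
  obtain ⟨J, hJ⟩ := (isCompact_closedBall (0 : ℂ) r).elim_finite_subcover V (fun j => (hV j).1)
    (hsub.trans hcov)
  -- constants
  obtain ⟨t₀, ht₀, ht⟩ := (isCompact_closedBall (0 : ℂ) r).exists_forall_le'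
    (f := fun z => φ z 3) ((EuclideanSpace.proj (3 : Fin 4) : E4 →L[ℝ] ℝ).continuous.comp_continuousOn
      (hP.smooth.continuousOn.mono hsub)) (a := 0) (fun z hz => h3 z (hsub hz))
  obtain ⟨M, hM⟩ := (isCompact_closedBall (0 : ℂ) r).exists_bound_of_continuousOn
    (f := fun z => √(fffDet φ z)) ((c_fffDet hP).mono hsub).sqrt
  set M' : ℝ := max M 1 with hM'
  have hM'0 : 0 < M' := lt_of_lt_of_le one_pos (le_max_right _ _)
  obtain ⟨k, hk0, hk⟩ : ∃ k : ℝ, 0 ≤ k ∧ volume (closedBall (0 : E4) 10) = ENNReal.ofReal k :=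
    ⟨(volume (closedBall (0 : E4) 10)).toReal, ENNReal.toReal_nonneg,
      (ENNReal.ofReal_toReal measure_closedBall_lt_top.ne).symm⟩
  set C : ℝ := J.card * (M' / t₀ ^ 2) * k with hC
  have hC0 : 0 ≤ C := by positivity
  obtain ⟨ε, hε, hε1, hεη, hεC⟩ : ∃ ε : ℝ, 0 < ε ∧ ε < 1 ∧ ε < η ∧ C * ε < 1 / 256 := by
    refine ⟨min (min (1 / 2) (η / 2)) (1 / (512 * (C + 1))), ?_, ?_, ?_, ?_⟩
    · exact lt_min (lt_min (by norm_num) (by linarith)) (by positivity)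
    · exact ((min_le_left _ _).trans (min_le_left _ _)).trans_lt (by norm_num)
    · exact ((min_le_left _ _).trans (min_le_right _ _)).trans_lt (by linarith)
    · have h1 : min (min (1 / 2) (η / 2)) (1 / (512 * (C + 1))) ≤ 1 / (512 * (C + 1)) :=
        min_le_right _ _
      have h2 : C * min (min (1 / 2) (η / 2)) (1 / (512 * (C + 1))) ≤
          C * (1 / (512 * (C + 1))) := mul_le_mul_of_nonneg_left h1 hC0
      have h3 : C * (1 / (512 * (C + 1))) ≤ 1 / 512 := by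
        rw [mul_one_div, div_le_div_iff₀ (by positivity) (by norm_num)]
        linarith
      linarith
  set κ : ℝ := ε ^ 4 * (M' / t₀ ^ 2) with hκ
  have hκ0 : 0 ≤ κ := by positivity
  let S : ℕ → Set E4 := fun j => {x : E4 | (zc x ∈ V j ∧ ‖x‖ ≤ 10) ∧
    |(fderiv ℝ (cE (N₁ j) (N₂ j)) x).det| ≤ κ}
  -- the bad set is small
  have hbad : volume ((⋃ j ∈ J, cE (N₁ j) (N₂ j) '' S j) ∪ Z) < volume (box ε) := by
    have h1 : volume (⋃ j ∈ J, cE (N₁ j) (N₂ j) '' S j) ≤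
        ∑ j ∈ J, ENNReal.ofReal κ * volume (closedBall (0 : E4) 10) :=
      (measure_biUnion_finset_le _ _).trans (Finset.sum_le_sum fun j _ =>
        image_small (hPj j) (hV j).2.1 κ)
    rw [Finset.sum_const, nsmul_eq_mul, hk, ← ENNReal.ofReal_mul hκ0, ← ENNReal.ofReal_natCast,
      ← ENNReal.ofReal_mul (by positivity)] at h1
    refine (measure_union_le _ _).trans_lt ?_
    rw [hZ, add_zero]
    refine h1.trans_lt ?_
    rw [vol_box' hε]
    refine (ENNReal.ofReal_lt_ofReal_iff (by positivity)).2 ?_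
    have h2 : (J.card : ℝ) * (κ * k) = ε ^ 3 * (C * ε) := by
      rw [hκ, hC]; ring
    rw [h2]
    have h4 : 0 < ε ^ 3 := by positivity
    nlinarith
  obtain ⟨y, hyB, hyN⟩ : ∃ y ∈ box ε, y ∉ (⋃ j ∈ J, cE (N₁ j) (N₂ j) '' S j) ∪ Z := by
    by_contra hcon
    push Not at hcon
    exact absurd (measure_mono (μ := volume) hcon) (not_le.2 hbad)
  rw [mem_union, not_or] at hyN
  obtain ⟨b1, b2, b3, b4, b5, b6⟩ := box_facts hε1 hyB
  have hy3 : 0 < (y 3)⁻¹ := inv_pos.2 (by linarith)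
  refine ⟨(y 3)⁻¹ • y, ?_, ?_, ?_, ?_⟩
  · show (y 3)⁻¹ * y 3 = 1
    exact inv_mul_cancel₀ (by linarith)
  · have hv : ∀ i, i ≠ 3 → (vert : E4) i = 0 := by
      intro i hi
      unfold vert
      simp [hi]
    have hlt : ∀ i, i ≠ 3 → ((y 3)⁻¹ • y - vert) i ^ 2 ≤ (ε / 2) ^ 2 := by
      intro i hi
      have e : ((y 3)⁻¹ • y - vert) i = (y 3)⁻¹ * y i - (vert : E4) i := rfl
      rw [e, hv i hi, sub_zero, mul_pow, ← sq_abs (y i)]
      have h1 := b3 i hi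
      have h2 : (y 3)⁻¹ ≤ 4 := by
        rw [inv_le_comm₀ (by linarith) (by norm_num)]
        linarith
      have h5 : (y 3)⁻¹ * |y i| ≤ ε / 2 := by
        calc (y 3)⁻¹ * |y i| ≤ 4 * (ε / 8) :=
              mul_le_mul h2 h1.le (abs_nonneg _) (by norm_num)
          _ = ε / 2 := by ring
      rw [← mul_pow]
      exact pow_le_pow_left₀ (by positivity) h5 2
    have e3 : ((y 3)⁻¹ • y - vert) 3 = 0 := by
      have e : ((y 3)⁻¹ • y - vert) 3 = (y 3)⁻¹ * y 3 - (vert : E4) 3 := rfl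
      rw [e, vert_three, inv_mul_cancel₀ (by linarith), sub_self]
    have hsq : ‖(y 3)⁻¹ • y - vert‖ ^ 2 < ε ^ 2 := by
      rw [EuclideanSpace.norm_sq_eq, Fin.sum_univ_four]
      simp only [Real.norm_eq_abs, sq_abs]
      rw [e3]
      have c0 := hlt 0 (by decide)
      have c1 := hlt 1 (by decide)
      have c2 := hlt 2 (by decide)
      have : 0 < ε ^ 2 := by positivity
      nlinarith
    exact (lt_of_pow_lt_pow_left₀ 2 hε.le hsq).trans hεη
  · intro z hz hv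
    rw [kdet_smul]
    refine mul_ne_zero (by positivity) (hZ2 y hyN.2 ?_ z hz fun v => ?_)
    · rintro rfl
      simp at b5
    · have := hv v
      rw [real_inner_smul_left] at this
      exact (mul_eq_zero.1 this).resolve_left hy3.ne'
  · intro z hz hc
    rw [critCap_smul hy3] at hc
    apply hyN.1
    have hzb := hsub hz
    obtain ⟨j, hjJ, hzj⟩ : ∃ j ∈ J, z ∈ V j := by
      have := hJ hz
      simpa using this
    have hc1 : ∀ v : ℂ, ⟪y, d1 φ v z⟫ = 0 := by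
      intro v
      have := hc.1 v
      rw [d1_opp, inner_neg_right, neg_eq_zero] at this
      exact this
    have hc2 : Cup φ y z := (cap_opp φ y z).1 hc.2
    have hyr : ‖y‖ • (‖y‖⁻¹ • y) = y := by
      rw [smul_smul, mul_inv_cancel₀ b5.ne', one_smul]
    have hn1 : ‖‖y‖⁻¹ • y‖ = 1 := by
      rw [norm_smul, norm_inv, norm_norm, inv_mul_cancel₀ b5.ne']
    have hno : ∀ v : ℂ, ⟪‖y‖⁻¹ • y, d1 φ v z⟫ = 0 := fun v => by
      rw [real_inner_smul_left, hc1, mul_zero]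
    have hcn : Cup φ (‖y‖⁻¹ • y) z := by
      have := (critCap_smul (φ := opp φ) (z := z) (n := y) (inv_pos.2 b5)).2 hc
      exact (cap_opp φ _ z).1 this.2
    obtain ⟨θ, hθ, hn⟩ := frame_unit (hPj j) (hV j).2.1 hzj hn1 hno
    refine mem_iUnion₂.2 ⟨j, hjJ, mk4 z θ ‖y‖, ⟨⟨?_, ?_⟩, ?_⟩, ?_⟩
    · rw [Pool.Agent.Y503.RB.mk4_zc]; exact hzj
    · have h1 : ‖mk4 z θ ‖y‖‖ ^ 2 = z.re ^ 2 + z.im ^ 2 + θ ^ 2 + ‖y‖ ^ 2 := by
        rw [EuclideanSpace.norm_sq_eq, Fin.sum_univ_four]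
        simp [mk4]
      have h2 : z.re ^ 2 + z.im ^ 2 = ‖z‖ ^ 2 := by
        rw [← Complex.normSq_eq_norm_sq, Complex.normSq_apply]; ring
      have h4 : ‖z‖ < 1 := mem_ball_zero_iff.1 hzb
      have h5 : θ < 8 := by have := Real.pi_lt_four; linarith [hθ.2]
      have h6 : ‖mk4 z θ ‖y‖‖ ^ 2 ≤ 10 ^ 2 := by
        rw [h1, h2]
        nlinarith [norm_nonneg z, hθ.1]
      exact le_of_sq_le_sq h6 (by norm_num)
    · have h1 := (cE_det (hPj j) (hV j).2.1 (x := mk4 z θ ‖y‖) (by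
        rw [Pool.Agent.Y503.RB.mk4_zc]; exact hzj)).2
      rw [h1, Pool.Agent.Y503.RB.mk4_zc, Pool.Agent.Y503.RB.mk4_two,
        Pool.Agent.Y503.RB.mk4_three, ← hn]
      have h2 := dens_small (hP.imm z hzb) (hH z hzb) (h3 z hzb) hn1 hno hcn
      have h4 : |‖y‖| ^ 3 ≤ 1 := by
        rw [abs_norm]
        exact pow_le_one₀ (norm_nonneg _) b4.le
      have h5 : 0 ≤ |kdet φ (‖y‖⁻¹ • y) z| / √(fffDet φ z) := by positivity
      have h6 : ((1 - (‖y‖⁻¹ • y) 3) / φ z 3) ^ 2 ≤ (ε ^ 2 / t₀) ^ 2 := by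
        have hle : (‖y‖⁻¹ • y) 3 ≤ 1 := by
          have e : (‖y‖⁻¹ • y) 3 = ‖y‖⁻¹ * y 3 := rfl
          have hny : y 3 ≤ ‖y‖ := by
            have := (PiLp.norm_apply_le y 3)
            exact (le_abs_self _).trans this
          rw [e, inv_mul_le_one₀ b5]
          exact hny
        refine pow_le_pow_left₀ (div_nonneg (by linarith) (h3 z hzb).le) ?_ 2
        exact div_le_div₀ (by positivity) b6 ht₀ (ht z hz)
      have h7 : √(fffDet φ z) ≤ M' := by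
        have := hM z hz
        rw [Real.norm_eq_abs] at this
        exact (le_abs_self _).trans (this.trans (le_max_left _ _))
      calc |‖y‖| ^ 3 * (|kdet φ (‖y‖⁻¹ • y) z| / √(fffDet φ z))
          ≤ 1 * (|kdet φ (‖y‖⁻¹ • y) z| / √(fffDet φ z)) := mul_le_mul_of_nonneg_right h4 h5
        _ ≤ (ε ^ 2 / t₀) ^ 2 * M' := by
            rw [one_mul]
            exact h2.trans (mul_le_mul h6 h7 (Real.sqrt_nonneg _) (by positivity))
        _ = κ := by rw [hκ]; ring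
    · unfold cE
      rw [Pool.Agent.Y503.RB.mk4_zc, Pool.Agent.Y503.RB.mk4_two,
        Pool.Agent.Y503.RB.mk4_three, ← hn, hyr]

end Pool.Agent.U987.RH
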