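import Mathlib
import Pool.Agent.U987.RH.Def

/-!
The projection onto the normal space and discrete parallel transport of normal vectors.
-/

set_option autoImplicit false

namespace Pool.Agent.U987.RH

open scoped ContDiff RealInnerProductSpace Topology
open Set Metric Filter

/-- The Gram operator `AᵀA`. -/
noncomputable def gram (A : ℂ →L[ℝ] E4) : ℂ →L[ℝ] ℂ := (ContinuousLinearMap.adjoint A).comp A

/-- The pseudo-inverse `(AᵀA)⁻¹Aᵀ`. -/
noncomputable def pinv (A : ℂ →L[ℝ] E4) : E4 →L[ℝ] ℂ :=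
  (Ring.inverse (gram A)).comp (ContinuousLinearMap.adjoint A)

/-- The projection onto the orthogonal complement of the range. -/
noncomputable def nrm (A : ℂ →L[ℝ] E4) : E4 →L[ℝ] E4 :=
  ContinuousLinearMap.id ℝ E4 - A.comp (pinv A)

theorem gram_inner (A : ℂ →L[ℝ] E4) (u : ℂ) : ⟪gram A u, u⟫ = ‖A u‖ ^ 2 := by
  unfold gram
  rw [ContinuousLinearMap.comp_apply, ContinuousLinearMap.adjoint_inner_left,
    real_inner_self_eq_norm_sq]

theorem gram_unit {A : ℂ →L[ℝ] E4} (hA : Function.Injective A) : IsUnit (gram A) := by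
  rw [ContinuousLinearMap.isUnit_iff_isUnit_toLinearMap, LinearMap.isUnit_iff_ker_eq_bot,
    LinearMap.ker_eq_bot']
  intro u hu
  have h1 : ‖A u‖ ^ 2 = 0 := by
    rw [← gram_inner]
    have : gram A u = 0 := hu
    rw [this, inner_zero_left]
  have h2 : A u = 0 := by simpa using h1
  exact hA (by rw [h2, map_zero])

theorem gram_contDiff : ContDiff ℝ ∞ gram := by
  unfold gram
  have h1 : ContDiff ℝ ∞ fun A : ℂ →L[ℝ] E4 => ContinuousLinearMap.adjoint A :=
    (ContinuousLinearMap.adjoint (𝕜 := ℝ) (E := ℂ) (F := E4)).toContinuousLinearEquiv.contDiff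
  exact h1.clm_comp contDiff_id

theorem pinv_contDiffAt {A : ℂ →L[ℝ] E4} (hA : Function.Injective A) : ContDiffAt ℝ ∞ pinv A := by
  unfold pinv
  have h1 : ContDiff ℝ ∞ fun A : ℂ →L[ℝ] E4 => ContinuousLinearMap.adjoint A :=
    (ContinuousLinearMap.adjoint (𝕜 := ℝ) (E := ℂ) (F := E4)).toContinuousLinearEquiv.contDiff
  have h2 : ContDiffAt ℝ ∞ (fun A : ℂ →L[ℝ] E4 => Ring.inverse (gram A)) A := by
    obtain ⟨x, hx⟩ := gram_unit hA
    have h3 : ContDiffAt ℝ ∞ (Ring.inverse : (ℂ →L[ℝ] ℂ) → (ℂ →L[ℝ] ℂ)) (gram A) := by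
      rw [← hx]
      exact contDiffAt_ringInverse ℝ x
    exact h3.comp A gram_contDiff.contDiffAt
  exact h2.clm_comp h1.contDiffAt

theorem nrm_contDiffAt {A : ℂ →L[ℝ] E4} (hA : Function.Injective A) : ContDiffAt ℝ ∞ nrm A := by
  unfold nrm
  exact contDiffAt_const.sub (contDiffAt_id.clm_comp (pinv_contDiffAt hA))

theorem adj_zero_iff {A : ℂ →L[ℝ] E4} {v : E4} :
    ContinuousLinearMap.adjoint A v = 0 ↔ ∀ u : ℂ, ⟪A u, v⟫ = 0 := by
  constructor
  · intro h u
    rw [← ContinuousLinearMap.adjoint_inner_right, h, inner_zero_right]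
  · intro h
    refine ext_inner_left ℝ fun u => ?_
    rw [ContinuousLinearMap.adjoint_inner_right, h u, inner_zero_right]

theorem nrm_of {A : ℂ →L[ℝ] E4} {v : E4} (h : ∀ u : ℂ, ⟪A u, v⟫ = 0) : nrm A v = v := by
  unfold nrm pinv
  rw [_root_.sub_apply, ContinuousLinearMap.comp_apply,
    ContinuousLinearMap.comp_apply, adj_zero_iff.2 h, map_zero, map_zero, sub_zero]
  rfl

theorem pinv_apply {A : ℂ →L[ℝ] E4} (hA : Function.Injective A) (u : ℂ) : pinv A (A u) = u := by
  unfold pinv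
  have h1 : (Ring.inverse (gram A)) * gram A = 1 := Ring.inverse_mul_cancel _ (gram_unit hA)
  exact DFunLike.congr_fun h1 u

theorem gram_pinv {A : ℂ →L[ℝ] E4} (hA : Function.Injective A) (v : E4) :
    gram A (pinv A v) = ContinuousLinearMap.adjoint A v := by
  unfold pinv
  have h1 : gram A * (Ring.inverse (gram A)) = 1 := Ring.mul_inverse_cancel _ (gram_unit hA)
  exact DFunLike.congr_fun h1 (ContinuousLinearMap.adjoint A v)

theorem nrm_apply_range {A : ℂ →L[ℝ] E4} (hA : Function.Injective A) (u : ℂ) :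
    nrm A (A u) = 0 := by
  unfold nrm
  rw [_root_.sub_apply, ContinuousLinearMap.comp_apply, pinv_apply hA]
  exact sub_self _

theorem nrm_orth {A : ℂ →L[ℝ] E4} (hA : Function.Injective A) (v : E4) (u : ℂ) :
    ⟪A u, nrm A v⟫ = 0 := by
  revert u
  rw [← adj_zero_iff]
  unfold nrm
  rw [_root_.sub_apply, map_sub]
  have := gram_pinv hA v
  unfold gram at this
  rw [ContinuousLinearMap.comp_apply] at this
  rw [ContinuousLinearMap.comp_apply, this]
  exact sub_self _

/-- Vectors are moved to nonzero vectors by a close projection. -/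
theorem nrm_ne {A B : ℂ →L[ℝ] E4} (h : ‖nrm A - nrm B‖ < 1) {v : E4} (hv : nrm A v = v)
    (hv0 : v ≠ 0) : nrm B v ≠ 0 := by
  intro h0
  have h1 : (nrm A - nrm B) v = v := by
    rw [_root_.sub_apply, hv, h0, sub_zero]
  have h2 := (nrm A - nrm B).le_opNorm v
  rw [h1] at h2
  have h3 : 0 < ‖v‖ := norm_pos_iff.2 hv0
  nlinarith

/-- The tangential part of the vertical vector. -/
noncomputable def tup (A : ℂ →L[ℝ] E4) : E4 := A (pinv A up)

theorem tup_three {A : ℂ →L[ℝ] E4} (hA : Function.Injective A) : tup A 3 = ‖tup A‖ ^ 2 := by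
  have h1 : tup A 3 = ⟪tup A, up⟫ := by
    unfold up
    rw [EuclideanSpace.inner_single_right]
    simp
  rw [h1, ← real_inner_self_eq_norm_sq]
  have h2 : up = tup A + nrm A up := by
    unfold tup nrm
    rw [_root_.sub_apply, ContinuousLinearMap.comp_apply]
    simp
  conv_lhs => rw [h2, inner_add_right]
  unfold tup
  rw [nrm_orth hA, add_zero]

theorem tup_zero {A : ℂ →L[ℝ] E4} (hA : Function.Injective A) (h : tup A = 0) (u : ℂ) :
    A u 3 = 0 := by
  have h1 : A u 3 = ⟪A u, up⟫ := by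
    unfold up
    rw [EuclideanSpace.inner_single_right]
    simp
  rw [h1]
  have h2 : pinv A up = 0 := by
    unfold tup at h
    exact hA (by rw [h, map_zero])
  have h3 := gram_pinv hA up
  rw [h2, map_zero] at h3
  exact adj_zero_iff.1 h3.symm u

end Pool.Agent.U987.RH
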