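import Mathlib
import Pool.Agent.U987.RH.Nrm

/-!
Discrete parallel transport of normal vectors and a normal field with prescribed directions.
-/

set_option autoImplicit false

namespace Pool.Agent.U987.RH

open scoped ContDiff RealInnerProductSpace Topology
open Set Metric Filter

/-- Discrete parallel transport along the rays. -/
noncomputable def trn (A : ℂ → ℂ →L[ℝ] E4) (N : ℕ) : ℕ → ℂ → E4 →L[ℝ] E4
  | 0, _ => ContinuousLinearMap.id ℝ E4
  | k + 1, z => (nrm (A ((((k + 1 : ℕ) : ℝ) / N) • z))).comp (trn A N k z)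

theorem frac_mem {N k : ℕ} (hk : k ≤ N) {z : ℂ} (hz : z ∈ closedBall (0 : ℂ) 1) :
    (((k : ℕ) : ℝ) / N) • z ∈ closedBall (0 : ℂ) 1 := by
  rw [mem_closedBall_zero_iff] at hz ⊢
  rw [norm_smul, Real.norm_of_nonneg (by positivity)]
  rcases Nat.eq_zero_or_pos N with h0 | h0
  · subst h0
    simp
  · have h1 : ((k : ℕ) : ℝ) / N ≤ 1 := by
      rw [div_le_one (by exact_mod_cast h0)]
      exact_mod_cast hk
    have h2 : (0 : ℝ) ≤ (k : ℝ) / N := by positivity
    nlinarith [norm_nonneg z]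

theorem trn_smooth {A : ℂ → ℂ →L[ℝ] E4} (hA : ∀ z ∈ closedBall (0 : ℂ) 1, ContDiffAt ℝ ∞ A z)
    (hi : ∀ z ∈ closedBall (0 : ℂ) 1, Function.Injective (A z)) {N k : ℕ} (hk : k ≤ N) {z : ℂ}
    (hz : z ∈ closedBall (0 : ℂ) 1) : ContDiffAt ℝ ∞ (trn A N k) z := by
  induction k with
  | zero => exact contDiffAt_const
  | succ k ih =>
    have h1 := frac_mem hk hz
    have h2 : ContDiffAt ℝ ∞ (fun z : ℂ => (((k + 1 : ℕ) : ℝ) / N) • z) z :=
      contDiffAt_id.const_smul _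
    have h3 : ContDiffAt ℝ ∞ (fun z : ℂ => A ((((k + 1 : ℕ) : ℝ) / N) • z)) z :=
      ContDiffAt.comp z (hA _ h1) h2
    have h4 : ContDiffAt ℝ ∞ (fun z : ℂ => nrm (A ((((k + 1 : ℕ) : ℝ) / N) • z))) z :=
      ContDiffAt.comp (g := nrm) (f := fun z : ℂ => A ((((k + 1 : ℕ) : ℝ) / N) • z)) z
        (nrm_contDiffAt (hi _ h1)) h3
    exact h4.clm_comp (ih (by omega))

theorem transport {A : ℂ → ℂ →L[ℝ] E4} (hA : ∀ z ∈ closedBall (0 : ℂ) 1, ContDiffAt ℝ ∞ A z)
    (hi : ∀ z ∈ closedBall (0 : ℂ) 1, Function.Injective (A z)) :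
    ∃ T : ℂ → E4 →L[ℝ] E4, (∀ z ∈ closedBall (0 : ℂ) 1, ContDiffAt ℝ ∞ T z) ∧
      ∀ z ∈ closedBall (0 : ℂ) 1, ∀ v : E4, (∀ u, ⟪A 0 u, v⟫ = 0) →
        (∀ u, ⟪A z u, T z v⟫ = 0) ∧ (v ≠ 0 → T z v ≠ 0) := by
  have hc : ContinuousOn (fun z => nrm (A z)) (closedBall 0 1) := fun z hz =>
    ((ContDiffAt.comp (g := nrm) (f := A) z (nrm_contDiffAt (hi z hz))
      (hA z hz)).continuousAt).continuousWithinAt
  have hu := (isCompact_closedBall (0 : ℂ) 1).uniformContinuousOn_of_continuous hc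
  rw [Metric.uniformContinuousOn_iff] at hu
  obtain ⟨δ, hδ, hu⟩ := hu 1 one_pos
  obtain ⟨N, hN⟩ := exists_nat_gt (1 / δ)
  have hN0 : (0 : ℝ) < N := lt_trans (by positivity) hN
  refine ⟨trn A N N, fun z hz => trn_smooth hA hi le_rfl hz, ?_⟩
  intro z hz v hv
  have key : ∀ k : ℕ, k ≤ N → (∀ u, ⟪A (((k : ℝ) / N) • z) u, trn A N k z v⟫ = 0) ∧
      (v ≠ 0 → trn A N k z v ≠ 0) := by
    intro k
    induction k with
    | zero =>
      intro _
      have e : (((0 : ℕ) : ℝ) / N) • z = 0 := by simp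
      rw [e]
      exact ⟨hv, fun h => h⟩
    | succ k ih =>
      intro hk
      obtain ⟨h1, h2⟩ := ih (by omega)
      have hm := frac_mem hk hz
      have hm' := frac_mem (show k ≤ N by omega) hz
      refine ⟨fun u => nrm_orth (hi _ hm) _ u, fun hv0 => ?_⟩
      have h3 := hu _ hm' _ hm (by
        rw [dist_eq_norm, ← sub_smul, norm_smul]
        have e1 : ((k : ℝ) / N - ((k + 1 : ℕ) : ℝ) / N) = -(1 / N) := by
          push_cast
          field_simp
          ring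
        rw [e1, norm_neg, Real.norm_of_nonneg (by positivity)]
        have e2 : ‖z‖ ≤ 1 := mem_closedBall_zero_iff.1 hz
        have e3 : 1 / (N : ℝ) < δ := by
          rw [div_lt_iff₀ hN0]
          rw [div_lt_iff₀ hδ] at hN
          linarith
        have e4 : (0 : ℝ) ≤ 1 / N := by positivity
        nlinarith [norm_nonneg z])
      rw [dist_eq_norm] at h3
      exact nrm_ne h3 (nrm_of h1) (h2 hv0)
  have h := key N le_rfl
  rw [div_self hN0.ne', one_smul] at h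
  exact h

/-- The normal space has dimension two. -/
theorem finrank_nrm {A : ℂ →L[ℝ] E4} (hA : Function.Injective A) :
    Module.finrank ℝ (LinearMap.range A.toLinearMap)ᗮ = 2 := by
  have h1 : Module.finrank ℝ (LinearMap.range A.toLinearMap) = 2 := by
    rw [LinearMap.finrank_range_of_inj hA, Complex.finrank_real_complex]
  have h2 := (LinearMap.range A.toLinearMap).finrank_add_finrank_orthogonal
  rw [h1, finrank_euclideanSpace, Fintype.card_fin] at h2
  omega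

theorem mem_nrm {A : ℂ →L[ℝ] E4} {v : E4} :
    v ∈ (LinearMap.range A.toLinearMap)ᗮ ↔ ∀ u : ℂ, ⟪A u, v⟫ = 0 := by
  rw [Submodule.mem_orthogonal]
  constructor
  · intro h u
    exact h _ ⟨u, rfl⟩
  · rintro h _ ⟨u, rfl⟩
    exact h u

/-- The transport is onto. -/
theorem trans_surj {A B : ℂ →L[ℝ] E4} (hA : Function.Injective A) (hB : Function.Injective B)
    {T : E4 →L[ℝ] E4} (hT : ∀ v : E4, (∀ u, ⟪A u, v⟫ = 0) →
      (∀ u, ⟪B u, T v⟫ = 0) ∧ (v ≠ 0 → T v ≠ 0)) {y : E4} (hy : ∀ u, ⟪B u, y⟫ = 0) :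
    ∃ v : E4, (∀ u, ⟪A u, v⟫ = 0) ∧ T v = y := by
  set L : (LinearMap.range A.toLinearMap)ᗮ →ₗ[ℝ] (LinearMap.range B.toLinearMap)ᗮ :=
    (T.toLinearMap).restrict fun v hv => mem_nrm.2 (hT v (mem_nrm.1 hv)).1 with hL
  have hinj : Function.Injective L := by
    rw [← LinearMap.ker_eq_bot, LinearMap.ker_eq_bot']
    intro v hv
    by_contra h0
    refine (hT v (mem_nrm.1 v.2)).2 (fun h => h0 (Subtype.ext h)) ?_
    have := congrArg Subtype.val hv
    exact this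
  have hsurj : Function.Surjective L :=
    (LinearMap.injective_iff_surjective_of_finrank_eq_finrank (by
      rw [finrank_nrm hA, finrank_nrm hB])).1 hinj
  obtain ⟨v, hv⟩ := hsurj ⟨y, mem_nrm.2 hy⟩
  exact ⟨v, mem_nrm.1 v.2, congrArg Subtype.val hv⟩

theorem up_ne : up ≠ 0 := by
  intro h
  have h1 : ‖up‖ = 0 := by rw [h, norm_zero]
  unfold up at h1
  rw [EuclideanSpace.norm_single] at h1
  simp at h1

/-- A nowhere vanishing normal field which is vertical at finitely many points where the tangent plane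
is horizontal. -/
theorem nfield {A : ℂ → ℂ →L[ℝ] E4} (hA : ∀ z ∈ closedBall (0 : ℂ) 1, ContDiffAt ℝ ∞ A z)
    (hi : ∀ z ∈ closedBall (0 : ℂ) 1, Function.Injective (A z)) {F : Finset ℂ}
    (hF : ∀ p ∈ F, p ∈ closedBall (0 : ℂ) 1 ∧ ∀ u, ⟪A p u, up⟫ = 0) :
    ∃ ν : ℂ → E4, (∀ z ∈ closedBall (0 : ℂ) 1, ContDiffAt ℝ ∞ ν z) ∧
      (∀ z ∈ closedBall (0 : ℂ) 1, (∀ u, ⟪A z u, ν z⟫ = 0) ∧ ν z ≠ 0) ∧ ∀ p ∈ F, ν p = up := by
  obtain ⟨T, hT, hT'⟩ := transport hA hi
  have h0 : (0 : ℂ) ∈ closedBall (0 : ℂ) 1 := by simp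
  have hfin : Module.finrank ℝ ℂ = Module.finrank ℝ (LinearMap.range (A 0).toLinearMap)ᗮ := by
    rw [finrank_nrm (hi 0 h0), Complex.finrank_real_complex]
  let e := LinearEquiv.ofFinrankEq ℂ (LinearMap.range (A 0).toLinearMap)ᗮ hfin
  have hs : ∀ p ∈ F, ∃ c : ℂ, T p (e c : E4) = up := by
    intro p hp
    obtain ⟨v, hv, hv'⟩ := trans_surj (hi 0 h0) (hi p (hF p hp).1) (hT' p (hF p hp).1) (hF p hp).2
    refine ⟨e.symm ⟨v, mem_nrm.2 hv⟩, ?_⟩
    rw [LinearEquiv.apply_symm_apply]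
    exact hv'
  choose! c hc using hs
  have hc0 : ∀ p ∈ F, c p ≠ 0 := by
    intro p hp h
    have := hc p hp
    rw [h, map_zero, Submodule.coe_zero, map_zero] at this
    exact up_ne this.symm
  set q := Lagrange.interpolate F id (fun p => Complex.log (c p)) with hq
  have hqe : ∀ p ∈ F, Complex.exp (q.eval p) = c p := by
    intro p hp
    have := Lagrange.eval_interpolate_at_node (s := F) (v := id) (fun p => Complex.log (c p))
      (Function.injective_id.injOn) hp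
    simp only [id] at this
    rw [hq, this, Complex.exp_log (hc0 p hp)]
  have hg : ContDiff ℝ ∞ fun z : ℂ => Complex.exp (q.eval z) := by
    have h1 : ContDiff ℂ ∞ fun z : ℂ => q.eval z := by
      have := q.contDiff_aeval (𝕜 := ℂ) ∞
      simpa using this
    exact (h1.restrict_scalars ℝ).cexp
  let E : ℂ →L[ℝ] E4 := LinearMap.toContinuousLinearMap
    (((LinearMap.range (A 0).toLinearMap)ᗮ).subtype ∘ₗ e.toLinearMap)
  have hE : ∀ x : ℂ, E x = (e x : E4) := fun x => rfl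
  refine ⟨fun z => T z (E (Complex.exp (q.eval z))), ?_, ?_, ?_⟩
  · intro z hz
    exact (hT z hz).clm_apply (E.contDiff.comp hg).contDiffAt
  · intro z hz
    obtain ⟨h1, h2⟩ := hT' z hz (E (Complex.exp (q.eval z))) (mem_nrm.1 (by rw [hE]; exact (e _).2))
    refine ⟨h1, h2 ?_⟩
    rw [hE]
    intro h3
    have h4 : e (Complex.exp (q.eval z)) = 0 := Subtype.ext h3
    rw [LinearEquiv.map_eq_zero_iff] at h4
    exact Complex.exp_ne_zero _ h4
  · intro p hp
    show T p (E (Complex.exp (q.eval p))) = up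
    rw [hqe p hp, hE, hc p hp]

/-- Positivity on a compact set. -/
theorem pos_comb {K : Set ℂ} (hK : IsCompact K) {ρ k : ℂ → ℝ} (hρ : ContinuousOn ρ K)
    (hk : ContinuousOn k K) (hk0 : ∀ z ∈ K, 0 ≤ k z) (h : ∀ z ∈ K, k z = 0 → 0 < ρ z) :
    ∃ M : ℝ, ∀ z ∈ K, 0 < ρ z + M * k z := by
  obtain ⟨R, hR⟩ := hK.exists_bound_of_continuousOn hρ
  have hcl : IsCompact {z | z ∈ K ∧ ρ z ∈ Iic (0 : ℝ)} :=
    hK.of_isClosed_subset (hρ.preimage_isClosed_of_isClosed hK.isClosed isClosed_Iic) fun z hz => hz.1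
  obtain ⟨k₀, hk₀, hkk⟩ := hcl.exists_forall_le' (f := k) (hk.mono fun z hz => hz.1) (a := 0) (by
    rintro z ⟨hz, hz'⟩
    refine lt_of_le_of_ne (hk0 z hz) fun h0 => ?_
    have := h z hz h0.symm
    have hz'' : ρ z ≤ 0 := hz'
    linarith)
  refine ⟨(|R| + 1) / k₀, fun z hz => ?_⟩
  rcases le_or_gt (ρ z) 0 with h1 | h1
  · have h2 := hkk z ⟨hz, h1⟩
    have h3 : (|R| + 1) / k₀ * k₀ = |R| + 1 := by field_simp
    have h4 : (|R| + 1) / k₀ * k₀ ≤ (|R| + 1) / k₀ * k z :=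
      mul_le_mul_of_nonneg_left h2 (by positivity)
    have h5 := hR z hz
    rw [Real.norm_eq_abs] at h5
    have h6 := neg_abs_le (ρ z)
    have h7 := le_abs_self R
    linarith
  · have : 0 ≤ (|R| + 1) / k₀ * k z := mul_nonneg (by positivity) (hk0 z hz)
    linarith

/-- **A nowhere tangent field of vertical speed one.** -/
theorem xfield {A : ℂ → ℂ →L[ℝ] E4} (hA : ∀ z ∈ closedBall (0 : ℂ) 1, ContDiffAt ℝ ∞ A z)
    (hi : ∀ z ∈ closedBall (0 : ℂ) 1, Function.Injective (A z)) {F : Finset ℂ}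
    (hF : ∀ z ∈ closedBall (0 : ℂ) 1, (∀ u, A z u 3 = 0) → z ∈ F) :
    ∃ X : ℂ → E4, (∀ z ∈ closedBall (0 : ℂ) 1, ContDiffAt ℝ ∞ X z) ∧
      (∀ z ∈ closedBall (0 : ℂ) 1, X z 3 = 1 ∧ nrm (A z) (X z) ≠ 0) := by
  classical
  have hup : ∀ v : E4, ⟪v, up⟫ = v 3 := by
    intro v
    unfold up
    rw [EuclideanSpace.inner_single_right]
    simp
  set F' := F.filter fun p => p ∈ closedBall (0 : ℂ) 1 ∧ ∀ u, ⟪A p u, up⟫ = 0 with hF'
  obtain ⟨ν, hν1, hν2, hν3⟩ := nfield hA hi (F := F') (fun p hp => (Finset.mem_filter.1 hp).2)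
  set τ : ℂ → E4 := fun z => tup (A z) with hτ
  have hτs : ∀ z ∈ closedBall (0 : ℂ) 1, ContDiffAt ℝ ∞ τ z := by
    intro z hz
    have h1 : ContDiffAt ℝ ∞ (fun z => pinv (A z)) z :=
      ContDiffAt.comp (g := pinv) (f := A) z (pinv_contDiffAt (hi z hz)) (hA z hz)
    exact (hA z hz).clm_apply (h1.clm_apply contDiffAt_const)
  have h3c : ∀ {f : ℂ → E4} {z : ℂ}, ContDiffAt ℝ ∞ f z → ContDiffAt ℝ ∞ (fun z => f z 3) z :=
    fun {f z} hf => (EuclideanSpace.proj (3 : Fin 4) : E4 →L[ℝ] ℝ).contDiff.contDiffAt.comp z hf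
  obtain ⟨M, hM⟩ := pos_comb (isCompact_closedBall (0 : ℂ) 1) (ρ := fun z => ν z 3)
    (k := fun z => τ z 3)
    (fun z hz => (h3c (hν1 z hz)).continuousAt.continuousWithinAt)
    (fun z hz => (h3c (hτs z hz)).continuousAt.continuousWithinAt)
    (fun z hz => by
      show 0 ≤ tup (A z) 3
      rw [tup_three (hi z hz)]
      positivity)
    (fun z hz h0 => by
      have h0' : tup (A z) 3 = 0 := h0
      rw [tup_three (hi z hz)] at h0'
      have h1 : tup (A z) = 0 := by simpa using h0'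
      have h2 := tup_zero (hi z hz) h1
      have h3 : z ∈ F' := Finset.mem_filter.2 ⟨hF z hz h2, hz, fun u => by rw [hup]; exact h2 u⟩
      show 0 < ν z 3
      rw [hν3 z h3]
      unfold up
      simp)
  refine ⟨fun z => (ν z 3 + M * τ z 3)⁻¹ • (ν z + M • τ z), ?_, ?_⟩
  · intro z hz
    have h1 : ContDiffAt ℝ ∞ (fun z => (ν z 3 + M * τ z 3)⁻¹) z :=
      ((h3c (hν1 z hz)).add (contDiffAt_const.mul (h3c (hτs z hz)))).inv (hM z hz).ne'
    exact h1.smul ((hν1 z hz).add ((hτs z hz).const_smul M))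
  · intro z hz
    have hp := hM z hz
    refine ⟨?_, ?_⟩
    · show ((ν z 3 + M * τ z 3)⁻¹ • (ν z + M • τ z)) 3 = 1
      rw [PiLp.smul_apply, PiLp.add_apply, PiLp.smul_apply, smul_eq_mul, smul_eq_mul]
      exact inv_mul_cancel₀ hp.ne'
    · show nrm (A z) ((ν z 3 + M * τ z 3)⁻¹ • (ν z + M • τ z)) ≠ 0
      rw [map_smul, map_add, map_smul, nrm_of (hν2 z hz).1]
      have e1 : nrm (A z) (τ z) = 0 := nrm_apply_range (hi z hz) _
      rw [e1, smul_zero, add_zero]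
      exact smul_ne_zero (inv_ne_zero hp.ne') (hν2 z hz).2

end Pool.Agent.U987.RH
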