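import Mathlib
import Pool.Agent.U987.RH.Trn

/-!
Extension of a field along an embedded disc to four-space.
-/

set_option autoImplicit false

namespace Pool.Agent.U987.RH

open scoped ContDiff RealInnerProductSpace Topology Manifold
open Set Metric Filter

/-- A smooth local left inverse of an immersion. -/
theorem left_inv {φ : ℂ → E4} {W : Set ℂ} (hW : IsOpen W) (hφ : ContDiffOn ℝ ∞ φ W) {z₀ : ℂ}
    (hz : z₀ ∈ W) (hi : Function.Injective (fderiv ℝ φ z₀)) :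
    ∃ (F : E4 → ℂ) (O : Set E4), IsOpen O ∧ φ z₀ ∈ O ∧ ContDiffOn ℝ ∞ F O ∧
      ∀ᶠ z in 𝓝 z₀, F (φ z) = z := by
  set l : E4 →L[ℝ] ℂ := pinv (fderiv ℝ φ z₀) with hl
  set f : ℂ → ℂ := fun z => l (φ z) with hf
  have hfs : ContDiffOn ℝ ∞ f W := l.contDiff.comp_contDiffOn hφ
  have hfa : ContDiffAt ℝ ∞ f z₀ := hfs.contDiffAt (hW.mem_nhds hz)
  have hd : HasFDerivAt f ((ContinuousLinearEquiv.refl ℝ ℂ : ℂ ≃L[ℝ] ℂ) : ℂ →L[ℝ] ℂ) z₀ := by
    have h1 : HasFDerivAt φ (fderiv ℝ φ z₀) z₀ :=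
      ((hφ.contDiffAt (hW.mem_nhds hz)).differentiableAt (by simp)).hasFDerivAt
    have h2 := l.hasFDerivAt.comp z₀ h1
    convert! h2 using 1
    ext u
    exact congrArg _ (pinv_apply hi _).symm
  have hn : (∞ : WithTop ℕ∞) ≠ 0 := by simp
  set e := hfa.toOpenPartialHomeomorph f hd hn with he
  have hes : z₀ ∈ e.source := hfa.mem_toOpenPartialHomeomorph_source hd hn
  have hee : ∀ z, e z = f z := fun z => rfl
  have hopen : IsOpen {z | z ∈ W ∧ fderiv ℝ f z ∈ {A : ℂ →L[ℝ] ℂ | IsUnit A}} :=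
    (hfs.continuousOn_fderiv_of_isOpen hW (by simp)).isOpen_inter_preimage hW Units.isOpen
  set S := {z | z ∈ W ∧ fderiv ℝ f z ∈ {A : ℂ →L[ℝ] ℂ | IsUnit A}} with hS
  have hzS : z₀ ∈ S := by
    refine ⟨hz, ?_⟩
    show IsUnit (fderiv ℝ f z₀)
    rw [hd.fderiv]
    exact isUnit_one
  have hO : IsOpen (e.target ∩ e.symm ⁻¹' S) := e.symm.isOpen_inter_preimage hopen
  refine ⟨fun y => e.symm (l y), l ⁻¹' (e.target ∩ e.symm ⁻¹' S), hO.preimage l.continuous, ?_,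
    ?_, ?_⟩
  · show f z₀ ∈ e.target ∩ e.symm ⁻¹' S
    refine ⟨?_, ?_⟩
    · rw [← hee]; exact e.map_source hes
    · show e.symm (f z₀) ∈ S
      rw [← hee, e.left_inv hes]
      exact hzS
  · intro y hy
    have hy1 : l y ∈ e.target := hy.1
    have hy2 : e.symm (l y) ∈ S := hy.2
    obtain ⟨hw, u, hu⟩ := hy2
    have h1 : ContDiffAt ℝ ∞ f (e.symm (l y)) := hfs.contDiffAt (hW.mem_nhds hw)
    have h2 : HasFDerivAt f ((ContinuousLinearEquiv.ofUnit u : ℂ ≃L[ℝ] ℂ) : ℂ →L[ℝ] ℂ)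
        (e.symm (l y)) := by
      have h3 := (h1.differentiableAt (by simp)).hasFDerivAt
      have h4 : ((ContinuousLinearEquiv.ofUnit u : ℂ ≃L[ℝ] ℂ) : ℂ →L[ℝ] ℂ) =
          fderiv ℝ f (e.symm (l y)) := by
        rw [← hu]
        ext <;> rfl
      rw [h4]
      exact h3
    have h5 : ContDiffAt ℝ ∞ e.symm (l y) := e.contDiffAt_symm hy1 h2 h1
    exact (h5.comp y l.contDiff.contDiffAt).contDiffWithinAt
  · have h1 : ∀ᶠ z in 𝓝 z₀, z ∈ e.source := e.open_source.mem_nhds hes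
    filter_upwards [h1] with z hz
    show e.symm (f z) = z
    rw [← hee, e.left_inv hz]

/-- **Extension of a field.** -/
theorem extend {φ : ℂ → E4} {W : Set ℂ} (hW : IsOpen W) (hsub : closedBall 0 1 ⊆ W)
    (hφ : ContDiffOn ℝ ∞ φ W) (hinj : InjOn φ (closedBall 0 1))
    (hi : ∀ z ∈ closedBall (0 : ℂ) 1, Function.Injective (fderiv ℝ φ z)) {X : ℂ → E4}
    (hX : ContDiffOn ℝ ∞ X W) (hX3 : ∀ z ∈ W, X z 3 = 1) :
    ∃ V : E4 → E4, ContDiff ℝ ∞ V ∧ (∀ y, V y 3 = 1) ∧ ∀ z ∈ closedBall (0 : ℂ) 1,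
      V (φ z) = X z := by
  have hcφ : ContinuousOn φ (closedBall 0 1) := hφ.continuousOn.mono hsub
  have hex := exists_contMDiffMap_forall_mem_convex_of_local (n := (⊤ : ℕ∞)) (𝓘(ℝ, E4)) (M := E4)
    (F := E4) (t := fun y : E4 => {v : E4 | v 3 = 1 ∧ ∀ z ∈ closedBall (0 : ℂ) 1, φ z = y → v = X z})
    (by
      intro y a ha b hb s t hs ht hst
      refine ⟨?_, fun z hz hzy => ?_⟩
      · rw [PiLp.add_apply, PiLp.smul_apply, PiLp.smul_apply, ha.1, hb.1, smul_eq_mul, smul_eq_mul,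
          mul_one, mul_one, hst]
      · rw [ha.2 z hz hzy, hb.2 z hz hzy, ← add_smul, hst, one_smul])
    (by
      intro y
      by_cases hy : y ∈ φ '' closedBall 0 1
      · obtain ⟨z₀, hz₀, rfl⟩ := hy
        obtain ⟨F, O, hO, hzO, hF, hFφ⟩ := left_inv hW hφ (hsub hz₀) (hi z₀ hz₀)
        have hF0 : F (φ z₀) = z₀ := hFφ.self_of_nhds
        obtain ⟨N, hN, hNo, hzN⟩ := _root_.eventually_nhds_iff.1 hFφ
        have hO' : IsOpen (O ∩ F ⁻¹' W) := hF.continuousOn.isOpen_inter_preimage hO hW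
        have hK : IsCompact (φ '' (closedBall 0 1 \ N)) :=
          ((isCompact_closedBall (0 : ℂ) 1).diff hNo).image_of_continuousOn
            (hcφ.mono diff_subset)
        refine ⟨(O ∩ F ⁻¹' W) ∩ (φ '' (closedBall 0 1 \ N))ᶜ, ?_, fun y => X (F y), ?_, ?_⟩
        · refine (hO'.inter hK.isClosed.isOpen_compl).mem_nhds ⟨⟨hzO, ?_⟩, ?_⟩
          · show F (φ z₀) ∈ W
            rw [hF0]
            exact hsub hz₀
          · rintro ⟨z, hz, hzz⟩
            have := hinj hz.1 hz₀ hzz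
            exact hz.2 (this ▸ hzN)
        · rw [contMDiffOn_iff_contDiffOn]
          exact hX.comp (hF.mono fun y hy => hy.1.1) fun y hy => hy.1.2
        · rintro y ⟨⟨h1, h2⟩, h3⟩
          refine ⟨hX3 _ h2, fun z hz hzy => ?_⟩
          subst hzy
          have : z ∈ N := by
            by_contra hcon
            exact h3 ⟨z, ⟨hz, hcon⟩, rfl⟩
          show X (F (φ z)) = X z
          rw [hN z this]
      · have hK : IsCompact (φ '' closedBall 0 1) :=
          (isCompact_closedBall (0 : ℂ) 1).image_of_continuousOn hcφ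
        refine ⟨(φ '' closedBall 0 1)ᶜ, hK.isClosed.isOpen_compl.mem_nhds hy, fun _ => up,
          contMDiffOn_const, fun y' hy' => ⟨by unfold up; simp, fun z hz hzy => ?_⟩⟩
        exact absurd ⟨z, hz, hzy⟩ hy')
  obtain ⟨V, hV⟩ := hex
  refine ⟨V, ?_, fun y => (hV y).1, fun z hz => (hV (φ z)).2 z hz rfl⟩
  have := V.contMDiff
  rw [contMDiff_iff_contDiff] at this
  exact this

end Pool.Agent.U987.RH
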