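import Mathlib
import Pool.Agent.U987.RH.Steep

/-!
The height function of a ribbon disc.
-/

set_option autoImplicit false

namespace Pool.Agent.U987.RH

open scoped ContDiff RealInnerProductSpace Topology
open Set Metric Filter

/-- Immersions are locally injective. -/
theorem locinj {σ : ℂ → E3} {z : ℂ} (h : ContDiffAt ℝ ∞ σ z)
    (hi : Function.Injective (fderiv ℝ σ z)) : ∃ r > 0, InjOn σ (ball z r) := by
  have hs : HasStrictFDerivAt σ (fderiv ℝ σ z) z := h.hasStrictFDerivAt (by simp)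
  obtain ⟨K, hK, hKa⟩ := LinearMap.exists_antilipschitzWith (fderiv ℝ σ z : ℂ →ₗ[ℝ] E3)
    (LinearMap.ker_eq_bot.2 hi)
  have hK0 : (0 : ℝ) < K := hK
  have h1 := hs.isLittleO.def (c := (K : ℝ)⁻¹ / 2) (by positivity)
  obtain ⟨r, hr, hb⟩ := Metric.eventually_nhds_iff.1 h1
  refine ⟨r, hr, fun a ha b hb' hab => ?_⟩
  have h2 := hb (y := (a, b)) (by
    rw [Prod.dist_eq, max_lt_iff]
    exact ⟨mem_ball.1 ha, mem_ball.1 hb'⟩)
  simp only [hab, sub_self, zero_sub, norm_neg] at h2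
  have h3 : ‖a - b‖ ≤ K * ‖fderiv ℝ σ z (a - b)‖ := by
    have := hKa.le_mul_dist a b
    rw [dist_eq_norm, dist_eq_norm] at this
    have e : fderiv ℝ σ z (a - b) = fderiv ℝ σ z a - fderiv ℝ σ z b := map_sub _ _ _
    rw [e]
    exact this
  have h4 : ‖a - b‖ ≤ K * ((K : ℝ)⁻¹ / 2 * ‖a - b‖) :=
    h3.trans (mul_le_mul_of_nonneg_left h2 hK0.le)
  have h5 : (K : ℝ) * ((K : ℝ)⁻¹ / 2 * ‖a - b‖) = ‖a - b‖ / 2 := by
    field_simp
  rw [h5] at h4
  have h6 : ‖a - b‖ = 0 := le_antisymm (by linarith) (norm_nonneg _)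
  exact sub_eq_zero.1 (norm_eq_zero.1 h6)

/-- The points glued to the interior arcs form a compact set disjoint from the interior arcs. -/
theorem partner {σ : ℂ → E3} {W A : Set ℂ} (hW : IsOpen W) (hsub : closedBall 0 1 ⊆ W)
    (hσ : ContDiffOn ℝ ∞ σ W) (hi : ∀ z ∈ closedBall (0 : ℂ) 1, Function.Injective (fderiv ℝ σ z))
    (hA : IsCompact A) (hAs : A ⊆ closedBall 0 1)
    (hsing : ∀ z ∈ closedBall (0 : ℂ) 1, ∀ w ∈ closedBall (0 : ℂ) 1, z ≠ w → σ z = σ w →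
      (z ∈ A ∧ w ∉ A) ∨ (w ∈ A ∧ z ∉ A)) :
    ∃ B : Set ℂ, IsCompact B ∧ B ⊆ closedBall 0 1 ∧ Disjoint A B ∧
      ∀ a ∈ A, ∀ b ∈ closedBall (0 : ℂ) 1, b ∉ A → σ a = σ b → b ∈ B := by
  have hloc : ∀ a : A, ∃ r > 0, InjOn σ (ball (a : ℂ) r) := fun a =>
    locinj (hσ.contDiffAt (hW.mem_nhds (hsub (hAs a.2)))) (hi a (hAs a.2))
  choose r hr hinj using hloc
  obtain ⟨δ, hδ, hleb⟩ := lebesgue_number_lemma_of_metric (c := fun a : A => ball (a : ℂ) (r a)) hA
    (fun a => isOpen_ball) (fun a ha => mem_iUnion.2 ⟨⟨a, ha⟩, mem_ball_self (hr _)⟩)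
  have hcont : ContinuousOn σ (closedBall 0 1) := hσ.continuousOn.mono hsub
  set P : Set (ℂ × ℂ) := {p | p ∈ A ×ˢ closedBall (0 : ℂ) 1 ∧ σ p.1 = σ p.2 ∧ δ ≤ dist p.1 p.2}
    with hP
  have hPc : IsCompact P := by
    have hK : IsCompact (A ×ˢ closedBall (0 : ℂ) 1) := hA.prod (isCompact_closedBall _ _)
    have h1 : ContinuousOn (fun p : ℂ × ℂ => dist (σ p.1) (σ p.2)) (A ×ˢ closedBall (0 : ℂ) 1) := by
      have h11 : ContinuousOn (fun p : ℂ × ℂ => σ p.1) (A ×ˢ closedBall (0 : ℂ) 1) :=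
        hcont.comp continuousOn_fst fun p hp => hAs hp.1
      have h12 : ContinuousOn (fun p : ℂ × ℂ => σ p.2) (A ×ˢ closedBall (0 : ℂ) 1) :=
        hcont.comp continuousOn_snd fun p hp => hp.2
      exact continuous_dist.comp_continuousOn (h11.prodMk h12)
    have h2 : IsClosed {p | p ∈ A ×ˢ closedBall (0 : ℂ) 1 ∧ dist (σ p.1) (σ p.2) ∈ ({0} : Set ℝ)} :=
      h1.preimage_isClosed_of_isClosed hK.isClosed isClosed_singleton
    have h3 : IsClosed {p : ℂ × ℂ | δ ≤ dist p.1 p.2} :=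
      isClosed_le continuous_const (continuous_fst.dist continuous_snd)
    have h4 : P = (A ×ˢ closedBall (0 : ℂ) 1) ∩
        ({p | p ∈ A ×ˢ closedBall (0 : ℂ) 1 ∧ dist (σ p.1) (σ p.2) ∈ ({0} : Set ℝ)} ∩
          {p : ℂ × ℂ | δ ≤ dist p.1 p.2}) := by
      ext p
      simp only [hP, mem_ofPred_eq, mem_inter_iff, mem_singleton_iff, dist_eq_zero]
      tauto
    rw [h4]
    exact hK.inter_right (h2.inter h3)
  refine ⟨Prod.snd '' P, hPc.image continuous_snd, ?_, ?_, ?_⟩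
  · rintro _ ⟨p, hp, rfl⟩
    exact hp.1.2
  · rw [Set.disjoint_left]
    rintro b hb ⟨p, hp, rfl⟩
    have hne : p.1 ≠ p.2 := by
      intro h
      have := hp.2.2
      rw [h, dist_self] at this
      linarith
    rcases hsing p.1 (hAs hp.1.1) p.2 hp.1.2 hne hp.2.1 with h | h
    · exact h.2 hb
    · exact h.2 hp.1.1
  · intro a ha b hb hbA hab
    refine ⟨(a, b), ⟨⟨ha, hb⟩, hab, ?_⟩, rfl⟩
    by_contra hc
    push Not at hc
    obtain ⟨i, hi'⟩ := hleb a ha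
    have e := hinj i (hi' (mem_ball_self hδ)) (hi' (mem_ball.2 (by rw [dist_comm]; exact hc))) hab
    exact hbA (e ▸ ha)

/-- The order of the sheets. -/
theorem order {A B : Set ℂ} (hA : IsCompact A) (hAr : ∀ a ∈ A, a.im = 0 ∧ ‖a‖ < 1)
    (hB : IsCompact B) (hBs : B ⊆ closedBall 0 1) (hAB : Disjoint A B) :
    ∃ u : ℝ → ℝ, ContDiff ℝ ∞ u ∧ ∃ M₀ : ℝ, 0 ≤ M₀ ∧ ∀ M, M₀ ≤ M → ∀ a ∈ A, ∀ b ∈ B,
      (1 - (b.re ^ 2 + b.im ^ 2)) * Real.exp (u b.re - M * b.im ^ 2) <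
        (1 - (a.re ^ 2 + a.im ^ 2)) * Real.exp (u a.re - M * a.im ^ 2) := by
  have hA' : IsCompact (Complex.re '' A) := hA.image Complex.continuous_re
  have hB0 : IsCompact (B ∩ {z | z.im = 0}) :=
    hB.inter_right (isClosed_eq Complex.continuous_im continuous_const)
  have hB0' : IsCompact (Complex.re '' (B ∩ {z | z.im = 0})) := hB0.image Complex.continuous_re
  have hdis : Disjoint (Complex.re '' A) (Complex.re '' (B ∩ {z | z.im = 0})) := by
    rw [Set.disjoint_left]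
    rintro _ ⟨a, ha, rfl⟩ ⟨b, ⟨hb, hb0⟩, hab⟩
    have : b = a := Complex.ext hab (hb0.trans (hAr a ha).1.symm)
    exact Set.disjoint_left.1 hAB ha (this ▸ hb)
  obtain ⟨δ, hδ, hdisj⟩ := hdis.exists_cthickenings hA' hB0'.isClosed
  obtain ⟨χ, hχ0, hχ1, hχ⟩ := exists_contMDiffMap_zero_one_of_isClosed (n := (⊤ : ℕ∞))
    (modelWithCornersSelf ℝ ℝ) (s := (thickening δ (Complex.re '' A))ᶜ) (t := Complex.re '' A)
    isOpen_thickening.isClosed_compl hA'.isClosed (by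
      rw [Set.disjoint_left]
      intro x hx hxA
      exact hx (self_subset_thickening hδ _ hxA))
  have hχs : ContDiff ℝ ∞ (χ : ℝ → ℝ) := contMDiff_iff_contDiff.1 χ.contMDiff
  -- lower bound on `A`
  obtain ⟨m, hm, hmA⟩ := hA.exists_forall_le' (f := fun a : ℂ => 1 - (a.re ^ 2 + a.im ^ 2))
    (by fun_prop) (a := 0) (by
      intro a ha
      have h1 := (hAr a ha).2
      have h2 : a.re ^ 2 + a.im ^ 2 = ‖a‖ ^ 2 := by
        rw [← Complex.normSq_eq_norm_sq, Complex.normSq_apply]; ring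
      rw [h2]
      nlinarith [norm_nonneg a])
  obtain ⟨L, hL0, hL⟩ : ∃ L : ℝ, 0 ≤ L ∧ 1 < m * Real.exp L := by
    refine ⟨m⁻¹, by positivity, ?_⟩
    have h1 : m⁻¹ + 1 ≤ Real.exp m⁻¹ := Real.add_one_le_exp _
    have h2 : m * (m⁻¹ + 1) ≤ m * Real.exp m⁻¹ := mul_le_mul_of_nonneg_left h1 hm.le
    have h3 : m * (m⁻¹ + 1) = 1 + m := by field_simp
    linarith
  -- lower bound for the imaginary part
  have hB1 : IsCompact (B ∩ {z | z.re ∈ cthickening δ (Complex.re '' A)}) :=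
    hB.inter_right (isClosed_cthickening.preimage Complex.continuous_re)
  obtain ⟨ζ, hζ, hζB⟩ := hB1.exists_forall_le' (f := fun b : ℂ => b.im ^ 2)
    (by fun_prop) (a := 0) (by
      rintro b ⟨hb, hb1⟩
      have : b.im ≠ 0 := by
        intro h0
        exact Set.disjoint_left.1 hdisj hb1
          (self_subset_cthickening _ ⟨b, ⟨hb, h0⟩, rfl⟩)
      positivity)
  refine ⟨fun x => L * χ x, contDiff_const.mul hχs, L / ζ, by positivity, ?_⟩
  intro M hM a ha b hb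
  have hM0 : 0 ≤ M := le_trans (by positivity) hM
  have hR : 1 < (1 - (a.re ^ 2 + a.im ^ 2)) * Real.exp (L * χ a.re - M * a.im ^ 2) := by
    have h1 : χ a.re = 1 := hχ1 ⟨a, ha, rfl⟩
    rw [h1, mul_one, (hAr a ha).1]
    have h2 : L - M * 0 ^ 2 = L := by ring
    rw [h2]
    have h3 := hmA a ha
    rw [(hAr a ha).1] at h3
    exact hL.trans_le (mul_le_mul_of_nonneg_right h3 (Real.exp_pos _).le)
  refine lt_of_le_of_lt ?_ hR
  have hE : L * χ b.re - M * b.im ^ 2 ≤ 0 := by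
    by_cases hc : b.re ∈ cthickening δ (Complex.re '' A)
    · have h1 := hζB b ⟨hb, hc⟩
      have h2 : L * χ b.re ≤ L := by
        have := (hχ b.re).2
        nlinarith
      have h3 : L ≤ M * b.im ^ 2 := by
        calc L = L / ζ * ζ := by field_simp
          _ ≤ M * b.im ^ 2 := mul_le_mul hM h1 hζ.le hM0
      linarith
    · have h1 : χ b.re = 0 := hχ0 fun h => hc (thickening_subset_cthickening _ _ h)
      rw [h1, mul_zero, zero_sub, neg_nonpos]
      positivity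
  have h4 : Real.exp (L * χ b.re - M * b.im ^ 2) ≤ 1 := Real.exp_le_one_iff.2 hE
  have h5 : 1 - (b.re ^ 2 + b.im ^ 2) ≤ 1 := by nlinarith [sq_nonneg b.re, sq_nonneg b.im]
  have h6 : 0 ≤ 1 - (b.re ^ 2 + b.im ^ 2) := by
    have h1 := mem_closedBall_zero_iff.1 (hBs hb)
    have h2 : b.re ^ 2 + b.im ^ 2 = ‖b‖ ^ 2 := by
      rw [← Complex.normSq_eq_norm_sq, Complex.normSq_apply]; ring
    rw [h2]
    nlinarith [norm_nonneg b]
  exact mul_le_one₀ h5 (Real.exp_pos _).le h4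

/-! ### The function and its derivatives -/

/-- `1 - |z|²`. -/
noncomputable def pp (z : ℂ) : ℝ := 1 - (z.re ^ 2 + z.im ^ 2)

/-- The exponent. -/
noncomputable def qe (u : ℝ → ℝ) (M : ℝ) (z : ℂ) : ℝ := u z.re - M * z.im ^ 2

/-- The height. -/
noncomputable def hf (u : ℝ → ℝ) (M : ℝ) (z : ℂ) : ℝ := pp z * Real.exp (qe u M z)

/-- Coefficient of the first derivative. -/
noncomputable def cA (u : ℝ → ℝ) (z : ℂ) : ℝ := -2 * z.re + pp z * deriv u z.re

/-- Coefficient of the first derivative. -/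
noncomputable def cB (M : ℝ) (z : ℂ) : ℝ := -2 * z.im * (1 + M * pp z)

theorem re_d (z : ℂ) : HasFDerivAt (fun w : ℂ => w.re) Complex.reCLM z := Complex.reCLM.hasFDerivAt

theorem im_d (z : ℂ) : HasFDerivAt (fun w : ℂ => w.im) Complex.imCLM z := Complex.imCLM.hasFDerivAt

theorem pp_d (z : ℂ) : ∃ P : ℂ →L[ℝ] ℝ, HasFDerivAt pp P z ∧
    ∀ v, P v = -2 * z.re * v.re - 2 * z.im * v.im := by
  refine ⟨_, (((re_d z).pow 2).add ((im_d z).pow 2)).const_sub 1, fun v => ?_⟩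
  simp
  ring

theorem qe_d {u : ℝ → ℝ} (hu : ContDiff ℝ ∞ u) (M : ℝ) (z : ℂ) : ∃ P : ℂ →L[ℝ] ℝ,
    HasFDerivAt (qe u M) P z ∧ ∀ v, P v = deriv u z.re * v.re - 2 * M * z.im * v.im := by
  have h1 : HasDerivAt u (deriv u z.re) z.re := (hu.differentiable (by simp) _).hasDerivAt
  have h2 : HasFDerivAt (fun w : ℂ => u w.re) (deriv u z.re • Complex.reCLM) z :=
    h1.comp_hasFDerivAt z (re_d z)
  refine ⟨_, h2.sub (((im_d z).pow 2).const_mul M), fun v => ?_⟩
  simp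
  ring

theorem hf_d {u : ℝ → ℝ} (hu : ContDiff ℝ ∞ u) (M : ℝ) (z v : ℂ) :
    fderiv ℝ (hf u M) z v = Real.exp (qe u M z) * (cA u z * v.re + cB M z * v.im) := by
  obtain ⟨P, hP, hPv⟩ := pp_d z
  obtain ⟨Q, hQ, hQv⟩ := qe_d hu M z
  have h := hP.mul hQ.exp
  have h1 : fderiv ℝ (hf u M) z = _ := h.fderiv
  rw [h1]
  simp only [add_apply, smul_apply, smul_eq_mul, hPv, hQv]
  unfold cA cB
  ring

theorem cA_d {u : ℝ → ℝ} (hu : ContDiff ℝ ∞ u) (z : ℂ) : ∃ P : ℂ →L[ℝ] ℝ,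
    HasFDerivAt (cA u) P z ∧ ∀ v, P v = -2 * v.re +
      ((-2 * z.re * v.re - 2 * z.im * v.im) * deriv u z.re + pp z * (deriv (deriv u) z.re * v.re)) := by
  obtain ⟨P, hP, hPv⟩ := pp_d z
  have h0 : ContDiff ℝ ∞ (deriv u) := (contDiff_infty_iff_deriv.1 hu).2
  have h1 : HasDerivAt (deriv u) (deriv (deriv u) z.re) z.re :=
    (h0.differentiable (by simp) _).hasDerivAt
  have h2 : HasFDerivAt (fun w : ℂ => deriv u w.re) (deriv (deriv u) z.re • Complex.reCLM) z :=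
    h1.comp_hasFDerivAt z (re_d z)
  refine ⟨_, ((re_d z).const_mul (-2)).add (hP.mul h2), fun v => ?_⟩
  simp only [add_apply, smul_apply, smul_eq_mul, hPv, Complex.reCLM_apply]
  ring

theorem cB_d (M : ℝ) (z : ℂ) : ∃ P : ℂ →L[ℝ] ℝ, HasFDerivAt (cB M) P z ∧ ∀ v, P v =
    -2 * v.im * (1 + M * pp z) + -2 * z.im * (M * (-2 * z.re * v.re - 2 * z.im * v.im)) := by
  obtain ⟨P, hP, hPv⟩ := pp_d z
  refine ⟨_, ((im_d z).const_mul (-2)).mul ((hP.const_mul M).const_add 1), fun v => ?_⟩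
  simp only [add_apply, smul_apply, smul_eq_mul, hPv, Complex.imCLM_apply]
  ring

theorem hf_smooth {u : ℝ → ℝ} (hu : ContDiff ℝ ∞ u) (M : ℝ) : ContDiff ℝ ∞ (hf u M) := by
  have h1 : ContDiff ℝ ∞ (fun w : ℂ => w.re) := Complex.reCLM.contDiff
  have h2 : ContDiff ℝ ∞ (fun w : ℂ => w.im) := Complex.imCLM.contDiff
  have h3 : ContDiff ℝ ∞ (fun w : ℂ => u w.re) := hu.comp h1
  unfold hf pp qe
  exact (contDiff_const.sub ((h1.pow 2).add (h2.pow 2))).mul
    ((h3.sub (contDiff_const.mul (h2.pow 2))).exp)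

/-- Second derivatives at a critical point on the real axis. -/
theorem hf_dd {u : ℝ → ℝ} (hu : ContDiff ℝ ∞ u) (M : ℝ) {z : ℂ} (hA : cA u z = 0)
    (hy : z.im = 0) :
    s2 (hf u M) 1 1 z = Real.exp (qe u M z) *
      (-2 - 2 * z.re * deriv u z.re + pp z * deriv (deriv u) z.re) ∧
    s2 (hf u M) 1 Complex.I z = 0 ∧
    s2 (hf u M) Complex.I Complex.I z = Real.exp (qe u M z) * (-2 * (1 + M * pp z)) := by
  obtain ⟨Q, hQ, hQv⟩ := qe_d hu M z
  obtain ⟨PA, hPA, hPAv⟩ := cA_d hu z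
  obtain ⟨PB, hPB, hPBv⟩ := cB_d M z
  have hB : cB M z = 0 := by unfold cB; rw [hy]; ring
  have e1 : (fun w => fderiv ℝ (hf u M) w 1) = fun w => Real.exp (qe u M w) * cA u w := by
    funext w
    rw [hf_d hu]
    simp
  have e2 : (fun w => fderiv ℝ (hf u M) w Complex.I) = fun w => Real.exp (qe u M w) * cB M w := by
    funext w
    rw [hf_d hu]
    simp
  have h1 : ∀ v, fderiv ℝ (fun w => Real.exp (qe u M w) * cA u w) z v =
      Real.exp (qe u M z) * PA v := by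
    intro v
    have h := hQ.exp.mul hPA
    have h' : fderiv ℝ (fun w => Real.exp (qe u M w) * cA u w) z = _ := h.fderiv
    rw [h']
    simp only [add_apply, smul_apply, smul_eq_mul, hA]
    ring
  have h2 : ∀ v, fderiv ℝ (fun w => Real.exp (qe u M w) * cB M w) z v =
      Real.exp (qe u M z) * PB v := by
    intro v
    have h := hQ.exp.mul hPB
    have h' : fderiv ℝ (fun w => Real.exp (qe u M w) * cB M w) z = _ := h.fderiv
    rw [h']
    simp only [add_apply, smul_apply, smul_eq_mul, hB]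
    ring
  unfold s2
  rw [e1, e2, h1, h2, h2, hPAv, hPBv, hPBv, hy]
  refine ⟨?_, ?_, ?_⟩
  · simp
    ring
  · simp
  · simp

/-- The height function of a ribbon disc. -/
theorem height {σ : ℂ → E3} {W A : Set ℂ} (hW : IsOpen W) (hsub : closedBall 0 1 ⊆ W)
    (hσ : ContDiffOn ℝ ∞ σ W) (hi : ∀ z ∈ closedBall (0 : ℂ) 1, Function.Injective (fderiv ℝ σ z))
    (hA : IsCompact A) (hAr : ∀ a ∈ A, a.im = 0 ∧ ‖a‖ < 1)
    (hsing : ∀ z ∈ closedBall (0 : ℂ) 1, ∀ w ∈ closedBall (0 : ℂ) 1, z ≠ w → σ z = σ w →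
      (z ∈ A ∧ w ∉ A) ∨ (w ∈ A ∧ z ∉ A)) :
    ∃ f : ℂ → ℝ, ContDiff ℝ ∞ f ∧ (∀ z ∈ sphere (0 : ℂ) 1, f z = 0) ∧
      (∀ z ∈ ball (0 : ℂ) 1, 0 < f z) ∧ (∀ z ∈ sphere (0 : ℂ) 1, fderiv ℝ f z ≠ 0) ∧
      (∀ z ∈ closedBall (0 : ℂ) 1, fderiv ℝ f z = 0 → tr σ f f 0 z < 0) ∧
      (∀ z ∈ closedBall (0 : ℂ) 1, ∀ w ∈ closedBall (0 : ℂ) 1, σ z = σ w → f z = f w → z = w) := by
  have hAs : A ⊆ closedBall 0 1 := fun a ha => mem_closedBall_zero_iff.2 (hAr a ha).2.le
  obtain ⟨B, hB, hBs, hAB, hpart⟩ := partner hW hsub hσ hi hA hAs hsing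
  obtain ⟨u, hu, M₀, hM₀, hord⟩ := order hA hAr hB hBs hAB
  have h0 : ContDiff ℝ ∞ (deriv u) := (contDiff_infty_iff_deriv.1 hu).2
  have h00 : Continuous (deriv (deriv u)) := ((contDiff_infty_iff_deriv.1 h0).2).continuous
  have hE : ∀ z ∈ closedBall (0 : ℂ) 1, 0 < ee σ 0 1 1 0 z := fun z hz => by
    rw [ee_zero]; exact e_pos (hi z hz)
  obtain ⟨K, hK⟩ := (isCompact_closedBall (0 : ℂ) 1).exists_bound_of_continuousOn
    (f := fun z => ee σ 0 Complex.I Complex.I 0 z * deriv (deriv u) z.re / (2 * ee σ 0 1 1 0 z)) (by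
      intro z hz
      have hc : ContinuousAt (fun w : ℂ => ((0 : ℝ), w)) z :=
        (Continuous.prodMk_right (0 : ℝ)).continuousAt
      have e : ∀ u v : ℂ, ContinuousAt (fun z => ee σ 0 u v 0 z) z := fun u v =>
        ContinuousAt.comp (x := z) (g := fun q : ℝ × ℂ => ee σ 0 u v q.1 q.2)
          (f := fun w => ((0 : ℝ), w))
          (ee_cont hW hσ (contDiffOn_const (c := (0 : ℝ))) u v 0 (hsub hz)) hc
      exact (((e _ _).mul (h00.comp Complex.continuous_re).continuousAt).div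
        (continuousAt_const.mul (e _ _)) (mul_pos two_pos (hE z hz)).ne').continuousWithinAt)
  set M : ℝ := max M₀ K with hM
  have hM0 : 0 ≤ M := hM₀.trans (le_max_left _ _)
  have hn2 : ∀ z : ℂ, z.re ^ 2 + z.im ^ 2 = ‖z‖ ^ 2 := fun z => by
    rw [← Complex.normSq_eq_norm_sq, Complex.normSq_apply]; ring
  have hpp0 : ∀ z ∈ closedBall (0 : ℂ) 1, 0 ≤ pp z := by
    intro z hz
    unfold pp
    rw [hn2]
    nlinarith [norm_nonneg z, mem_closedBall_zero_iff.1 hz]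
  have hppb : ∀ z ∈ ball (0 : ℂ) 1, 0 < pp z := by
    intro z hz
    unfold pp
    rw [hn2]
    nlinarith [norm_nonneg z, mem_ball_zero_iff.1 hz]
  have hpps : ∀ z ∈ sphere (0 : ℂ) 1, pp z = 0 := by
    intro z hz
    unfold pp
    rw [hn2, mem_sphere_zero_iff_norm.1 hz]
    norm_num
  -- critical points
  have hcr : ∀ z ∈ closedBall (0 : ℂ) 1, fderiv ℝ (hf u M) z = 0 →
      cA u z = 0 ∧ z.im = 0 := by
    intro z hz h
    have h1 : fderiv ℝ (hf u M) z 1 = 0 := by rw [h]; rfl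
    have h2 : fderiv ℝ (hf u M) z Complex.I = 0 := by rw [h]; rfl
    rw [hf_d hu] at h1 h2
    simp only [Complex.one_re, Complex.one_im, Complex.I_re, Complex.I_im, mul_one, mul_zero,
      add_zero, zero_add] at h1 h2
    have h3 := (mul_eq_zero.1 h1).resolve_left (Real.exp_pos _).ne'
    have h4 := (mul_eq_zero.1 h2).resolve_left (Real.exp_pos _).ne'
    refine ⟨h3, ?_⟩
    unfold cB at h4
    have h5 : 0 < 1 + M * pp z := by
      have := mul_nonneg hM0 (hpp0 z hz)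
      linarith
    have h6 := (mul_eq_zero.1 h4).resolve_right h5.ne'
    linarith
  have hsne : ∀ z ∈ sphere (0 : ℂ) 1, fderiv ℝ (hf u M) z ≠ 0 := by
    intro z hz h
    obtain ⟨h1, h2⟩ := hcr z (sphere_subset_closedBall hz) h
    unfold cA at h1
    rw [hpps z hz, zero_mul, add_zero] at h1
    have h3 : z.re = 0 := by linarith
    have h4 : z = 0 := Complex.ext h3 h2
    rw [h4] at hz
    simp at hz
  refine ⟨hf u M, hf_smooth hu M, ?_, ?_, hsne, ?_, ?_⟩
  · intro z hz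
    unfold hf
    rw [hpps z hz, zero_mul]
  · intro z hz
    exact mul_pos (hppb z hz) (Real.exp_pos _)
  · intro z hz h
    obtain ⟨h1, h2⟩ := hcr z hz h
    obtain ⟨s1, s3, s4⟩ := hf_dd hu M h1 h2
    have hd := de_pos (hf u M) (hi z hz)
    have hEz := hE z hz
    have hp := hpp0 z hz
    have e1 : tr σ (hf u M) (hf u M) 0 z = (2 * de σ (hf u M) 0 z)⁻¹ * Real.exp (qe u M z) *
        (ee σ 0 1 1 0 z * (-2 * (1 + M * pp z)) + ee σ 0 Complex.I Complex.I 0 z *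
          (-2 - 2 * z.re * deriv u z.re + pp z * deriv (deriv u) z.re)) := by
      unfold tr
      rw [s1, s3, s4]
      simp only [ee_zero, smul_eq_mul, mul_zero, sub_zero]
      ring
    rw [e1]
    refine mul_neg_of_pos_of_neg (by positivity) ?_
    have hG : 0 ≤ ee σ 0 Complex.I Complex.I 0 z := by
      rw [ee_zero, real_inner_self_eq_norm_sq]; positivity
    -- `x u' ≥ 0`
    have hxu : 0 ≤ z.re * deriv u z.re := by
      have hz1 : pp z ≠ 0 := by
        intro h0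
        have : ‖z‖ = 1 := by
          unfold pp at h0
          rw [hn2] at h0
          have h3 : ‖z‖ ^ 2 = 1 := by linarith
          nlinarith [norm_nonneg z]
        exact hsne z (mem_sphere_zero_iff_norm.2 this) h
      have hp' : 0 < pp z := lt_of_le_of_ne hp hz1.symm
      unfold cA at h1
      have h3 : pp z * deriv u z.re = 2 * z.re := by linarith
      have h4 : pp z * (z.re * deriv u z.re) = 2 * z.re ^ 2 := by
        linear_combination z.re * h3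
      by_contra hc
      push Not at hc
      have := mul_neg_of_pos_of_neg hp' hc
      nlinarith [sq_nonneg z.re]
    have hKz := hK z hz
    rw [Real.norm_eq_abs, abs_div, abs_of_pos (by positivity : 0 < 2 * ee σ 0 1 1 0 z),
      div_le_iff₀ (by positivity)] at hKz
    have hKM : K ≤ M := le_max_right _ _
    have h5 : ee σ 0 Complex.I Complex.I 0 z * deriv (deriv u) z.re ≤
        M * (2 * ee σ 0 1 1 0 z) :=
      (le_abs_self _).trans (hKz.trans (mul_le_mul_of_nonneg_right hKM (by positivity)))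
    have h6 : pp z * (ee σ 0 Complex.I Complex.I 0 z * deriv (deriv u) z.re) ≤
        pp z * (M * (2 * ee σ 0 1 1 0 z)) := mul_le_mul_of_nonneg_left h5 hp
    have h7 : 0 ≤ ee σ 0 Complex.I Complex.I 0 z * (z.re * deriv u z.re) := mul_nonneg hG hxu
    nlinarith
  · intro z hz w hw hzw hfe
    by_contra hne
    have key : ∀ a ∈ A, ∀ b ∈ closedBall (0 : ℂ) 1, b ∉ A → σ a = σ b →
        hf u M b < hf u M a := fun a ha b hb hbA hab =>
      hord M (le_max_left _ _) a ha b (hpart a ha b hb hbA hab)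
    rcases hsing z hz w hw hne hzw with ⟨h1, h2⟩ | ⟨h1, h2⟩
    · exact absurd hfe (key z h1 w hw h2 hzw).ne'
    · exact absurd hfe (key w h1 z hz h2 hzw.symm).ne

end Pool.Agent.U987.RH
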