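import Mathlib
import Pool.Agent.U987.RH.Bump
import Pool.Agent.U987.RH.Height

/-!
Changing the height function near its saddles such that the trace of the second derivative becomes
negative.
-/

set_option autoImplicit false

namespace Pool.Agent.U987.RH

open scoped ContDiff RealInnerProductSpace Topology
open Set Metric Filter

/-- Determinant of the second derivative. -/
noncomputable def hd (f : ℂ → ℝ) (z : ℂ) : ℝ :=
  s2 f 1 1 z * s2 f Complex.I Complex.I z - s2 f 1 Complex.I z ^ 2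

/-- Height functions of slice discs with projection `σ` whose critical points are saddles or have
negative trace. -/
structure Ht (σ : ℂ → E3) (W : Set ℂ) (f : ℂ → ℝ) : Prop where
  sm : ContDiffOn ℝ ∞ f W
  zero : ∀ z ∈ sphere (0 : ℂ) 1, f z = 0
  pos : ∀ z ∈ ball (0 : ℂ) 1, 0 < f z
  dz : ∀ z ∈ sphere (0 : ℂ) 1, fderiv ℝ f z ≠ 0
  inj : ∀ z ∈ closedBall (0 : ℂ) 1, ∀ w ∈ closedBall (0 : ℂ) 1, σ z = σ w → f z = f w → z = w
  cr : ∀ z ∈ closedBall (0 : ℂ) 1, fderiv ℝ f z = 0 → tr σ f f 0 z < 0 ∨ hd f z < 0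

/-- `g` orders the double points of `σ` in the same way as `f` -/
def Ord (σ : ℂ → E3) (f g : ℂ → ℝ) : Prop :=
  ∀ z ∈ closedBall (0 : ℂ) 1, ∀ w ∈ closedBall (0 : ℂ) 1, σ z = σ w → f z < f w → g z < g w

theorem s2_congr {f g : ℂ → ℝ} {z : ℂ} (h : f =ᶠ[𝓝 z] g) (u v : ℂ) : s2 f u v z = s2 g u v z := by
  unfold s2
  have h1 : (fun w => fderiv ℝ f w v) =ᶠ[𝓝 z] fun w => fderiv ℝ g w v :=
    (h.fderiv (𝕜 := ℝ)).mono fun w hw => by
      show fderiv ℝ f w v = fderiv ℝ g w v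
      rw [hw]
  rw [h1.fderiv_eq]

theorem tr_congr (σ : ℂ → E3) {f g : ℂ → ℝ} {z : ℂ} (h : f =ᶠ[𝓝 z] g) :
    tr σ f f 0 z = tr σ g g 0 z := by
  rw [tr_zero σ f g f]
  unfold tr
  rw [s2_congr h, s2_congr h, s2_congr h]

/-- The trace in terms of an orthogonal pair of vectors. -/
theorem trace_id {σ : ℂ → E3} {f : ℂ → ℝ} {z : ℂ} (h : ContDiffAt ℝ ∞ f z)
    (hi : Function.Injective (fderiv ℝ σ z)) (r s : ℝ) :
    (ee σ 0 1 1 0 z * r ^ 2 + 2 * ee σ 0 1 Complex.I 0 z * r * s +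
        ee σ 0 Complex.I Complex.I 0 z * s ^ 2) * (2 * de σ 0 0 z * tr σ f f 0 z) =
      s2 f ⟨-(ee σ 0 1 Complex.I 0 z * r + ee σ 0 Complex.I Complex.I 0 z * s),
        ee σ 0 1 1 0 z * r + ee σ 0 1 Complex.I 0 z * s⟩
        ⟨-(ee σ 0 1 Complex.I 0 z * r + ee σ 0 Complex.I Complex.I 0 z * s),
        ee σ 0 1 1 0 z * r + ee σ 0 1 Complex.I 0 z * s⟩ z +
      de σ 0 0 z * s2 f ⟨r, s⟩ ⟨r, s⟩ z := by
  have hd0 := de_pos (0 : ℂ → ℝ) hi
  have e1 : 2 * de σ 0 0 z * tr σ f f 0 z = ee σ 0 1 1 0 z * s2 f Complex.I Complex.I z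
      - 2 * ee σ 0 1 Complex.I 0 z * s2 f 1 Complex.I z
      + ee σ 0 Complex.I Complex.I 0 z * s2 f 1 1 z := by
    rw [tr_zero σ f 0 f]
    unfold tr
    simp only [smul_eq_mul]
    field_simp
  have q1 := s2_quad h ⟨-(ee σ 0 1 Complex.I 0 z * r + ee σ 0 Complex.I Complex.I 0 z * s),
        ee σ 0 1 1 0 z * r + ee σ 0 1 Complex.I 0 z * s⟩
  have q2 := s2_quad h ⟨r, s⟩
  simp only at q1 q2
  rw [e1, q1, q2]
  have e2 : de σ 0 0 z = ee σ 0 1 1 0 z * ee σ 0 Complex.I Complex.I 0 z -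
    ee σ 0 1 Complex.I 0 z ^ 2 := rfl
  rw [e2]
  ring

/-- Uniqueness of the critical point. -/
theorem uniq {f : ℂ → ℝ} {V : Set ℂ} (hV : IsOpen V) (hf : ContDiffOn ℝ ∞ f V) {z₀ : ℂ} {R : ℝ}
    (hsub : ball z₀ R ⊆ V) {e₁ e₂ : ℂ} {ξ υ : ℂ → ℝ} (hdec : ∀ v, v = ξ v • e₁ + υ v • e₂)
    (h1 : ∀ z ∈ ball z₀ R, 0 < s2 f e₁ e₁ z) (h2 : ∀ z ∈ ball z₀ R, s2 f e₂ e₂ z < 0)
    {a b : ℂ} (ha : a ∈ ball z₀ R) (hb : b ∈ ball z₀ R) (hca : fderiv ℝ f a = 0)
    (hcb : fderiv ℝ f b = 0) : a = b := by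
  by_contra hne
  set v : ℂ := b - a with hv
  have hv0 : v ≠ 0 := sub_ne_zero.2 (Ne.symm hne)
  set c : ℂ := ξ v • e₁ + (-(υ v)) • e₂ with hc
  have hseg : ∀ t ∈ Icc (0 : ℝ) 1, a + t • v ∈ ball z₀ R := by
    intro t ht
    have := (convex_ball z₀ R).add_smul_sub_mem ha hb ht
    exact this
  have hder : ∀ t ∈ Icc (0 : ℝ) 1, HasDerivAt (fun t : ℝ => fderiv ℝ f (a + t • v) c)
      (s2 f v c (a + t • v)) t := by
    intro t ht
    have hz := hsub (hseg t ht)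
    have hd : HasFDerivAt (fun w => fderiv ℝ f w c) (fderiv ℝ (fun w => fderiv ℝ f w c) (a + t • v))
        (a + t • v) := (diff_at hV (smooth_d hV hf c) hz).hasFDerivAt
    have hl : HasDerivAt (fun t : ℝ => a + t • v) v t := by
      simpa using ((hasDerivAt_id t).smul_const v).const_add a
    exact hd.comp_hasDerivAt t hl
  obtain ⟨t, ht, ht'⟩ := exists_hasDerivAt_eq_slope (fun t : ℝ => fderiv ℝ f (a + t • v) c)
    (fun t => s2 f v c (a + t • v)) one_pos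
    (fun t ht => (hder t ht).continuousAt.continuousWithinAt)
    (fun t ht => hder t (Ioo_subset_Icc_self ht))
  have ea : a + (0 : ℝ) • v = a := by simp
  have eb : a + (1 : ℝ) • v = b := by simp [hv]
  simp only [ea, eb, hca, hcb] at ht'
  have ht0 : s2 f v c (a + t • v) = 0 := by
    rw [ht']; simp
  have hzt := hseg t (Ioo_subset_Icc_self ht)
  have hsm : ContDiffAt ℝ ∞ f (a + t • v) := hf.contDiffAt (hV.mem_nhds (hsub hzt))
  have key : s2 f v c (a + t • v) = ξ v ^ 2 * s2 f e₁ e₁ (a + t • v) -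
      υ v ^ 2 * s2 f e₂ e₂ (a + t • v) := by
    have e1 : s2 f v c (a + t • v) = ξ v * s2 f e₁ c (a + t • v) + υ v * s2 f e₂ c (a + t • v) := by
      have e0 : s2 f v c (a + t • v) = s2 f (ξ v • e₁ + υ v • e₂) c (a + t • v) :=
        congrArg (fun x => s2 f x c (a + t • v)) (hdec v)
      rw [e0, s2_add_left hsm, s2_smul_left hsm, s2_smul_left hsm]
    have e3 : ∀ x, s2 f x c (a + t • v) = ξ v * s2 f e₁ x (a + t • v) +
        -(υ v) * s2 f e₂ x (a + t • v) := by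
      intro x
      rw [s2_symm hsm x c, hc, s2_add_left hsm, s2_smul_left hsm, s2_smul_left hsm]
    rw [e1, e3, e3, s2_symm hsm e₂ e₁]
    ring
  rw [key] at ht0
  have p1 := h1 _ hzt
  have p2 := h2 _ hzt
  have q1 : ξ v = 0 := by
    by_contra hx
    have : 0 < ξ v ^ 2 := by positivity
    nlinarith [sq_nonneg (υ v), mul_pos this p1]
  have q2 : υ v = 0 := by
    by_contra hx
    have : 0 < υ v ^ 2 := by positivity
    nlinarith [sq_nonneg (ξ v), mul_pos this (neg_pos.2 p2)]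
  apply hv0
  rw [hdec v, q1, q2]
  simp

/-- Sheets with the same projection are separated. -/
theorem sep {σ : ℂ → E3} {f : ℂ → ℝ} {W : Set ℂ} (hW : IsOpen W) (hsub : closedBall 0 1 ⊆ W)
    (hσ : ContDiffOn ℝ ∞ σ W) (hi : ∀ z ∈ closedBall (0 : ℂ) 1, Function.Injective (fderiv ℝ σ z))
    (h : Ht σ W f) : ∃ d > 0, ∀ z ∈ closedBall (0 : ℂ) 1, ∀ w ∈ closedBall (0 : ℂ) 1, z ≠ w →
      σ z = σ w → d ≤ |f z - f w| := by
  have hK := isCompact_closedBall (0 : ℂ) 1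
  have hloc : ∀ a : closedBall (0 : ℂ) 1, ∃ r > 0, InjOn σ (ball (a : ℂ) r) := fun a =>
    locinj (hσ.contDiffAt (hW.mem_nhds (hsub a.2))) (hi a a.2)
  choose r hr hinj using hloc
  obtain ⟨δ, hδ, hleb⟩ := lebesgue_number_lemma_of_metric
    (c := fun a : closedBall (0 : ℂ) 1 => ball (a : ℂ) (r a)) hK
    (fun a => isOpen_ball) (fun a ha => mem_iUnion.2 ⟨⟨a, ha⟩, mem_ball_self (hr _)⟩)
  have hcont : ContinuousOn σ (closedBall 0 1) := hσ.continuousOn.mono hsub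
  have hcf : ContinuousOn f (closedBall 0 1) := h.sm.continuousOn.mono hsub
  set K2 : Set (ℂ × ℂ) := closedBall (0 : ℂ) 1 ×ˢ closedBall (0 : ℂ) 1 with hK2
  have hK2c : IsCompact K2 := hK.prod hK
  have h11 : ContinuousOn (fun p : ℂ × ℂ => σ p.1) K2 :=
    hcont.comp continuousOn_fst fun p hp => hp.1
  have h12 : ContinuousOn (fun p : ℂ × ℂ => σ p.2) K2 :=
    hcont.comp continuousOn_snd fun p hp => hp.2
  have h2 : IsClosed {p | p ∈ K2 ∧ dist (σ p.1) (σ p.2) ∈ ({0} : Set ℝ)} :=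
    (continuous_dist.comp_continuousOn (h11.prodMk h12)).preimage_isClosed_of_isClosed
      hK2c.isClosed isClosed_singleton
  have h3 : IsClosed {p : ℂ × ℂ | δ ≤ dist p.1 p.2} :=
    isClosed_le continuous_const (continuous_fst.dist continuous_snd)
  have hPc : IsCompact (K2 ∩ ({p | p ∈ K2 ∧ dist (σ p.1) (σ p.2) ∈ ({0} : Set ℝ)} ∩
      {p : ℂ × ℂ | δ ≤ dist p.1 p.2})) := hK2c.inter_right (h2.inter h3)
  obtain ⟨d, hd, hdP⟩ := hPc.exists_forall_le' (f := fun p : ℂ × ℂ => |f p.1 - f p.2|) (by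
      refine ContinuousOn.abs (ContinuousOn.sub ?_ ?_)
      · exact hcf.comp continuousOn_fst fun p hp => hp.1.1
      · exact hcf.comp continuousOn_snd fun p hp => hp.1.2) (a := 0) (by
      rintro p ⟨⟨p1, p2⟩, ⟨-, p3⟩, p4⟩
      have p3' : σ p.1 = σ p.2 := dist_eq_zero.1 p3
      have p4' : δ ≤ dist p.1 p.2 := p4
      rw [abs_pos]
      intro h0
      have := h.inj _ p1 _ p2 p3' (sub_eq_zero.1 h0)
      rw [this, dist_self] at p4'
      linarith)
  refine ⟨d, hd, fun z hz w hw hne hzw => ?_⟩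
  refine hdP (z, w) ⟨⟨hz, hw⟩, ⟨⟨hz, hw⟩, dist_eq_zero.2 hzw⟩, ?_⟩
  show δ ≤ dist z w
  by_contra hc
  push Not at hc
  obtain ⟨i, hi'⟩ := hleb z hz
  exact hne (hinj i (hi' (mem_ball_self hδ)) (hi' (mem_ball.2 (by rw [dist_comm]; exact hc))) hzw)

/-- An indefinite form has a negative value. -/
theorem indef {A B C : ℝ} (h : A * C - B ^ 2 < 0) :
    ∃ r s : ℝ, r ^ 2 * A + 2 * r * s * B + s ^ 2 * C < 0 := by
  rcases lt_trichotomy A 0 with hA | hA | hA
  · exact ⟨1, 0, by linarith⟩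
  · have hB : B ≠ 0 := by
      rintro rfl
      rw [hA] at h
      simp at h
    refine ⟨-(C + 1) / (2 * B), 1, ?_⟩
    have h1 : 2 * (-(C + 1) / (2 * B)) * 1 * B = -(C + 1) := by field_simp
    rw [hA, h1]
    linarith
  · refine ⟨-B, A, ?_⟩
    nlinarith

/-- **Changing the function near one saddle.** -/
theorem step {σ : ℂ → E3} {f : ℂ → ℝ} {W : Set ℂ} (hW : IsOpen W) (hsub : closedBall 0 1 ⊆ W)
    (hσ : ContDiffOn ℝ ∞ σ W) (hi : ∀ z ∈ closedBall (0 : ℂ) 1, Function.Injective (fderiv ℝ σ z))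
    (h : Ht σ W f) {z₀ : ℂ} (hz₀ : z₀ ∈ closedBall (0 : ℂ) 1) (hc : fderiv ℝ f z₀ = 0)
    (ht : 0 ≤ tr σ f f 0 z₀) :
    (∃ R > 0, ∀ z ∈ ball z₀ R, fderiv ℝ f z = 0 → z = z₀) ∧
    ∃ f' : ℂ → ℝ, Ht σ W f' ∧ Ord σ f f' ∧ ∀ z ∈ closedBall (0 : ℂ) 1, fderiv ℝ f' z = 0 →
      0 ≤ tr σ f' f' 0 z → z ≠ z₀ ∧ fderiv ℝ f z = 0 ∧ 0 ≤ tr σ f f 0 z := by
  have hz₀b : z₀ ∈ ball (0 : ℂ) 1 := by
    rw [← ball_union_sphere] at hz₀
    exact hz₀.resolve_right fun hs => h.dz z₀ hs hc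
  have hi0 := hi z₀ hz₀
  have hsm : ContDiffAt ℝ ∞ f z₀ := h.sm.contDiffAt (hW.mem_nhds (hsub hz₀))
  have hdet : hd f z₀ < 0 := (h.cr z₀ hz₀ hc).resolve_left (not_lt.2 ht)
  obtain ⟨r, s, hrs⟩ := indef hdet
  have hD := de_pos (0 : ℂ → ℝ) hi0
  set E := ee σ 0 1 1 0 z₀ with hE
  set M := ee σ 0 1 Complex.I 0 z₀ with hM
  set G := ee σ 0 Complex.I Complex.I 0 z₀ with hG
  set D := de σ 0 0 z₀ with hDd
  set e₁ : ℂ := ⟨-(M * r + G * s), E * r + M * s⟩ with he₁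
  set e₂ : ℂ := ⟨r, s⟩ with he₂
  set n₂ : ℝ := E * r ^ 2 + 2 * M * r * s + G * s ^ 2 with hn₂
  have hn₂pos : 0 < n₂ := by
    have h1 : e₂ ≠ 0 := by
      intro h0
      have hr : r = 0 := congrArg Complex.re h0
      have hs : s = 0 := congrArg Complex.im h0
      rw [hr, hs] at hrs
      simp at hrs
    have h2 : fderiv ℝ σ z₀ e₂ ≠ 0 := fun h0 => h1 (hi0 (h0.trans (map_zero _).symm))
    have h3 : 0 < ‖fderiv ℝ σ z₀ e₂‖ ^ 2 := by positivity
    have h4 : e₂ = r • (1 : ℂ) + s • Complex.I := by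
      apply Complex.ext <;> simp [he₂]
    rw [← real_inner_self_eq_norm_sq, h4, map_add, map_smul, map_smul, inner_add_left,
      inner_add_right, inner_add_right, real_inner_smul_left, real_inner_smul_left,
      real_inner_smul_left, real_inner_smul_left, real_inner_smul_right, real_inner_smul_right,
      real_inner_smul_right, real_inner_smul_right,
      real_inner_comm (fderiv ℝ σ z₀ 1) (fderiv ℝ σ z₀ Complex.I),
      ← ee_zero σ (0 : ℂ → ℝ), ← ee_zero σ (0 : ℂ → ℝ), ← ee_zero σ (0 : ℂ → ℝ),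
      ← hE, ← hM, ← hG] at h3
    rw [hn₂]
    nlinarith
  have hb2 : s2 f e₂ e₂ z₀ < 0 := by
    rw [s2_quad hsm]
    simp only [he₂]
    linarith
  set β : ℝ := -s2 f e₂ e₂ z₀ with hβ
  have hβ0 : 0 < β := by linarith
  have hid := trace_id hsm hi0 r s
  rw [← hE, ← hM, ← hG, ← hDd, ← hn₂, ← he₁, ← he₂] at hid
  set α : ℝ := s2 f e₁ e₁ z₀ with hα
  have hαD : D * β ≤ α := by
    have h1 : 0 ≤ n₂ * (2 * D * tr σ f f 0 z₀) := by positivity
    have h2 : s2 f e₂ e₂ z₀ = -β := by rw [hβ]; ring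
    rw [hid, h2] at h1
    linarith
  have hDβ : 0 < D * β := mul_pos hD hβ0
  -- the functionals
  set ξ : ℂ →L[ℝ] ℝ := (r / n₂) • Complex.imCLM - (s / n₂) • Complex.reCLM with hξ
  have hξv : ∀ v : ℂ, ξ v = (v.im * r - v.re * s) / n₂ := by
    intro v
    rw [hξ]
    simp
    ring
  have hξ1 : ξ e₁ = 1 := by
    rw [hξv, div_eq_one_iff_eq hn₂pos.ne', hn₂]
    simp only [he₁]
    ring
  have hξ2 : ξ e₂ = 0 := by
    rw [hξv]
    simp only [he₂]
    ring
  let υ : ℂ → ℝ := fun v => (E * v.re * r + M * (v.re * s + v.im * r) + G * v.im * s) / n₂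
  have hdec : ∀ v, v = ξ v • e₁ + υ v • e₂ := by
    intro v
    rw [hξv]
    apply Complex.ext
    · simp only [Complex.add_re, Complex.real_smul, Complex.mul_re, Complex.ofReal_re,
        Complex.ofReal_im, zero_mul, sub_zero, he₁, he₂, υ]
      rw [div_mul_eq_mul_div, div_mul_eq_mul_div, ← add_div, eq_div_iff hn₂pos.ne', hn₂]
      ring
    · simp only [Complex.add_im, Complex.real_smul, Complex.mul_im, Complex.ofReal_re,
        Complex.ofReal_im, zero_mul, add_zero, he₁, he₂, υ]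
      rw [div_mul_eq_mul_div, div_mul_eq_mul_div, ← add_div, eq_div_iff hn₂pos.ne', hn₂]
      ring
  -- the profile
  set a : ℝ := α - D * β / 2 with ha
  have ha0 : 0 < a := by linarith
  set τ : ℝ := min (D * β / 8) (β / 8) with hτ
  have hτ0 : 0 < τ := lt_min (by positivity) (by positivity)
  have hτ1 : τ ≤ D * β / 8 := min_le_left _ _
  have hτ2 : τ ≤ β / 8 := min_le_right _ _
  obtain ⟨R, hR, hRs, hR0, hR1, hR11, hR22, hRl, hRu, K, hK⟩ := profile ha0 hτ0 ξ e₁ e₂ hξ1 hξ2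
  -- the neighbourhood
  have k1 : ContinuousAt (fun z => s2 f e₁ e₁ z) z₀ := cont_dd hW h.sm e₁ e₁ (hsub hz₀)
  have k2 : ContinuousAt (fun z => s2 f e₂ e₂ z) z₀ := cont_dd hW h.sm e₂ e₂ (hsub hz₀)
  have hev : ∀ᶠ z in 𝓝 z₀, α - τ < s2 f e₁ e₁ z ∧ s2 f e₂ e₂ z < -β + τ ∧ z ∈ ball (0 : ℂ) 1 := by
    refine (k1.eventually_const_lt (by linarith)).and ((k2.eventually_lt_const ?_).and
      (isOpen_ball.mem_nhds hz₀b))
    rw [hβ]
    linarith
  obtain ⟨R₀, hR₀, hball⟩ := Metric.nhds_basis_closedBall.mem_iff.1 hev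
  have hcb : closedBall z₀ R₀ ⊆ ball 0 1 := fun z hz => (hball hz).2.2
  have hbW : ball z₀ R₀ ⊆ W := fun z hz =>
    hsub (ball_subset_closedBall (hcb (ball_subset_closedBall hz)))
  obtain ⟨m, hm, hmf⟩ := (isCompact_closedBall z₀ R₀).exists_forall_le' (f := f)
    (h.sm.continuousOn.mono fun z hz => hsub (ball_subset_closedBall (hcb hz))) (a := 0)
    fun z hz => h.pos z (hcb hz)
  obtain ⟨d, hd0, hdsep⟩ := sep hW hsub hσ hi h
  have hK0 : 0 ≤ K := (abs_nonneg _).trans (hK 0)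
  obtain ⟨ε, hε, hε1, hε2, hε3⟩ : ∃ ε : ℝ, 0 < ε ∧ 2 * ε < R₀ ∧ ε ^ 2 * K < m ∧
      ε ^ 2 * K < d / 2 := by
    refine ⟨min (min 1 (R₀ / 4)) (min (m / (2 * (K + 1))) (d / (4 * (K + 1)))), ?_, ?_, ?_, ?_⟩
    · exact lt_min (lt_min one_pos (by positivity)) (lt_min (by positivity) (by positivity))
    · have : min (min 1 (R₀ / 4)) (min (m / (2 * (K + 1))) (d / (4 * (K + 1)))) ≤ R₀ / 4 :=
        (min_le_left _ _).trans (min_le_right _ _)
      linarith
    all_goals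
      have p0 : 0 < min (min 1 (R₀ / 4)) (min (m / (2 * (K + 1))) (d / (4 * (K + 1)))) :=
        lt_min (lt_min one_pos (by positivity)) (lt_min (by positivity) (by positivity))
      have p1 : min (min 1 (R₀ / 4)) (min (m / (2 * (K + 1))) (d / (4 * (K + 1)))) ≤ 1 :=
        (min_le_left _ _).trans (min_le_left _ _)
      have p2 : min (min 1 (R₀ / 4)) (min (m / (2 * (K + 1))) (d / (4 * (K + 1)))) ≤
        m / (2 * (K + 1)) := (min_le_right _ _).trans (min_le_left _ _)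
      have p3 : min (min 1 (R₀ / 4)) (min (m / (2 * (K + 1))) (d / (4 * (K + 1)))) ≤
        d / (4 * (K + 1)) := (min_le_right _ _).trans (min_le_right _ _)
      set x := min (min 1 (R₀ / 4)) (min (m / (2 * (K + 1))) (d / (4 * (K + 1))))
      have p4 : x ^ 2 ≤ x := by nlinarith
      rw [le_div_iff₀ (by positivity)] at p2 p3
      nlinarith [mul_nonneg p0.le hK0]
  -- the new function
  set ρ : ℂ → ℝ := fun w => ε ^ 2 * R (ε⁻¹ • (w - z₀)) with hρ
  have hρsm : ContDiff ℝ ∞ ρ := by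
    rw [hρ]
    exact contDiff_const.mul (hR.comp ((contDiff_id.sub contDiff_const).const_smul ε⁻¹))
  have hρ0 : ∀ w, 2 * ε ≤ ‖w - z₀‖ → ρ w = 0 := by
    intro w hw
    show ε ^ 2 * R (ε⁻¹ • (w - z₀)) = 0
    rw [hRs, mul_zero]
    rw [norm_smul, norm_inv, Real.norm_of_nonneg hε.le, ← div_eq_inv_mul, le_div_iff₀ hε]
    exact hw
  have hρK : ∀ w, |ρ w| ≤ ε ^ 2 * K := by
    intro w
    show |ε ^ 2 * R (ε⁻¹ • (w - z₀))| ≤ _
    rw [abs_mul, abs_of_pos (by positivity : 0 < ε ^ 2)]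
    exact mul_le_mul_of_nonneg_left (hK _) (by positivity)
  set f' : ℂ → ℝ := fun w => f w + ρ w with hf'
  have hfar : ∀ z, 2 * ε < ‖z - z₀‖ → f' =ᶠ[𝓝 z] f := by
    intro z hz
    have hcn : ContinuousAt (fun w : ℂ => ‖w - z₀‖) z := by fun_prop
    filter_upwards [hcn.eventually (lt_mem_nhds hz)] with w hw
    show f w + ρ w = f w
    rw [hρ0 w hw.le, add_zero]
  have hsm' : ContDiffOn ℝ ∞ f' W := h.sm.add hρsm.contDiffOn
  have hs2 : ∀ z ∈ W, ∀ u v, s2 f' u v z = s2 f u v z + s2 R u v (ε⁻¹ • (z - z₀)) := by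
    intro z hz u v
    rw [hf', s2_add (h.sm.contDiffAt (hW.mem_nhds hz)) hρsm.contDiffAt,
      (resc hR hε.ne' z₀ z).2]
  have hc' : fderiv ℝ f' z₀ = 0 := by
    have h1 : fderiv ℝ f' z₀ = _ := ((diff_at hW h.sm (hsub hz₀)).hasFDerivAt.add
      ((hρsm.differentiable (by simp)) z₀).hasFDerivAt).fderiv
    rw [h1, hc, zero_add]
    ext v
    rw [(resc hR hε.ne' z₀ z₀).1, sub_self, smul_zero, hR1]
    simp
  have huniq : ∀ z ∈ ball z₀ R₀, fderiv ℝ f' z = 0 → z = z₀ := by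
    intro z hz hcz
    refine uniq hW hsm' hbW hdec ?_ ?_ hz (mem_ball_self hR₀) hcz hc'
    · intro w hw
      rw [hs2 w (hbW hw)]
      have h1 : α - τ < s2 f e₁ e₁ w := (hball (ball_subset_closedBall hw)).1
      have h2 := hRl (ε⁻¹ • (w - z₀))
      linarith
    · intro w hw
      rw [hs2 w (hbW hw)]
      have h1 : s2 f e₂ e₂ w < -β + τ := (hball (ball_subset_closedBall hw)).2.1
      have h2 := hRu (ε⁻¹ • (w - z₀))
      linarith
  have huniq0 : ∀ z ∈ ball z₀ R₀, fderiv ℝ f z = 0 → z = z₀ := by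
    intro z hz hcz
    refine uniq hW h.sm hbW hdec ?_ ?_ hz (mem_ball_self hR₀) hcz hc
    · intro w hw
      have h1 : α - τ < s2 f e₁ e₁ w := (hball (ball_subset_closedBall hw)).1
      linarith
    · intro w hw
      have h1 : s2 f e₂ e₂ w < -β + τ := (hball (ball_subset_closedBall hw)).2.1
      linarith
  have htr' : tr σ f' f' 0 z₀ < 0 := by
    have hid' := trace_id (hsm'.contDiffAt (hW.mem_nhds (hsub hz₀))) hi0 r s
    rw [← hE, ← hM, ← hG, ← hDd, ← hn₂, ← he₁, ← he₂, hs2 z₀ (hsub hz₀), hs2 z₀ (hsub hz₀), sub_self,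
      smul_zero, hR11, hR22, ← hα] at hid'
    have h1 : n₂ * (2 * D * tr σ f' f' 0 z₀) = -(D * β / 2) := by
      rw [hid', ha, hβ]
      ring
    by_contra hcon
    push Not at hcon
    have h2 : 0 ≤ n₂ * (2 * D * tr σ f' f' 0 z₀) := by positivity
    rw [h1] at h2
    linarith
  have hcase : ∀ z, fderiv ℝ f' z = 0 → z = z₀ ∨ 2 * ε < ‖z - z₀‖ := by
    intro z hcz
    by_cases hz : 2 * ε < ‖z - z₀‖
    · exact Or.inr hz
    · left
      refine huniq z ?_ hcz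
      rw [mem_ball, dist_eq_norm]
      push Not at hz
      linarith
  have hord : Ord σ f f' := by
    intro z hz w hw hzw hlt
    have hne : z ≠ w := by
      rintro rfl
      exact lt_irrefl _ hlt
    have h1 := hdsep z hz w hw hne hzw
    rw [abs_sub_comm, abs_of_pos (by linarith)] at h1
    have h4 := abs_le.1 (hρK w)
    have h5 := abs_le.1 (hρK z)
    show f z + ρ z < f w + ρ w
    linarith [h4.1, h5.2]
  refine ⟨⟨R₀, hR₀, huniq0⟩, f', ⟨hsm', ?_, ?_, ?_, ?_, ?_⟩, hord, ?_⟩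
  · intro z hz
    show f z + ρ z = 0
    rw [h.zero z hz, hρ0, add_zero]
    by_contra hcon
    push Not at hcon
    have h1 : z ∈ closedBall z₀ R₀ := by
      rw [mem_closedBall, dist_eq_norm]; linarith
    have h2 := mem_ball_zero_iff.1 (hcb h1)
    rw [mem_sphere_zero_iff_norm.1 hz] at h2
    exact lt_irrefl _ h2
  · intro z hz
    show 0 < f z + ρ z
    by_cases hzr : z ∈ closedBall z₀ R₀
    · have h1 := hmf z hzr
      have h2 := (abs_le.1 (hρK z)).1
      linarith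
    · rw [hρ0, add_zero]
      · exact h.pos z hz
      · rw [mem_closedBall, dist_eq_norm] at hzr
        push Not at hzr
        linarith
  · intro z hz
    have hfz : 2 * ε < ‖z - z₀‖ := by
      by_contra hcon
      push Not at hcon
      have h1 : z ∈ closedBall z₀ R₀ := by
        rw [mem_closedBall, dist_eq_norm]; linarith
      have h2 := mem_ball_zero_iff.1 (hcb h1)
      rw [mem_sphere_zero_iff_norm.1 hz] at h2
      exact lt_irrefl _ h2
    rw [(hfar z hfz).fderiv_eq]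
    exact h.dz z hz
  · intro z hz w hw hzw hfe
    by_contra hne
    have h1 := hdsep z hz w hw hne hzw
    have h2 : f z - f w = ρ w - ρ z := by
      have : f z + ρ z = f w + ρ w := hfe
      linarith
    rw [h2] at h1
    have h3 : |ρ w - ρ z| ≤ |ρ w| + |ρ z| := abs_sub _ _
    have h4 := hρK w
    have h5 := hρK z
    linarith
  · intro z hz hcz
    rcases hcase z hcz with rfl | hfz
    · exact Or.inl htr'
    · have he := hfar z hfz
      rw [he.fderiv_eq] at hcz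
      rcases h.cr z hz hcz with h1 | h1
      · left; rw [tr_congr σ he]; exact h1
      · right
        unfold hd at h1 ⊢
        rw [s2_congr he, s2_congr he, s2_congr he]
        exact h1
  · intro z hz hcz htz
    rcases hcase z hcz with rfl | hfz
    · exact absurd htr' (not_lt.2 htz)
    · have he := hfar z hfz
      refine ⟨?_, ?_, ?_⟩
      · rintro rfl
        rw [sub_self, norm_zero] at hfz
        linarith
      · rw [← he.fderiv_eq]; exact hcz
      · rw [← tr_congr σ he]; exact htz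

/-- **All saddles.** -/
theorem repair {σ : ℂ → E3} {W : Set ℂ} (hW : IsOpen W) (hsub : closedBall 0 1 ⊆ W)
    (hσ : ContDiffOn ℝ ∞ σ W) (hi : ∀ z ∈ closedBall (0 : ℂ) 1, Function.Injective (fderiv ℝ σ z))
    {f : ℂ → ℝ} (h : Ht σ W f) :
    ∃ f' : ℂ → ℝ, Ht σ W f' ∧ Ord σ f f' ∧
      ∀ z ∈ closedBall (0 : ℂ) 1, fderiv ℝ f' z = 0 → tr σ f' f' 0 z < 0 := by
  -- the bad points are finite in number
  have hfin : {z | z ∈ closedBall (0 : ℂ) 1 ∧ fderiv ℝ f z = 0 ∧ 0 ≤ tr σ f f 0 z}.Finite := by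
    set S := {z | z ∈ closedBall (0 : ℂ) 1 ∧ fderiv ℝ f z = 0 ∧ 0 ≤ tr σ f f 0 z} with hS
    have hSc : IsCompact S := by
      have c1 : ContinuousOn (fun z => ‖fderiv ℝ f z‖) (closedBall 0 1) :=
        ((h.sm.continuousOn_fderiv_of_isOpen hW (by simp)).mono hsub).norm
      have c2 : ContinuousOn (fun z => tr σ f f 0 z) (closedBall 0 1) := fun z hz =>
        (tr_cont0 hW hσ h.sm h.sm (hsub hz) (de_pos f (hi z hz)).ne').continuousWithinAt
      have i1 := c1.preimage_isClosed_of_isClosed isClosed_closedBall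
        (isClosed_singleton (x := (0 : ℝ)))
      have i2 := c2.preimage_isClosed_of_isClosed isClosed_closedBall (isClosed_Ici (a := (0 : ℝ)))
      refine (isCompact_closedBall (0 : ℂ) 1).of_isClosed_subset ?_ (fun z hz => hz.1)
      convert i1.inter i2 using 1
      ext z
      simp only [hS, mem_ofPred_eq, mem_inter_iff, mem_preimage, mem_singleton_iff, norm_eq_zero,
        mem_Ici]
      tauto
    have hU : ∀ z ∈ S, ∃ U ∈ 𝓝 z, ∀ w ∈ U, w ∈ S → w = z := by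
      intro z hz
      obtain ⟨⟨R, hR, hu⟩, -⟩ := step hW hsub hσ hi h hz.1 hz.2.1 hz.2.2
      exact ⟨ball z R, ball_mem_nhds z hR, fun w hw hwS => hu w hw hwS.2.1⟩
    choose! U hU1 hU2 using hU
    obtain ⟨t, htS, hcov⟩ := hSc.elim_nhds_subcover U hU1
    refine t.finite_toSet.subset fun z hz => ?_
    obtain ⟨x, hx, hzx⟩ := mem_iUnion₂.1 (hcov hz)
    rw [hU2 x (htS x hx) z hzx hz]
    exact hx
  -- induction
  suffices H : ∀ n : ℕ, ∀ g : ℂ → ℝ, Ht σ W g → ∀ t : Finset ℂ, t.card = n →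
      (∀ z ∈ closedBall (0 : ℂ) 1, fderiv ℝ g z = 0 → 0 ≤ tr σ g g 0 z → z ∈ t) →
      ∃ f' : ℂ → ℝ, Ht σ W f' ∧ Ord σ g f' ∧
        ∀ z ∈ closedBall (0 : ℂ) 1, fderiv ℝ f' z = 0 → tr σ f' f' 0 z < 0 by
    exact H _ f h hfin.toFinset rfl fun z hz h1 h2 => hfin.mem_toFinset.2 ⟨hz, h1, h2⟩
  intro n
  induction n with
  | zero =>
    intro g hg t ht hcov
    refine ⟨g, hg, fun _ _ _ _ _ h => h, fun z hz hcz => ?_⟩
    by_contra hcon
    push Not at hcon
    have := hcov z hz hcz hcon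
    rw [Finset.card_eq_zero.1 ht] at this
    exact absurd this (Finset.notMem_empty z)
  | succ n ih =>
    intro g hg t ht hcov
    by_cases hall : ∀ z ∈ closedBall (0 : ℂ) 1, fderiv ℝ g z = 0 → tr σ g g 0 z < 0
    · exact ⟨g, hg, fun _ _ _ _ _ h => h, hall⟩
    · push Not at hall
      obtain ⟨z, hz, h1, h2⟩ := hall
      obtain ⟨-, g', hg', ho, hb⟩ := step hW hsub hσ hi hg hz h1 h2
      have hzt := hcov z hz h1 h2
      obtain ⟨f', c1, c2, c3⟩ := ih g' hg' (t.erase z)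
        (by rw [Finset.card_erase_of_mem hzt, ht]; rfl) (by
          intro w hw k1 k2
          obtain ⟨m1, m2, m3⟩ := hb w hw k1 k2
          exact Finset.mem_erase.2 ⟨m1, hcov w hw m2 m3⟩)
      exact ⟨f', c1, fun a ha b hb' hab hlt => c2 a ha b hb' hab (ho a ha b hb' hab hlt), c3⟩

end Pool.Agent.U987.RH
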