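import Mathlib
import Pool.Agent.U987.RH.Sad

/-!
Interpolation of the heights of two slice discs with the same immersed projection.
-/

set_option autoImplicit false

namespace Pool.Agent.U987.RH

open scoped ContDiff RealInnerProductSpace Topology
open Set Metric Filter

/-- The derivative of the height in the inward direction is positive at the boundary. -/
theorem inward {φ : ℂ → E4} (h : SliceDisc φ) {z : ℂ} (hz : z ∈ sphere (0 : ℂ) 1) :
    0 < fderiv ℝ (fun w => φ w 3) z (-z) := by
  obtain ⟨W, hW, hsub, hs⟩ := h.smooth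
  have hzn : ‖z‖ = 1 := mem_sphere_zero_iff_norm.1 hz
  have hz0 : z ≠ 0 := by
    rintro rfl
    simp at hzn
  have hF : ContDiffOn ℝ ∞ (fun w => φ w 3) W :=
    (EuclideanSpace.proj (3 : Fin 4) : E4 →L[ℝ] ℝ).contDiff.comp_contDiffOn hs
  have hd : HasFDerivAt (fun w => φ w 3) (fderiv ℝ (fun w => φ w 3) z) z :=
    ((hF.contDiffAt (hW.mem_nhds (hsub (sphere_subset_closedBall hz)))).differentiableAt
      (by simp)).hasFDerivAt
  have h0 := h.bdry z hz
  -- tangential derivative
  have htan : fderiv ℝ (fun w => φ w 3) z (Complex.I * z) = 0 := by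
    have h1 : HasDerivAt (fun t : ℝ => Complex.exp (t * Complex.I) * z) (Complex.I * z) 0 := by
      have h2 : HasDerivAt (fun t : ℝ => (t : ℂ) * Complex.I) Complex.I 0 := by
        have := (Complex.ofRealCLM.hasDerivAt (x := (0 : ℝ))).mul_const Complex.I
        simpa using this
      have h3 := h2.cexp
      have h4 := h3.mul_const z
      simpa using h4
    have h5 : HasFDerivAt (fun w => φ w 3) (fderiv ℝ (fun w => φ w 3) z)
        (Complex.exp (((0 : ℝ) : ℂ) * Complex.I) * z) := by
      simpa using hd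
    have h6 := h5.comp_hasDerivAt (0 : ℝ) h1
    have h7 : ((fun w => φ w 3) ∘ fun t : ℝ => Complex.exp (t * Complex.I) * z) = fun _ => 0 := by
      funext t
      apply h.bdry
      rw [mem_sphere_zero_iff_norm, norm_mul, Complex.norm_exp_ofReal_mul_I, hzn, one_mul]
    rw [h7] at h6
    exact h6.unique (hasDerivAt_const _ _)
  -- the inward derivative is nonnegative
  have hnn : 0 ≤ fderiv ℝ (fun w => φ w 3) z (-z) := by
    by_contra hcon
    push Not at hcon
    have h1 : HasDerivAt (fun t : ℝ => z + t • (-z)) (-z) 0 := by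
      have := ((hasDerivAt_id (0 : ℝ)).smul_const (-z)).const_add z
      simpa using this
    have h5 : HasFDerivAt (fun w => φ w 3) (fderiv ℝ (fun w => φ w 3) z) (z + (0 : ℝ) • (-z)) := by
      simpa using hd
    have h6 := h5.comp_hasDerivAt (0 : ℝ) h1
    have h8 : ∀ᶠ t in 𝓝[>] (0 : ℝ), ((fun w => φ w 3) ∘ fun t : ℝ => z + t • (-z)) t < 0 := by
      have h9 := h6.hasDerivWithinAt (s := Ioi (0 : ℝ))
      have h10 := (hasDerivWithinAt_iff_tendsto_slope' (by simp)).1 h9
      have h11 := h10.eventually (gt_mem_nhds hcon)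
      filter_upwards [h11, self_mem_nhdsWithin] with t ht ht0
      have ht0' : (0 : ℝ) < t := ht0
      rw [slope_def_field] at ht
      have h12 : ((fun w => φ w 3) ∘ fun t : ℝ => z + t • (-z)) 0 = 0 := by
        show φ (z + (0 : ℝ) • (-z)) 3 = 0
        rw [zero_smul, add_zero]
        exact h0
      rw [h12, sub_zero, sub_zero] at ht
      by_contra hc
      push Not at hc
      exact absurd ht (not_lt.2 (div_nonneg hc ht0'.le))
    have h13 : ∀ᶠ t in 𝓝[>] (0 : ℝ), t < 1 :=
      nhdsWithin_le_nhds (gt_mem_nhds one_pos)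
    obtain ⟨t, ⟨ht1, ht2⟩, ht3⟩ := ((h8.and h13).and self_mem_nhdsWithin).exists
    have ht3' : (0 : ℝ) < t := ht3
    have h14 : z + t • (-z) ∈ ball (0 : ℂ) 1 := by
      rw [mem_ball_zero_iff, smul_neg, ← sub_eq_add_neg]
      have : z - t • z = (1 - t) • z := by rw [sub_smul, one_smul]
      rw [this, norm_smul, hzn, mul_one, Real.norm_of_nonneg (by linarith)]
      linarith
    exact absurd (h.inside _ h14) (not_lt.2 ht1.le)
  refine lt_of_le_of_ne hnn fun hne => ?_
  apply h.trans z hz
  ext v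
  have hv : v = (-(v / z).re) • (-z) + (v / z).im • (Complex.I * z) := by
    have h1 : v = (v / z) * z := (div_mul_cancel₀ v hz0).symm
    conv_lhs => rw [h1, ← Complex.re_add_im (v / z)]
    rw [Complex.real_smul, Complex.real_smul]
    push_cast
    ring
  rw [hv, map_add, map_smul, map_smul, htan, ← hne]
  simp

/-- **Interpolation** of the heights. -/
theorem interp {φ ψ : ℂ → E4} (h : SliceDisc φ) (h' : SliceDisc ψ) (hh : ∀ z, hor (ψ z) = hor (φ z))
    (him : ∀ z ∈ closedBall (0 : ℂ) 1, Function.Injective (fderiv ℝ (fun w => hor (φ w)) z))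
    (ho : Ord (fun w => hor (φ w)) (fun w => φ w 3) (fun w => ψ w 3)) : IsoStep φ ψ := by
  obtain ⟨W, hW, hsub, hs⟩ := h.smooth
  obtain ⟨W', hW', hsub', hs'⟩ := h'.smooth
  have p3 : ContDiff ℝ ∞ fun x : E4 => x 3 :=
    (EuclideanSpace.proj (3 : Fin 4) : E4 →L[ℝ] ℝ).contDiff
  have hup : ∀ c : ℝ, (c • up) 3 = c := by
    intro c
    rw [PiLp.smul_apply, smul_eq_mul]
    simp [up]
  have hup0 : hor up = 0 := hor_up
  have hhor : ∀ t : ℝ, ∀ z, hor (φ z + (t * (ψ z 3 - φ z 3)) • up) = hor (φ z) := by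
    intro t z
    rw [← horC_apply, map_add, map_smul, horC_apply, horC_apply, hup0, smul_zero, add_zero]
  have h3 : ∀ t : ℝ, ∀ z, (φ z + (t * (ψ z 3 - φ z 3)) • up) 3 =
      (1 - t) * φ z 3 + t * ψ z 3 := by
    intro t z
    rw [PiLp.add_apply, hup]
    ring
  have hb : ∀ z ∈ sphere (0 : ℂ) 1, ∀ t : ℝ, φ z + (t * (ψ z 3 - φ z 3)) • up = φ z := by
    intro z hz t
    rw [h'.bdry z hz, h.bdry z hz, sub_zero, mul_zero, zero_smul, add_zero]
  refine ⟨fun t z => φ z + (t * (ψ z 3 - φ z 3)) • up, ⟨univ ×ˢ (W ∩ W'),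
    isOpen_univ.prod (hW.inter hW'), prod_mono (subset_univ _) (subset_inter hsub hsub'), ?_⟩,
    ?_, ?_, ?_⟩
  · have k0 : ContDiffOn ℝ ∞ (fun p : ℝ × ℂ => φ p.2) (univ ×ˢ (W ∩ W')) :=
      hs.comp contDiff_snd.contDiffOn fun p hp => hp.2.1
    have k1 : ContDiffOn ℝ ∞ (fun p : ℝ × ℂ => ψ p.2) (univ ×ˢ (W ∩ W')) :=
      hs'.comp contDiff_snd.contDiffOn fun p hp => hp.2.2
    exact k0.add ((contDiff_fst.contDiffOn.mul ((p3.comp_contDiffOn k1).sub
      (p3.comp_contDiffOn k0))).smul contDiffOn_const)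
  · intro t ht
    refine ⟨?_, fun z hz => hb z hz t⟩
    have ht0 := ht.1
    have ht1 : 0 ≤ 1 - t := by linarith [ht.2]
    have hsm : ContDiffOn ℝ ∞ (fun z => φ z + (t * (ψ z 3 - φ z 3)) • up) (W ∩ W') :=
      (hs.mono inter_subset_left).add ((contDiffOn_const.mul ((p3.comp_contDiffOn
        (hs'.mono inter_subset_right)).sub (p3.comp_contDiffOn (hs.mono inter_subset_left)))).smul
          contDiffOn_const)
    have key : ∀ {a b a' b' : ℝ}, a < b → a' < b' → (1 - t) * a + t * a' < (1 - t) * b + t * b' := by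
      intro a b a' b' k1 k2
      rcases ht0.eq_or_lt with h6 | h6
      · rw [← h6]
        linarith
      · have e1 := mul_lt_mul_of_pos_left k2 h6
        have e2 := mul_le_mul_of_nonneg_left k1.le ht1
        linarith
    refine ⟨⟨W ∩ W', hW.inter hW', subset_inter hsub hsub', hsm⟩, ?_, ?_, ?_, ?_, ?_⟩
    · intro z hz w hw hzw
      have e1 : hor (φ z) = hor (φ w) := by
        rw [← hhor t z, ← hhor t w]
        exact congrArg hor hzw
      have e2 : (1 - t) * φ z 3 + t * ψ z 3 = (1 - t) * φ w 3 + t * ψ w 3 := by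
        rw [← h3, ← h3]
        exact congrArg (fun x : E4 => x 3) hzw
      rcases lt_trichotomy (φ z 3) (φ w 3) with hlt | heq | hgt
      · have h4 : ψ z 3 < ψ w 3 := ho z hz w hw e1 hlt
        exact absurd e2 (key hlt h4).ne
      · apply h.inj hz hw
        rw [← decomp (φ z), ← decomp (φ w), e1, heq]
      · have h4 : ψ w 3 < ψ z 3 := ho w hw z hz e1.symm hgt
        exact absurd e2 (key hgt h4).ne'
    · intro z hz a b hab
      have hd : HasFDerivAt (fun z => φ z + (t * (ψ z 3 - φ z 3)) • up)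
          (fderiv ℝ (fun z => φ z + (t * (ψ z 3 - φ z 3)) • up) z) z :=
        ((hsm.contDiffAt ((hW.inter hW').mem_nhds ⟨hsub hz, hsub' hz⟩)).differentiableAt
          (by simp)).hasFDerivAt
      have h4 := (horC.hasFDerivAt (x := φ z + (t * (ψ z 3 - φ z 3)) • up)).comp z hd
      have h5 : (horC ∘ fun z => φ z + (t * (ψ z 3 - φ z 3)) • up) = fun w => hor (φ w) := by
        funext w
        exact hhor t w
      rw [h5] at h4
      apply him z hz
      rw [h4.fderiv]
      exact congrArg horC hab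
    · intro z hz
      show 0 < (φ z + (t * (ψ z 3 - φ z 3)) • up) 3
      rw [h3]
      have h4 := h.inside z hz
      have h5 := h'.inside z hz
      rcases ht0.eq_or_lt with h6 | h6
      · rw [← h6]
        linarith
      · have := mul_pos h6 h5
        have := mul_nonneg ht1 h4.le
        linarith
    · intro z hz
      show (φ z + (t * (ψ z 3 - φ z 3)) • up) 3 = 0
      rw [hb z hz]
      exact h.bdry z hz
    · intro z hz h0
      have e : (fun w => (φ w + (t * (ψ w 3 - φ w 3)) • up) 3) =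
          fun w => (1 - t) * φ w 3 + t * ψ w 3 := funext fun w => h3 t w
      have hd1 : HasFDerivAt (fun w => φ w 3) (fderiv ℝ (fun w => φ w 3) z) z :=
        (((p3.comp_contDiffOn hs).contDiffAt (hW.mem_nhds
          (hsub (sphere_subset_closedBall hz)))).differentiableAt (by simp)).hasFDerivAt
      have hd2 : HasFDerivAt (fun w => ψ w 3) (fderiv ℝ (fun w => ψ w 3) z) z :=
        (((p3.comp_contDiffOn hs').contDiffAt (hW'.mem_nhds
          (hsub' (sphere_subset_closedBall hz)))).differentiableAt (by simp)).hasFDerivAt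
      have hd3 := (hd1.const_mul (1 - t)).add (hd2.const_mul t)
      have h4 : fderiv ℝ (fun w => (φ w + (t * (ψ w 3 - φ w 3)) • up) 3) z (-z) = 0 := by
        rw [h0]
        rfl
      rw [e] at h4
      have h5 : fderiv ℝ (fun w => (1 - t) * φ w 3 + t * ψ w 3) z = _ := hd3.fderiv
      rw [h5] at h4
      have h6 : (1 - t) * fderiv ℝ (fun w => φ w 3) z (-z) +
          t * fderiv ℝ (fun w => ψ w 3) z (-z) = 0 := h4
      have h7 := inward h hz
      have h8 := inward h' hz
      rcases ht0.eq_or_lt with h9 | h9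
      · rw [← h9] at h6
        linarith
      · have := mul_pos h9 h8
        have := mul_nonneg ht1 h7.le
        linarith
  · funext z
    beta_reduce
    rw [zero_mul, zero_smul, add_zero]
  · funext z
    have e1 := hhor 1 z
    have e3 : (φ z + (1 * (ψ z 3 - φ z 3)) • up) 3 = ψ z 3 := by
      rw [h3]
      ring
    show φ z + (1 * (ψ z 3 - φ z 3)) • up = ψ z
    calc φ z + (1 * (ψ z 3 - φ z 3)) • up
        = emb (hor (φ z + (1 * (ψ z 3 - φ z 3)) • up)) +
          (φ z + (1 * (ψ z 3 - φ z 3)) • up) 3 • up := (decomp _).symm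
      _ = emb (hor (ψ z)) + ψ z 3 • up := by rw [e1, ← hh, e3]
      _ = ψ z := decomp _

end Pool.Agent.U987.RH
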