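import Mathlib
import Pool.Agent.U987.RH.Height

/-!
Ribbon discs have parametrisations of hyperbolic mean curvature less than one; squeezed discs.
-/

set_option autoImplicit false

namespace Pool.Agent.U987.RH

open scoped ContDiff RealInnerProductSpace Topology
open Set Metric Filter

/-- The disc `(σ, δ F)` is a slice disc. -/
theorem sq_slice {σ : ℂ → E3} {F : ℂ → ℝ} {W : Set ℂ} (hW : IsOpen W) (hsub : closedBall 0 1 ⊆ W)
    (hσ : ContDiffOn ℝ ∞ σ W) (hF : ContDiffOn ℝ ∞ F W)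
    (hi : ∀ z ∈ closedBall (0 : ℂ) 1, Function.Injective (fderiv ℝ σ z))
    (h0 : ∀ z ∈ sphere (0 : ℂ) 1, F z = 0) (hpos : ∀ z ∈ ball (0 : ℂ) 1, 0 < F z)
    (ht : ∀ z ∈ sphere (0 : ℂ) 1, fderiv ℝ F z ≠ 0)
    (hinj : ∀ z ∈ closedBall (0 : ℂ) 1, ∀ w ∈ closedBall (0 : ℂ) 1, σ z = σ w → F z = F w → z = w)
    {δ : ℝ} (hδ : 0 < δ) : SliceDisc (sq σ F δ) where
  smooth := by
    refine ⟨W, hW, hsub, ?_⟩
    exact (emb.contDiff.comp_contDiffOn hσ).add ((contDiffOn_const.mul hF).smul contDiffOn_const)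
  inj := by
    intro z hz w hw h
    have h1 := congrArg hor h
    rw [hor_sq, hor_sq] at h1
    have h2 := congrArg (fun x : E4 => x 3) h
    simp only [sq_three] at h2
    exact hinj z hz w hw h1 (mul_left_cancel₀ hδ.ne' h2)
  imm := by
    intro z hz a b hab
    have h1 := diff_at hW hσ (hsub hz)
    have h2 := diff_at hW hF (hsub hz)
    rw [sq_fderiv δ h1 h2, sq_fderiv δ h1 h2] at hab
    have h3 := congrArg hor hab
    rw [hor_pt, hor_pt] at h3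
    exact hi z hz h3
  inside := by
    intro z hz
    rw [sq_three]
    exact mul_pos hδ (hpos z hz)
  bdry := by
    intro z hz
    rw [sq_three, h0 z hz, mul_zero]
  trans := by
    intro z hz h
    simp only [sq_three] at h
    rw [fderiv_const_mul (diff_at hW hF (hsub (sphere_subset_closedBall hz)))] at h
    exact ht z hz ((smul_eq_zero.1 h).resolve_left hδ.ne')

/-- Uniformity. -/
theorem uniform {σ : ℂ → E3} {F : ℂ → ℝ} {W : Set ℂ} (hW : IsOpen W) (hsub : closedBall 0 1 ⊆ W)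
    (hσ : ContDiffOn ℝ ∞ σ W) (hF : ContDiffOn ℝ ∞ F W)
    (hi : ∀ z ∈ closedBall (0 : ℂ) 1, Function.Injective (fderiv ℝ σ z)) {c : ℝ}
    (h : ∀ z ∈ closedBall (0 : ℂ) 1, ∃ X, rr σ F X 0 z < c) :
    ∃ c' < c, ∃ δ₀ > 0, ∀ δ ∈ Ioo 0 δ₀, ∀ z ∈ closedBall (0 : ℂ) 1,
      hypMean (sq σ F δ) z ^ 2 < 1 + δ ^ 2 * c' := by
  refine (isCompact_closedBall (0 : ℂ) 1).induction_on
    (p := fun S => ∃ c' < c, ∃ δ₀ > 0, ∀ δ ∈ Ioo 0 δ₀, ∀ z ∈ S,
      hypMean (sq σ F δ) z ^ 2 < 1 + δ ^ 2 * c') ?_ ?_ ?_ ?_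
  · exact ⟨c - 1, by linarith, 1, one_pos, fun δ _ z hz => absurd hz (notMem_empty z)⟩
  · rintro S T hST ⟨c', h1, δ₀, h2, h3⟩
    exact ⟨c', h1, δ₀, h2, fun δ hδ z hz => h3 δ hδ z (hST hz)⟩
  · rintro S T ⟨c₁, h1, δ₁, h2, h3⟩ ⟨c₂, k1, δ₂, k2, k3⟩
    refine ⟨max c₁ c₂, max_lt h1 k1, min δ₁ δ₂, lt_min h2 k2, fun δ hδ z hz => ?_⟩
    have a1 : δ ^ 2 * c₁ ≤ δ ^ 2 * max c₁ c₂ :=
      mul_le_mul_of_nonneg_left (le_max_left _ _) (sq_nonneg _)
    have a2 : δ ^ 2 * c₂ ≤ δ ^ 2 * max c₁ c₂ :=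
      mul_le_mul_of_nonneg_left (le_max_right _ _) (sq_nonneg _)
    rcases hz with hz | hz
    · have := h3 δ ⟨hδ.1, hδ.2.trans_le (min_le_left _ _)⟩ z hz
      linarith
    · have := k3 δ ⟨hδ.1, hδ.2.trans_le (min_le_right _ _)⟩ z hz
      linarith
  · intro z hz
    obtain ⟨X, hX⟩ := h z hz
    obtain ⟨c', h1, h2⟩ := exists_between hX
    obtain ⟨ε, hε, h3⟩ := local_sq hW hσ hF (hsub hz) (de_pos F (hi z hz)).ne' h1
    exact ⟨ball z ε, mem_nhdsWithin_of_mem_nhds (ball_mem_nhds z hε), c', h2, ε, hε,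
      fun δ hδ w hw => h3 w hw δ hδ⟩

/-- From a height function to a flat disc of mean curvature less than one. -/
theorem flat {σ : ℂ → E3} {f : ℂ → ℝ} {W : Set ℂ} (hW : IsOpen W) (hsub : closedBall 0 1 ⊆ W)
    (hσ : ContDiffOn ℝ ∞ σ W) (hf : ContDiffOn ℝ ∞ f W)
    (him : ∀ z ∈ closedBall (0 : ℂ) 1, Function.Injective (fderiv ℝ σ z))
    (f0 : ∀ z ∈ sphere (0 : ℂ) 1, f z = 0) (fpos : ∀ z ∈ ball (0 : ℂ) 1, 0 < f z)
    (fd : ∀ z ∈ sphere (0 : ℂ) 1, fderiv ℝ f z ≠ 0)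
    (fcr : ∀ z ∈ closedBall (0 : ℂ) 1, fderiv ℝ f z = 0 → tr σ f f 0 z < 0)
    (finj : ∀ z ∈ closedBall (0 : ℂ) 1, ∀ w ∈ closedBall (0 : ℂ) 1, σ z = σ w → f z = f w → z = w)
    {ε : ℝ} (hε : 0 < ε) :
    ∃ φ : ℂ → E4, SliceDisc φ ∧ (∀ z, hor (φ z) = σ z) ∧
      (∀ z w, f z < f w → φ z 3 < φ w 3) ∧
      (∀ z ∈ closedBall (0 : ℂ) 1, φ z 3 < ε) ∧
      ∃ c < 1, ∀ z ∈ closedBall (0 : ℂ) 1, hypMean φ z ≤ c := by
  have hball : closedBall (0 : ℂ) 1 = ball 0 1 ∪ sphere 0 1 := ball_union_sphere.symm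
  obtain ⟨A', C, hA', hC, hst⟩ := steep hW hsub hσ hf him
    (fun z hz => by
      rw [hball] at hz
      rcases hz with hz | hz
      · exact (fpos z hz).le
      · exact (f0 z hz).ge)
    (fun z hz hz0 => by
      rw [hball] at hz
      rcases hz with hz | hz
      · exact absurd hz0 (fpos z hz).ne'
      · exact fd z hz) fcr
  set F : ℂ → ℝ := fun w => hh A' C (f w) with hFd
  have hF : ContDiffOn ℝ ∞ F W := (hh_smooth A' C).comp_contDiffOn hf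
  obtain ⟨c, hc, δ₀, hδ₀, hu⟩ := uniform hW hsub hσ hF him (c := 0) hst
  obtain ⟨S, hS⟩ := (isCompact_closedBall (0 : ℂ) 1).exists_bound_of_continuousOn
    (f := F) (hF.continuousOn.mono hsub)
  have hS0 : 0 ≤ S := (norm_nonneg _).trans (hS 0 (by simp))
  obtain ⟨δ, hδ, hδ1⟩ : ∃ δ : ℝ, 0 < δ ∧ δ < min δ₀ (ε / (S + 1)) :=
    exists_between (lt_min hδ₀ (by positivity))
  have d1 : δ < δ₀ := hδ1.trans_le (min_le_left _ _)
  have d2 : δ < ε / (S + 1) := hδ1.trans_le (min_le_right _ _)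
  refine ⟨sq σ F δ, sq_slice hW hsub hσ hF him ?_ ?_ ?_ ?_ hδ, hor_sq σ F δ, ?_, ?_, ?_⟩
  · intro z hz
    show hh A' C (f z) = 0
    rw [f0 z hz, hh_zero]
  · intro z hz
    exact hh_pos hA' hC (fpos z hz)
  · intro z hz h0
    have hd : DifferentiableAt ℝ f z := diff_at hW hf (hsub (sphere_subset_closedBall hz))
    apply fd z hz
    ext v
    have h1 : fderiv ℝ F z v = 0 := by rw [h0]; rfl
    rw [hFd, comp_d A' C hd] at h1
    exact (mul_eq_zero.1 h1).resolve_left (hh1_pos hA' hC _).ne'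
  · intro z hz w hw h1 h2
    exact finj z hz w hw h1 ((hh_strictMono hA' hC).injective h2)
  · intro z w hlt
    rw [sq_three, sq_three]
    exact mul_lt_mul_of_pos_left (hh_strictMono hA' hC hlt) hδ
  · intro z hz
    rw [sq_three]
    have h1 : F z ≤ S := (le_abs_self _).trans (hS z hz)
    rw [lt_div_iff₀ (by positivity)] at d2
    nlinarith
  · have h1 : 0 ≤ 1 + δ ^ 2 * c := (sq_nonneg _).trans (hu δ ⟨hδ, d1⟩ 0 (by simp)).le
    refine ⟨√(1 + δ ^ 2 * c), ?_, fun z hz => Real.le_sqrt_of_sq_le (hu δ ⟨hδ, d1⟩ z hz).le⟩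
    rw [Real.sqrt_lt' one_pos, one_pow]
    have : 0 < δ ^ 2 := pow_pos hδ 2
    nlinarith

/-- **Ribbon discs.** An immersed disc with ribbon singularities can be pushed into the half-space, by
arbitrarily little, to a slice disc of mean curvature less than one. -/
theorem one {σ : ℂ → E3} (h : RibbonDisc σ) {ε : ℝ} (hε : 0 < ε) :
    ∃ φ : ℂ → E4, SliceDisc φ ∧ (∀ z, hor (φ z) = σ z) ∧
      (∀ z ∈ closedBall (0 : ℂ) 1, φ z 3 < ε) ∧
      ∃ c < 1, ∀ z ∈ closedBall (0 : ℂ) 1, hypMean φ z ≤ c := by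
  obtain ⟨W, hW, hsub, hσ⟩ := h.smooth
  obtain ⟨A, hA, hAr, hsing⟩ := h.sing
  obtain ⟨f, hf, f0, fpos, fd, fcr, finj⟩ := height hW hsub hσ h.imm hA hAr hsing
  obtain ⟨φ, c1, c2, -, c3, c4⟩ := flat hW hsub hσ hf.contDiffOn h.imm f0 fpos fd fcr finj hε
  exact ⟨φ, c1, c2, c3, c4⟩

/-- **Squeezed discs.** -/
theorem three {φ : ℂ → E4} (h : SliceDisc φ)
    (him : ∀ z ∈ closedBall (0 : ℂ) 1, Function.Injective (fderiv ℝ (fun w => hor (φ w)) z))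
    {ε : ℝ} (hε : 0 < ε) :
    ∃ δ₀ > 0, ∀ δ ∈ Ioo 0 δ₀, ∃ ψ : ℂ → E4, SliceDisc ψ ∧ (∀ z, hor (ψ z) = hor (φ z)) ∧
      (∀ z, ψ z 3 = δ * φ z 3) ∧ ∀ z ∈ closedBall (0 : ℂ) 1, hypMean ψ z < 1 + ε := by
  obtain ⟨W, hW, hsub, hφ⟩ := h.smooth
  have hσ : ContDiffOn ℝ ∞ (fun w => hor (φ w)) W := horC.contDiff.comp_contDiffOn hφ
  have hF : ContDiffOn ℝ ∞ (fun w => φ w 3) W :=
    (EuclideanSpace.proj (3 : Fin 4) : E4 →L[ℝ] ℝ).contDiff.comp_contDiffOn hφ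
  have hcont : ContinuousOn (fun z => rr (fun w => hor (φ w)) (fun w => φ w 3) 0 0 z)
      (closedBall 0 1) := by
    intro z hz
    have hc : ContinuousAt (fun w : ℂ => ((0 : ℝ), w)) z :=
      (Continuous.prodMk_right (0 : ℝ)).continuousAt
    exact (ContinuousAt.comp (x := z)
      (g := fun q : ℝ × ℂ => rr (fun w => hor (φ w)) (fun w => φ w 3) 0 q.1 q.2)
      (f := fun w => ((0 : ℝ), w))
      (rr_cont hW hσ hF 0 0 (hsub hz) (de_pos _ (him z hz)).ne') hc).continuousWithinAt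
  obtain ⟨S, hS⟩ := (isCompact_closedBall (0 : ℂ) 1).exists_bound_of_continuousOn hcont
  have hS0 : 0 ≤ S := (norm_nonneg _).trans (hS 0 (by simp))
  obtain ⟨c, hc, δ₁, hδ₁, hu⟩ := uniform hW hsub hσ hF him (c := S + 1) (fun z hz =>
    ⟨0, (le_abs_self _).trans_lt ((hS z hz).trans_lt (by linarith))⟩)
  refine ⟨min δ₁ (ε / (S + 1) ⊓ 1), lt_min hδ₁ (lt_min (by positivity) one_pos), fun δ hδ => ?_⟩
  have e1 := hδ.2.trans_le (min_le_left _ _)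
  have e2 := hδ.2.trans_le ((min_le_right _ _).trans (min_le_left _ _))
  have e3 := hδ.2.trans_le ((min_le_right _ _).trans (min_le_right _ _))
  refine ⟨sq (fun w => hor (φ w)) (fun w => φ w 3) δ, sq_slice hW hsub hσ hF him h.bdry h.inside
    h.trans ?_ hδ.1, hor_sq _ _ δ, sq_three _ _ δ, fun z hz => ?_⟩
  · intro z hz w hw h1 h2
    apply h.inj hz hw
    rw [← decomp (φ z), ← decomp (φ w)]
    simp only at h1 h2
    rw [h1, h2]
  · have h1 := hu δ ⟨hδ.1, e1⟩ z hz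
    rw [lt_div_iff₀ (by positivity)] at e2
    have h2 : δ ^ 2 * c ≤ ε := by
      have a1 : δ ^ 2 * c ≤ δ ^ 2 * (S + 1) := mul_le_mul_of_nonneg_left hc.le (sq_nonneg _)
      have a2 : δ ^ 2 ≤ δ := by nlinarith [hδ.1]
      have a3 : δ ^ 2 * (S + 1) ≤ δ * (S + 1) := mul_le_mul_of_nonneg_right a2 (by positivity)
      linarith
    have h3 := hypMean_nonneg (sq (fun w => hor (φ w)) (fun w => φ w 3) δ) z
    by_contra hc'
    push Not at hc'
    nlinarith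

end Pool.Agent.U987.RH
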