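import Mathlib
import Pool.Agent.U987.RH.Dir
import Pool.Agent.U987.RH.One

/-!
Slice discs of mean curvature at most one are ribbon discs.
-/

set_option autoImplicit false

namespace Pool.Agent.U987.RH

open scoped ContDiff RealInnerProductSpace ENNReal NNReal Topology
open MeasureTheory Set Metric Filter
open Pool.Agent.Y503.RB (d1 d2 fff sff fffDet nor Frame zc mk4)
open Pool.Agent.N503.ML Pool.Agent.N15.RC Pool.Agent.N503.WI

theorem SliceDisc.at {φ : ℂ → E4} (h : SliceDisc φ) {z : ℂ} (hz : z ∈ closedBall (0 : ℂ) 1) :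
    ContDiffAt ℝ ∞ φ z := by
  obtain ⟨W, hW, hsub, hs⟩ := h.smooth
  exact hs.contDiffAt (hW.mem_nhds (hsub hz))

theorem SliceDisc.patch {φ : ℂ → E4} (h : SliceDisc φ) : IPatch φ (ball 0 1) := by
  obtain ⟨W, hW, hsub, hs⟩ := h.smooth
  exact ⟨isOpen_ball, hs.mono (ball_subset_closedBall.trans hsub),
    fun z hz => h.imm z (ball_subset_closedBall hz)⟩

/-- The critical points of the height stay away from the boundary. -/
theorem away {φ : ℂ → E4} (h : SliceDisc φ) : ∃ r c₀ : ℝ, 0 ≤ r ∧ r < 1 ∧ 0 < c₀ ∧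
    ∀ z ∈ closedBall (0 : ℂ) 1, r ≤ ‖z‖ → c₀ ≤ ‖fderiv ℝ (fun w => φ w 3) z‖ := by
  obtain ⟨W, hW, hsub, hs⟩ := h.smooth
  have hF : ContDiffOn ℝ ∞ (fun w => φ w 3) W :=
    (EuclideanSpace.proj (3 : Fin 4) : E4 →L[ℝ] ℝ).contDiff.comp_contDiffOn hs
  have hc : ContinuousOn (fun z => ‖fderiv ℝ (fun w => φ w 3) z‖) (closedBall 0 1) :=
    ((hF.continuousOn_fderiv_of_isOpen hW (by simp)).mono hsub).norm
  -- critical points
  have hK : IsCompact {z | z ∈ closedBall (0 : ℂ) 1 ∧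
      ‖fderiv ℝ (fun w => φ w 3) z‖ ∈ ({0} : Set ℝ)} :=
    (isCompact_closedBall (0 : ℂ) 1).of_isClosed_subset
      (hc.preimage_isClosed_of_isClosed isClosed_closedBall isClosed_singleton) fun z hz => hz.1
  obtain ⟨s, hs0, hs⟩ := hK.exists_forall_le' (f := fun z : ℂ => 1 - ‖z‖) (by fun_prop) (a := 0) (by
    rintro z ⟨hz, hz0⟩
    have h1 : ‖z‖ ≤ 1 := mem_closedBall_zero_iff.1 hz
    have h2 : ‖z‖ ≠ 1 := fun h2 =>
      h.trans z (mem_sphere_zero_iff_norm.2 h2) (norm_eq_zero.1 hz0)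
    have : ‖z‖ < 1 := lt_of_le_of_ne h1 h2
    linarith)
  obtain ⟨r, hr0, hr1, hrs⟩ : ∃ r : ℝ, 0 ≤ r ∧ r < 1 ∧ 1 - s < r := by
    refine ⟨max 0 (1 - s / 2), le_max_left _ _, max_lt one_pos (by linarith), ?_⟩
    exact lt_of_lt_of_le (by linarith) (le_max_right _ _)
  have hK2 : IsCompact (closedBall (0 : ℂ) 1 ∩ {z | r ≤ ‖z‖}) :=
    (isCompact_closedBall (0 : ℂ) 1).inter_right (isClosed_le continuous_const continuous_norm)
  obtain ⟨c₀, hc₀, hcc⟩ := hK2.exists_forall_le' (hc.mono inter_subset_left) (a := 0) (by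
    rintro z ⟨hz, hz1⟩
    rw [norm_pos_iff]
    intro h0
    have := hs z ⟨hz, by rw [h0]; simp⟩
    have hz1' : r ≤ ‖z‖ := hz1
    linarith)
  exact ⟨r, c₀, hr0, hr1, hc₀, fun z hz h1 => hcc z ⟨hz, h1⟩⟩

/-- Vertical deformations, as an isotopy. -/
theorem lift_slice {φ : ℂ → E4} (h : SliceDisc φ) {g : ℝ → ℝ} (hgm : Monotone g)
    (hgs : ContDiff ℝ ∞ g) (hgn : ∀ t, 0 ≤ g t) {t₁ : ℝ} (ht₁ : 0 < t₁) (hg0 : ∀ t, t ≤ t₁ → g t = 0)
    {T : ℝ} {q : E4} (hq : q 3 = 0) (hT0 : ∀ z ∈ closedBall (0 : ℂ) 1, 0 < T + ⟪q, φ z⟫) :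
    SliceDisc (fun w => lift g T q (φ w)) := by
  obtain ⟨W, hW, hWsub, hWs⟩ := h.smooth
  set ψ : ℂ → E4 := fun w => lift g T q (φ w) with hψ
  have hψ3 : ∀ z, ψ z 3 = φ z 3 + g (φ z 3) * (T + ⟪q, φ z⟫) := fun z => lift_three _ _ _ _
  have hψeq : ∀ z, g (φ z 3) = 0 → ψ z = φ z := by
    intro z hz
    rw [hψ]
    show φ z + (g (φ z 3) * (T + ⟪q, φ z⟫)) • vert = φ z
    rw [hz, zero_mul, zero_smul, add_zero]
  have hsph : ∀ z ∈ sphere (0 : ℂ) 1, ψ z = φ z := fun z hz =>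
    hψeq z (hg0 _ (by rw [h.bdry z hz]; exact ht₁.le))
  refine ⟨?_, ?_, ?_, ?_, ?_, ?_⟩
  · refine ⟨W, hW, hWsub, ?_⟩
    have e1 : ContDiffOn ℝ ∞ (fun w => φ w 3) W :=
      (EuclideanSpace.proj (3 : Fin 4) : E4 →L[ℝ] ℝ).contDiff.comp_contDiffOn hWs
    have e2 : ContDiffOn ℝ ∞ (fun w => ⟪q, φ w⟫) W :=
      (innerSL ℝ q).contDiff.comp_contDiffOn hWs
    exact hWs.add (((hgs.comp_contDiffOn e1).mul (contDiffOn_const.add e2)).smul
      contDiffOn_const)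
  · intro a ha b hb hab
    exact h.inj ha hb (lift_inj hgm hq (hT0 a ha) hab)
  · intro z hz
    exact (lift_deriv hgm hgs hq (h.at hz) (hT0 z hz) (h.imm z hz)).2
  · intro z hz
    rw [hψ3]
    have := mul_nonneg (hgn (φ z 3)) (hT0 z (ball_subset_closedBall hz)).le
    linarith [h.inside z hz]
  · intro z hz
    rw [hsph z hz]
    exact h.bdry z hz
  · intro z hz
    have hsm := h.at (sphere_subset_closedBall hz)
    have hc3 : ContinuousAt (fun w => φ w 3) z :=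
      ((EuclideanSpace.proj (3 : Fin 4) : E4 →L[ℝ] ℝ).continuous.continuousAt).comp
        hsm.continuousAt
    have hlt : φ z 3 < t₁ := by rw [h.bdry z hz]; exact ht₁
    have hev : (fun w => ψ w 3) =ᶠ[𝓝 z] fun w => φ w 3 := by
      filter_upwards [hc3.eventually (gt_mem_nhds hlt)] with w hw
      rw [hψeq w (hg0 _ hw.le)]
    rw [hev.fderiv_eq]
    exact h.trans z hz

theorem lift_iso {φ : ℂ → E4} (h : SliceDisc φ) {g : ℝ → ℝ} (hgm : Monotone g)
    (hgs : ContDiff ℝ ∞ g) (hgn : ∀ t, 0 ≤ g t) {t₁ : ℝ} (ht₁ : 0 < t₁) (hg0 : ∀ t, t ≤ t₁ → g t = 0)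
    {T : ℝ} {q : E4} (hq : q 3 = 0) (hT0 : ∀ z ∈ closedBall (0 : ℂ) 1, 0 < T + ⟪q, φ z⟫) :
    IsoStep φ (fun w => lift g T q (φ w)) := by
  obtain ⟨W, hW, hWsub, hWs⟩ := h.smooth
  refine ⟨fun s w => φ w + (s * (g (φ w 3) * (T + ⟪q, φ w⟫))) • vert, ⟨univ ×ˢ W,
    isOpen_univ.prod hW, prod_mono (subset_univ _) hWsub, ?_⟩, ?_, ?_, ?_⟩
  · have k0 : ContDiffOn ℝ ∞ (fun p : ℝ × ℂ => φ p.2) (univ ×ˢ W) :=
      hWs.comp contDiff_snd.contDiffOn fun p hp => hp.2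
    have e1 : ContDiffOn ℝ ∞ (fun p : ℝ × ℂ => φ p.2 3) (univ ×ˢ W) :=
      (EuclideanSpace.proj (3 : Fin 4) : E4 →L[ℝ] ℝ).contDiff.comp_contDiffOn k0
    have e2 : ContDiffOn ℝ ∞ (fun p : ℝ × ℂ => ⟪q, φ p.2⟫) (univ ×ˢ W) :=
      (innerSL ℝ q).contDiff.comp_contDiffOn k0
    exact k0.add ((contDiff_fst.contDiffOn.mul ((hgs.comp_contDiffOn e1).mul
      (contDiffOn_const.add e2))).smul contDiffOn_const)
  · intro s hs
    have hsph : ∀ z ∈ sphere (0 : ℂ) 1, φ z + (s * (g (φ z 3) * (T + ⟪q, φ z⟫))) • vert = φ z := by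
      intro z hz
      rw [hg0 _ (by rw [h.bdry z hz]; exact ht₁.le), zero_mul, mul_zero, zero_smul, add_zero]
    refine ⟨?_, hsph⟩
    rcases hs.1.eq_or_lt with h0 | h0
    · have e : (fun w => φ w + (s * (g (φ w 3) * (T + ⟪q, φ w⟫))) • vert) = φ := by
        funext w
        rw [← h0, zero_mul, zero_smul, add_zero]
      beta_reduce
      rw [e]
      exact h
    · have e : (fun w => φ w + (s * (g (φ w 3) * (T + ⟪q, φ w⟫))) • vert) =
          fun w => lift g (s * T) (s • q) (φ w) := by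
        funext w
        show _ = φ w + (g (φ w 3) * (s * T + ⟪s • q, φ w⟫)) • vert
        rw [real_inner_smul_left]
        congr 2
        ring
      beta_reduce
      rw [e]
      refine lift_slice h hgm hgs hgn ht₁ hg0 ?_ ?_
      · show s * q 3 = 0
        rw [hq, mul_zero]
      · intro z hz
        rw [real_inner_smul_left, ← mul_add]
        exact mul_pos h0 (hT0 z hz)
  · funext w
    beta_reduce
    rw [zero_mul, zero_smul, add_zero]
  · funext w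
    show φ w + (1 * (g (φ w 3) * (T + ⟪q, φ w⟫))) • vert = φ w + (g (φ w 3) * (T + ⟪q, φ w⟫)) • vert
    rw [one_mul]

/-- A vertical deformation in a generic direction close to the vertical one, which does not move the
boundary, makes the height a Morse function. -/
theorem core {φ : ℂ → E4} (h : SliceDisc φ) {ε : ℝ} (hε : 0 < ε) :
    ∃ r η : ℝ, r < 1 ∧ 0 < η ∧ ∀ y : E4, y 3 = 1 → ‖y - vert‖ < η →
      (∀ z ∈ ball (0 : ℂ) 1, (∀ v : ℂ, ⟪y, d1 φ v z⟫ = 0) → kdet φ y z ≠ 0) →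
      ∃ (ψ : ℂ → E4) (T : ℝ), IsoStep φ ψ ∧ SliceDisc ψ ∧ (∀ z, hor (ψ z) = hor (φ z)) ∧
        (∀ z ∈ sphere (0 : ℂ) 1, ψ z = φ z) ∧
        (∀ z ∈ closedBall (0 : ℂ) 1, |ψ z 3 - φ z 3| < ε) ∧ MorseHeight ψ ∧
        ∀ z ∈ ball (0 : ℂ) 1, fderiv ℝ (fun w => ψ w 3) z = 0 →
          z ∈ closedBall (0 : ℂ) r ∧ (∀ v, ⟪y, d1 φ v z⟫ = 0) ∧
          ((fun w => ψ w 3) =ᶠ[𝓝 z] fun w => ⟪y, φ w⟫ + T) := by
  obtain ⟨W, hW, hWsub, hWs⟩ := h.smooth
  obtain ⟨r, c₀, hr0, hr1, hc₀, hcr⟩ := away h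
  have hcont : ContinuousOn φ (closedBall 0 1) := hWs.continuousOn.mono hWsub
  have hdc : ContinuousOn (fderiv ℝ φ) (closedBall 0 1) :=
    (hWs.continuousOn_fderiv_of_isOpen hW (by simp)).mono hWsub
  obtain ⟨D₀, hD₀⟩ := (isCompact_closedBall (0 : ℂ) 1).exists_bound_of_continuousOn hcont
  obtain ⟨D₁, hD₁⟩ := (isCompact_closedBall (0 : ℂ) 1).exists_bound_of_continuousOn hdc
  have hD₀0 : 0 ≤ D₀ := (norm_nonneg _).trans (hD₀ 0 (by simp))
  have hD₁0 : 0 ≤ D₁ := (norm_nonneg _).trans (hD₁ 0 (by simp))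
  have hsub : closedBall (0 : ℂ) r ⊆ ball 0 1 := closedBall_subset_ball hr1
  -- the direction
  obtain ⟨η, hη0, hη1, hη2⟩ : ∃ η : ℝ, 0 < η ∧ η * D₁ < c₀ ∧ η * (2 * D₀ + 1) < ε := by
    refine ⟨min (c₀ / (2 * (D₁ + 1))) (ε / (2 * (2 * D₀ + 1))),
      lt_min (by positivity) (by positivity), ?_, ?_⟩
    · have h1 : min (c₀ / (2 * (D₁ + 1))) (ε / (2 * (2 * D₀ + 1))) ≤ c₀ / (2 * (D₁ + 1)) :=
        min_le_left _ _
      have h2 : c₀ / (2 * (D₁ + 1)) * (D₁ + 1) = c₀ / 2 := by field_simp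
      have h3 : 0 < c₀ / (2 * (D₁ + 1)) := by positivity
      nlinarith
    · have h1 : min (c₀ / (2 * (D₁ + 1))) (ε / (2 * (2 * D₀ + 1))) ≤ ε / (2 * (2 * D₀ + 1)) :=
        min_le_right _ _
      have h2 : ε / (2 * (2 * D₀ + 1)) * (2 * D₀ + 1) = ε / 2 := by field_simp
      have h3 := mul_le_mul_of_nonneg_right h1 (by positivity : 0 ≤ 2 * D₀ + 1)
      linarith
  refine ⟨r, η, hr1, hη0, fun y hy3 hyη hyn => ?_⟩
  set q : E4 := y - vert with hqd
  have hq : q 3 = 0 := by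
    have : q 3 = y 3 - vert 3 := rfl
    rw [this, hy3, vert_three, sub_self]
  have hyq : ∀ x : E4, ⟪y, x⟫ = x 3 + ⟪q, x⟫ := by
    intro x
    rw [hqd, inner_sub_left, inner_vert]; ring
  have hqφ : ∀ z ∈ closedBall (0 : ℂ) 1, |⟪q, φ z⟫| ≤ η * D₀ := by
    intro z hz
    exact (abs_real_inner_le_norm _ _).trans
      (mul_le_mul hyη.le (hD₀ z hz) (norm_nonneg _) hη0.le)
  -- the constant `T`
  set T : ℝ := η * (D₀ + 1) with hT
  have hT0 : ∀ z ∈ closedBall (0 : ℂ) 1, 0 < T + ⟪q, φ z⟫ := by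
    intro z hz
    have := (abs_le.1 (hqφ z hz)).1
    rw [hT]
    nlinarith
  have hT1 : ∀ z ∈ closedBall (0 : ℂ) 1, T + ⟪q, φ z⟫ < ε := by
    intro z hz
    have := (abs_le.1 (hqφ z hz)).2
    rw [hT]
    nlinarith
  -- the height `t₀`
  obtain ⟨t₀, ht₀, ht₁⟩ := (isCompact_closedBall (0 : ℂ) r).exists_forall_le'
    (f := fun z => φ z 3) ((EuclideanSpace.proj (3 : Fin 4) : E4 →L[ℝ] ℝ).continuous.comp_continuousOn
      (hcont.mono (hsub.trans ball_subset_closedBall))) (a := 0) (fun z hz => h.inside z (hsub hz))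
  set g : ℝ → ℝ := fun t => Real.smoothTransition (4 / t₀ * t - 1) with hgd
  have hgm : Monotone g := fun a b hab => Real.smoothTransition.monotone (by
    have := mul_le_mul_of_nonneg_left hab (by positivity : 0 ≤ 4 / t₀)
    linarith)
  have hgs : ContDiff ℝ ∞ g := Real.smoothTransition.contDiff.comp (by fun_prop)
  have hg0 : ∀ t, t ≤ t₀ / 4 → g t = 0 := fun t ht => Real.smoothTransition.zero_of_nonpos (by
    have : 4 / t₀ * t ≤ 1 := by
      rw [div_mul_eq_mul_div, div_le_one ht₀]; linarith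
    linarith)
  have hg1 : ∀ t, t₀ / 2 ≤ t → g t = 1 := fun t ht => Real.smoothTransition.one_of_one_le (by
    have : 2 ≤ 4 / t₀ * t := by
      rw [div_mul_eq_mul_div, le_div_iff₀ ht₀]; linarith
    linarith)
  have hgn : ∀ t, 0 ≤ g t := fun t => Real.smoothTransition.nonneg _
  have hgl : ∀ t, g t ≤ 1 := fun t => Real.smoothTransition.le_one _
  set ψ : ℂ → E4 := fun w => lift g T q (φ w) with hψ
  have hψ3 : ∀ z, ψ z 3 = φ z 3 + g (φ z 3) * (T + ⟪q, φ z⟫) := fun z => lift_three _ _ _ _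
  have hψeq : ∀ z, g (φ z 3) = 0 → ψ z = φ z := by
    intro z hz
    rw [hψ]
    show φ z + (g (φ z 3) * (T + ⟪q, φ z⟫)) • vert = φ z
    rw [hz, zero_mul, zero_smul, add_zero]
  have hsph : ∀ z ∈ sphere (0 : ℂ) 1, ψ z = φ z := fun z hz =>
    hψeq z (hg0 _ (by rw [h.bdry z hz]; positivity))
  have hhor : ∀ z, hor (ψ z) = hor (φ z) := by
    intro z
    show hor (φ z + (g (φ z 3) * (T + ⟪q, φ z⟫)) • vert) = hor (φ z)
    have hv : hor vert = 0 := hor_up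
    rw [← horC_apply, map_add, map_smul, horC_apply, horC_apply, hv, smul_zero, add_zero]
  -- critical points of the new height
  have key : ∀ z ∈ ball (0 : ℂ) 1, fderiv ℝ (fun w => ψ w 3) z = 0 →
      z ∈ closedBall (0 : ℂ) r ∧ (∀ v, ⟪y, d1 φ v z⟫ = 0) ∧
      ((fun w => ψ w 3) =ᶠ[𝓝 z] fun w => ⟪y, φ w⟫ + T) := by
    intro z hz hcrit
    have hzc := ball_subset_closedBall hz
    have hsm := h.at hzc
    by_cases hzr : z ∈ closedBall (0 : ℂ) r
    · have hh : t₀ / 2 < φ z 3 := by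
        have := ht₁ z hzr
        linarith
      have hev : (fun w => ψ w 3) =ᶠ[𝓝 z] fun w => ⟪y, φ w⟫ + T := by
        have hc3 : ContinuousAt (fun w => φ w 3) z :=
          ((EuclideanSpace.proj (3 : Fin 4) : E4 →L[ℝ] ℝ).continuous.continuousAt).comp
            hsm.continuousAt
        filter_upwards [hc3.eventually (lt_mem_nhds hh)] with w hw
        rw [hψ3, hg1 _ hw.le, one_mul, hyq]
        ring
      refine ⟨hzr, fun v => ?_, hev⟩
      rw [← (hess hsm y T).1 v, ← hev.fderiv_eq, hcrit]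
      rfl
    · exfalso
      have hrz : r ≤ ‖z‖ := by
        by_contra hcon
        push Not at hcon
        exact hzr (mem_closedBall_zero_iff.2 hcon.le)
      have h1 := hcr z hzc hrz
      -- derivative of the new height
      have hd : DifferentiableAt ℝ φ z := hsm.differentiableAt (by simp)
      have h3 : HasFDerivAt (fun w => φ w 3)
          ((EuclideanSpace.proj (3 : Fin 4) : E4 →L[ℝ] ℝ).comp (fderiv ℝ φ z)) z :=
        (EuclideanSpace.proj (3 : Fin 4) : E4 →L[ℝ] ℝ).hasFDerivAt.comp z hd.hasFDerivAt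
      have hgd' : HasDerivAt g (deriv g (φ z 3)) (φ z 3) :=
        ((hgs.differentiable (by simp)) _).hasDerivAt
      have h4 := hgd'.comp_hasFDerivAt z h3
      have h5 : HasFDerivAt (fun w => T + ⟪q, φ w⟫) ((innerSL ℝ q).comp (fderiv ℝ φ z)) z :=
        ((innerSL ℝ q).hasFDerivAt.comp z hd.hasFDerivAt).const_add T
      have h6 := h3.add (h4.mul h5)
      have h7 : (fun w => ψ w 3) = fun w => φ w 3 + g (φ w 3) * (T + ⟪q, φ w⟫) := by
        funext w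
        exact hψ3 w
      rw [h7] at hcrit
      have h8 : ∀ v, (1 + deriv g (φ z 3) * (T + ⟪q, φ z⟫)) * (fderiv ℝ (fun w => φ w 3) z v) =
          -(g (φ z 3) * ⟪q, fderiv ℝ φ z v⟫) := by
        intro v
        have e1 : fderiv ℝ (fun w => φ w 3 + g (φ w 3) * (T + ⟪q, φ w⟫)) z v = 0 := by
          rw [hcrit]; rfl
        have e2 : fderiv ℝ (fun w => φ w 3 + g (φ w 3) * (T + ⟪q, φ w⟫)) z = _ := h6.fderiv
        rw [e2] at e1
        rw [h3.fderiv]
        simp only [add_apply, smul_apply, smul_eq_mul,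
          ContinuousLinearMap.comp_apply, Function.comp_apply, innerSL_apply_apply] at e1 ⊢
        linear_combination e1
      have h9 : 1 ≤ 1 + deriv g (φ z 3) * (T + ⟪q, φ z⟫) := by
        have := mul_nonneg (hgm.deriv_nonneg (x := φ z 3)) (hT0 z hzc).le
        linarith
      have h10 : ‖fderiv ℝ (fun w => φ w 3) z‖ ≤ η * D₁ := by
        refine ContinuousLinearMap.opNorm_le_bound _ (by positivity) fun v => ?_
        have a1 : ‖(1 + deriv g (φ z 3) * (T + ⟪q, φ z⟫)) * (fderiv ℝ (fun w => φ w 3) z v)‖ ≤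
            η * D₁ * ‖v‖ := by
          rw [h8, norm_neg, norm_mul, Real.norm_of_nonneg (hgn _)]
          have a2 : ‖⟪q, fderiv ℝ φ z v⟫‖ ≤ η * (D₁ * ‖v‖) := by
            refine (norm_inner_le_norm _ _).trans ?_
            refine mul_le_mul hyη.le ?_ (norm_nonneg _) hη0.le
            exact ((fderiv ℝ φ z).le_opNorm v).trans
              (mul_le_mul_of_nonneg_right (hD₁ z hzc) (norm_nonneg _))
          calc g (φ z 3) * ‖⟪q, fderiv ℝ φ z v⟫‖ ≤ 1 * (η * (D₁ * ‖v‖)) :=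
                mul_le_mul (hgl _) a2 (norm_nonneg _) zero_le_one
            _ = η * D₁ * ‖v‖ := by ring
        rw [norm_mul, Real.norm_of_nonneg (by linarith)] at a1
        have a3 := mul_le_mul_of_nonneg_right h9 (norm_nonneg (fderiv ℝ (fun w => φ w 3) z v))
        linarith
      linarith
  have ht4 : 0 < t₀ / 4 := by positivity
  have hdisc : SliceDisc ψ := lift_slice h hgm hgs hgn ht4 hg0 hq hT0
  have hiso : IsoStep φ ψ := lift_iso h hgm hgs hgn ht4 hg0 hq hT0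
  refine ⟨ψ, T, hiso, hdisc, hhor, hsph, ?_, ?_, key⟩
  · intro z hz
    rw [hψ3, add_sub_cancel_left, abs_of_nonneg (mul_nonneg (hgn _) (hT0 z hz).le)]
    calc g (φ z 3) * (T + ⟪q, φ z⟫) ≤ 1 * (T + ⟪q, φ z⟫) :=
          mul_le_mul_of_nonneg_right (hgl _) (hT0 z hz).le
      _ < ε := by rw [one_mul]; exact hT1 z hz
  · intro z hz hcrit u hu
    obtain ⟨-, h1, h2⟩ := key z hz hcrit
    have hsm := h.at (ball_subset_closedBall hz)
    refine nondegE hsm (hyn z hz h1) (fun v => ?_) (u := u)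
    rw [← (hess hsm y T).2 u v, ← h2.fderiv.fderiv_eq]
    exact hu v

/-- **Slice discs of mean curvature at most one**: an arbitrarily small vertical deformation, which
does not move the boundary, turns the disc into a disc on which the height is a Morse function without
local minima. -/
theorem two {φ : ℂ → E4} (h : SliceDisc φ) (hH : ∀ z ∈ ball (0 : ℂ) 1, hypMean φ z ≤ 1)
    {ε : ℝ} (hε : 0 < ε) :
    ∃ ψ : ℂ → E4, IsoStep φ ψ ∧ SliceDisc ψ ∧ (∀ z, hor (ψ z) = hor (φ z)) ∧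
      (∀ z ∈ sphere (0 : ℂ) 1, ψ z = φ z) ∧
      (∀ z ∈ closedBall (0 : ℂ) 1, |ψ z 3 - φ z 3| < ε) ∧ MorseHeight ψ ∧
      ∀ z ∈ ball (0 : ℂ) 1, ¬ IsLocalMin (fun w => ψ w 3) z := by
  obtain ⟨r, η, hr1, hη0, hcore⟩ := core h hε
  obtain ⟨y, hy3, hyη, hyn, hyc⟩ := good_dir h.patch hH h.inside hr1 hη0
  obtain ⟨ψ, T, a0, a1, a2, a3, a4, a5, key⟩ := hcore y hy3 hyη hyn
  refine ⟨ψ, a0, a1, a2, a3, a4, a5, ?_⟩
  intro z hz hmin
  obtain ⟨h0, h1, h2⟩ := key z hz hmin.fderiv_eq_zero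
  have hy0 : 0 < y 3 := by rw [hy3]; exact one_pos
  apply hyc z h0
  refine crit_of_max (h.at (ball_subset_closedBall hz)).neg hy0 (T := -T) ?_ ?_
  · have e1 : ∀ᶠ w in 𝓝 z, ψ z 3 ≤ ψ w 3 := hmin
    have e2 : ψ z 3 = ⟪y, φ z⟫ + T := h2.self_of_nhds
    filter_upwards [e1, h2] with w g1 g2
    rw [g2, e2] at g1
    have a1 : ⟪y, opp φ w⟫ = -⟪y, φ w⟫ := inner_neg_right _ _
    have a2 : ⟪y, opp φ z⟫ = -⟪y, φ z⟫ := inner_neg_right _ _
    show ⟪y, opp φ w⟫ + -T ≤ ⟪y, opp φ z⟫ + -T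
    rw [a1, a2]
    linarith
  · exact (kdet_opp φ y z).symm ▸ hyn z hz h1

/-- A generic direction, arbitrarily close to the vertical one. -/
theorem gen_dir {φ : ℂ → E4} (hP : IPatch φ (ball 0 1)) {η : ℝ} (hη : 0 < η) :
    ∃ y : E4, y 3 = 1 ∧ ‖y - vert‖ < η ∧
      ∀ z ∈ ball (0 : ℂ) 1, (∀ v : ℂ, ⟪y, d1 φ v z⟫ = 0) → kdet φ y z ≠ 0 := by
  obtain ⟨Z, hZ, hZ2⟩ := sard hP
  set ε : ℝ := min (1 / 2) (η / 2) with hεd
  have hε : 0 < ε := lt_min (by norm_num) (by linarith)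
  have hε1 : ε < 1 := (min_le_left _ _).trans_lt (by norm_num)
  have hεη : ε < η := (min_le_right _ _).trans_lt (by linarith)
  obtain ⟨y, hyB, hyN⟩ : ∃ y ∈ box ε, y ∉ Z := by
    by_contra hcon
    push Not at hcon
    have h1 := measure_mono (μ := volume) hcon
    rw [hZ, vol_box' hε, nonpos_iff_eq_zero, ENNReal.ofReal_eq_zero] at h1
    have : 0 < ε ^ 3 / 256 := by positivity
    linarith
  obtain ⟨b1, b2, b3, b4, b5, b6⟩ := box_facts hε1 hyB
  have hy3 : 0 < (y 3)⁻¹ := inv_pos.2 (by linarith)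
  refine ⟨(y 3)⁻¹ • y, ?_, ?_, ?_⟩
  · show (y 3)⁻¹ * y 3 = 1
    exact inv_mul_cancel₀ (by linarith)
  · have hv : ∀ i, i ≠ 3 → (vert : E4) i = 0 := by
      intro i hi
      unfold vert
      simp [hi]
    have hlt : ∀ i, i ≠ 3 → ((y 3)⁻¹ • y - vert) i ^ 2 ≤ (ε / 2) ^ 2 := by
      intro i hi
      have e : ((y 3)⁻¹ • y - vert) i = (y 3)⁻¹ * y i - (vert : E4) i := rfl
      rw [e, hv i hi, sub_zero, mul_pow, ← sq_abs (y i)]
      have h1 := b3 i hi
      have h2 : (y 3)⁻¹ ≤ 4 := by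
        rw [inv_le_comm₀ (by linarith) (by norm_num)]
        linarith
      have h5 : (y 3)⁻¹ * |y i| ≤ ε / 2 := by
        calc (y 3)⁻¹ * |y i| ≤ 4 * (ε / 8) :=
              mul_le_mul h2 h1.le (abs_nonneg _) (by norm_num)
          _ = ε / 2 := by ring
      rw [← mul_pow]
      exact pow_le_pow_left₀ (by positivity) h5 2
    have e3 : ((y 3)⁻¹ • y - vert) 3 = 0 := by
      have e : ((y 3)⁻¹ • y - vert) 3 = (y 3)⁻¹ * y 3 - (vert : E4) 3 := rfl
      rw [e, vert_three, inv_mul_cancel₀ (by linarith), sub_self]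
    have hsq : ‖(y 3)⁻¹ • y - vert‖ ^ 2 < ε ^ 2 := by
      rw [EuclideanSpace.norm_sq_eq, Fin.sum_univ_four]
      simp only [Real.norm_eq_abs, sq_abs]
      rw [e3]
      have c0 := hlt 0 (by decide)
      have c1 := hlt 1 (by decide)
      have c2 := hlt 2 (by decide)
      have : 0 < ε ^ 2 := by positivity
      nlinarith
    exact (lt_of_pow_lt_pow_left₀ 2 hε.le hsq).trans hεη
  · intro z hz hv
    rw [kdet_smul]
    refine mul_ne_zero (by positivity) (hZ2 y hyN ?_ z hz fun v => ?_)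
    · rintro rfl
      simp at b5
    · have := hv v
      rw [real_inner_smul_left] at this
      exact (mul_eq_zero.1 this).resolve_left hy3.ne'

/-- **Morse perturbation**: an arbitrarily small vertical deformation, which does not move the
boundary, makes the height of a slice disc a Morse function. -/
theorem morse_perturb {φ : ℂ → E4} (h : SliceDisc φ) {ε : ℝ} (hε : 0 < ε) :
    ∃ ψ : ℂ → E4, IsoStep φ ψ ∧ SliceDisc ψ ∧ (∀ z, hor (ψ z) = hor (φ z)) ∧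
      (∀ z ∈ sphere (0 : ℂ) 1, ψ z = φ z) ∧
      (∀ z ∈ closedBall (0 : ℂ) 1, |ψ z 3 - φ z 3| < ε) ∧ MorseHeight ψ := by
  obtain ⟨r, η, -, hη0, hcore⟩ := core h hε
  obtain ⟨y, hy3, hyη, hyn⟩ := gen_dir h.patch hη0
  obtain ⟨ψ, T, a0, a1, a2, a3, a4, a5, -⟩ := hcore y hy3 hyη hyn
  exact ⟨ψ, a0, a1, a2, a3, a4, a5⟩

end Pool.Agent.U987.RH
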