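import Mathlib
import Pool.Agent.Y972.RB.TYPE
import Pool.Agent.U987.RH.Two
import Pool.Agent.U987.RH.Sad
import Pool.Agent.U987.RH.Itp

/-!
The equivalence for immersed projections.
-/

set_option autoImplicit false

namespace Pool.Agent.U987.RH

open scoped ContDiff RealInnerProductSpace Topology
open Set Metric Filter

/-- The height of a Morse ribbon disc. -/
theorem ht_of {φ : ℂ → E4} (h : SliceDisc φ) {W : Set ℂ} (hW : IsOpen W)
    (hsub : closedBall 0 1 ⊆ W) (hφ : ContDiffOn ℝ ∞ φ W)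
    (him : ∀ z ∈ closedBall (0 : ℂ) 1, Function.Injective (fderiv ℝ (fun w => hor (φ w)) z))
    (hM : MorseHeight φ) (hmin : ∀ z ∈ ball (0 : ℂ) 1, ¬ IsLocalMin (fun w => φ w 3) z) :
    Ht (fun w => hor (φ w)) W (fun w => φ w 3) where
  sm := (EuclideanSpace.proj (3 : Fin 4) : E4 →L[ℝ] ℝ).contDiff.comp_contDiffOn hφ
  zero := h.bdry
  pos := h.inside
  dz := h.trans
  inj := by
    intro z hz w hw h1 h2
    apply h.inj hz hw
    rw [← decomp (φ z), ← decomp (φ w)]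
    simp only at h1 h2
    rw [h1, h2]
  cr := by
    intro z hz hc
    have hf : ContDiffOn ℝ ∞ (fun w => φ w 3) W :=
      (EuclideanSpace.proj (3 : Fin 4) : E4 →L[ℝ] ℝ).contDiff.comp_contDiffOn hφ
    have hsm : ContDiffAt ℝ ∞ (fun w => φ w 3) z := hf.contDiffAt (hW.mem_nhds (hsub hz))
    have hzb : z ∈ ball (0 : ℂ) 1 := by
      rw [← ball_union_sphere] at hz
      exact hz.resolve_right fun hs => h.trans z hs hc
    rcases Pool.Agent.Y972.RB.type (fun w => φ w 3) z hsm hc (hM z hzb hc) (hmin z hzb) with h1 | h1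
    · left
      have hi := him z hz
      have hd0 := de_pos (0 : ℂ → ℝ) hi
      have a1 : s2 (fun w => φ w 3) 1 1 z < 0 := by
        rw [s2_eq hsm]; exact h1 1 one_ne_zero
      have hid := trace_id hsm hi 1 0
      have hEe : 0 < ee (fun w => hor (φ w)) 0 1 1 0 z := by rw [ee_zero]; exact e_pos hi
      set E := ee (fun w => hor (φ w)) 0 1 1 0 z with hE
      set M := ee (fun w => hor (φ w)) 0 1 Complex.I 0 z with hM'
      set G := ee (fun w => hor (φ w)) 0 Complex.I Complex.I 0 z with hG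
      have a2 : s2 (fun w => φ w 3) ⟨-(M * 1 + G * 0), E * 1 + M * 0⟩
          ⟨-(M * 1 + G * 0), E * 1 + M * 0⟩ z < 0 := by
        rw [s2_eq hsm]
        refine h1 _ fun h0 => ?_
        have := congrArg Complex.im h0
        simp at this
        exact hEe.ne' this
      have a3 : s2 (fun w => φ w 3) ⟨1, 0⟩ ⟨1, 0⟩ z < 0 := a1
      by_contra hcon
      push Not at hcon
      have a4 : 0 ≤ (E * 1 ^ 2 + 2 * M * 1 * 0 + G * 0 ^ 2) *
          (2 * de (fun w => hor (φ w)) 0 0 z *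
            tr (fun w => hor (φ w)) (fun w => φ w 3) (fun w => φ w 3) 0 z) := by
        refine mul_nonneg ?_ (mul_nonneg (by positivity) hcon)
        nlinarith
      rw [hid] at a4
      have a5 := mul_neg_of_pos_of_neg hd0 a3
      linarith
    · right
      unfold hd
      rw [s2_eq hsm, s2_eq hsm, s2_eq hsm]
      exact h1

/-- A Morse ribbon disc with immersed projection is isotopic, through vertical deformations, to discs
of mean curvature less than one. -/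
theorem bend {φ : ℂ → E4} (h : SliceDisc φ) (hM : MorseHeight φ)
    (hmin : ∀ z ∈ ball (0 : ℂ) 1, ¬ IsLocalMin (fun w => φ w 3) z)
    (him : ∀ z ∈ closedBall (0 : ℂ) 1, Function.Injective (fderiv ℝ (fun w => hor (φ w)) z))
    {ε : ℝ} (hε : 0 < ε) :
    ∃ ψ : ℂ → E4, IsoStep φ ψ ∧ SliceDisc ψ ∧ (∀ z, hor (ψ z) = hor (φ z)) ∧
      (∀ z ∈ closedBall (0 : ℂ) 1, ψ z 3 < ε) ∧
      ∃ c < 1, ∀ z ∈ closedBall (0 : ℂ) 1, hypMean ψ z ≤ c := by
  obtain ⟨W, hW, hsub, hs⟩ := h.smooth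
  have hσ : ContDiffOn ℝ ∞ (fun w => hor (φ w)) W := horC.contDiff.comp_contDiffOn hs
  have hH := ht_of h hW hsub hs him hM hmin
  obtain ⟨f', hf', ho, hcr⟩ := repair hW hsub hσ him hH
  obtain ⟨ψ, a1, a2, a3, a4, a5⟩ :=
    flat hW hsub hσ hf'.sm him hf'.zero hf'.pos hf'.dz hcr hf'.inj hε
  exact ⟨ψ, interp h a1 a2 him fun z hz w hw hzw hlt => a3 z w (ho z hz w hw hzw hlt),
    a1, a2, a4, a5⟩

/-- The equivalence. -/
theorem tfae {σ : ℂ → E3} (hi : ∀ z ∈ closedBall (0 : ℂ) 1, Function.Injective (fderiv ℝ σ z)) :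
    List.TFAE [
      ∃ φ : ℂ → E4, SliceDisc φ ∧ (∀ z, hor (φ z) = σ z) ∧ MorseHeight φ ∧
        ∀ z ∈ ball (0 : ℂ) 1, ¬ IsLocalMin (fun w => φ w 3) z,
      ∃ φ : ℂ → E4, SliceDisc φ ∧ (∀ z, hor (φ z) = σ z) ∧ ∀ z ∈ ball (0 : ℂ) 1, hypMean φ z ≤ 1,
      ∀ ε : ℝ, 0 < ε → ∃ φ : ℂ → E4, SliceDisc φ ∧ (∀ z, hor (φ z) = σ z) ∧
        (∀ z ∈ closedBall (0 : ℂ) 1, φ z 3 < ε) ∧
        ∃ c < 1, ∀ z ∈ closedBall (0 : ℂ) 1, hypMean φ z ≤ c] := by
  tfae_have 1 → 3 := by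
    rintro ⟨φ, h, hφ, hM, hmin⟩ ε hε
    obtain ⟨W, hW, hsub, hs⟩ := h.smooth
    have e : σ = fun w => hor (φ w) := funext fun z => (hφ z).symm
    have hσ : ContDiffOn ℝ ∞ σ W := by
      rw [e]; exact horC.contDiff.comp_contDiffOn hs
    have hH := ht_of h hW hsub hs (by rw [← e]; exact hi) hM hmin
    rw [← e] at hH
    obtain ⟨f', hf', -, hcr⟩ := repair hW hsub hσ hi hH
    obtain ⟨ψ, a1, a2, -, a4, a5⟩ :=
      flat hW hsub hσ hf'.sm hi hf'.zero hf'.pos hf'.dz hcr hf'.inj hε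
    exact ⟨ψ, a1, a2, a4, a5⟩
  tfae_have 3 → 2 := by
    intro h
    obtain ⟨φ, h1, h2, -, c, hc, h3⟩ := h 1 one_pos
    exact ⟨φ, h1, h2, fun z hz => (h3 z (ball_subset_closedBall hz)).trans hc.le⟩
  tfae_have 2 → 1 := by
    rintro ⟨φ, h, hφ, hH⟩
    obtain ⟨ψ, -, h1, h2, -, -, h3, h4⟩ := two h hH one_pos
    exact ⟨ψ, h1, fun z => (h2 z).trans (hφ z), h3, h4⟩
  tfae_finish

end Pool.Agent.U987.RH
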