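import Mathlib
import Pool.Agent.GR.Flow
import Pool.Agent.U987.RH.Ext

/-!
A height-preserving diffeomorphism which makes a given field vertical.
-/

set_option autoImplicit false

namespace Pool.Agent.U987.RH

open scoped ContDiff RealInnerProductSpace Topology Manifold
open Set Metric Filter
open Pool.Agent.GR.Flow

theorem up_three : up 3 = 1 := by
  unfold up
  simp

/-- Cutting off a field of vertical speed one. -/
theorem cut {V : E4 → E4} (hV : ContDiff ℝ ∞ V) (hV3 : ∀ y, V y 3 = 1) {K : Set E4}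
    (hK : IsCompact K) : ∃ V' : E4 → E4, ContDiff ℝ ∞ V' ∧ (∀ y, V' y 3 = 1) ∧
      (∀ y ∈ K, V' y = V y) ∧ (∃ C, LipschitzWith C V') ∧ ∃ M : NNReal, ∀ y, ‖V' y‖ ≤ M := by
  obtain ⟨R, hR⟩ := hK.isBounded.subset_closedBall (0 : E4)
  set χ : ContDiffBump (0 : E4) := ⟨|R| + 1, |R| + 2, by positivity, by linarith⟩ with hχ
  set w : E4 → E4 := fun y => χ y • (V y - up) with hw
  have hws : ContDiff ℝ ∞ w := χ.contDiff.smul (hV.sub contDiff_const)
  have hwc : HasCompactSupport w := χ.hasCompactSupport.smul_right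
  obtain ⟨C, hC⟩ := hws.lipschitzWith_of_hasCompactSupport hwc (by simp)
  obtain ⟨M, hM⟩ := hwc.exists_bound_of_continuous hws.continuous
  refine ⟨fun y => up + w y, contDiff_const.add hws, ?_, ?_, ⟨C, ?_⟩, ⟨|M| + ‖up‖, by positivity⟩, ?_⟩
  · intro y
    rw [PiLp.add_apply, hw]
    simp only [PiLp.smul_apply, PiLp.sub_apply, hV3, up_three]
    simp
  · intro y hy
    have h1 : χ y = 1 := by
      apply χ.one_of_mem_closedBall
      have := hR hy
      rw [mem_closedBall] at this ⊢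
      show dist y 0 ≤ |R| + 1
      linarith [le_abs_self R]
    show up + χ y • (V y - up) = V y
    rw [h1, one_smul]
    abel
  · have := (LipschitzWith.const up).add hC
    rw [zero_add] at this
    exact this
  · intro y
    refine (norm_add_le _ _).trans ?_
    show ‖up‖ + ‖w y‖ ≤ |M| + ‖up‖
    linarith [hM y, le_abs_self M]

/-- **The straightening diffeomorphism**, with an isotopy `G t` from the identity to `G 1`. -/
theorem straight_flow {V : E4 → E4} (hV : ContDiff ℝ ∞ V) (hV3 : ∀ y, V y 3 = 1) {K : Set E4}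
    (hK : IsCompact K) : ∃ G Gi : ℝ → E4 → E4, ContDiff ℝ ∞ (fun p : ℝ × E4 => G p.1 p.2) ∧
      ContDiff ℝ ∞ (fun p : ℝ × E4 => Gi p.1 p.2) ∧
      (∀ t x, Gi t (G t x) = x) ∧ (∀ t x, G t (Gi t x) = x) ∧ (∀ t x, G t x 3 = x 3) ∧
      (∀ t x, x 3 = 0 → G t x = x) ∧ (∀ x, G 0 x = x) ∧
      ∀ x ∈ K, fderiv ℝ (G 1) x (V x) = up := by
  obtain ⟨U, hU, hU3, hUK, ⟨C, hC⟩, ⟨M, hM⟩⟩ := cut hV hV3 hK
  choose g hg0 hg1 using fun x => exists_solution hC hM x
  have hflow : IsFlowOf U (fun t x => g x t) := ⟨hg0, fun x t => hg1 x t⟩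
  set Uc : C(E4, E4) := ⟨U, hU.continuous⟩ with hUc
  have hsm : ContDiff ℝ ∞ (fun p : ℝ × E4 => g p.2 p.1) := by
    rw [contDiff_infty]
    intro m
    have h1 : ContDiff ℝ ((m + 1 : ℕ) : WithTop ℕ∞) (fun p : ℝ × E4 => g p.2 p.1) :=
      contDiff_flow (X := Uc) (m := m + 1) (by omega) (hU.of_le (by exact_mod_cast le_top)) hC hflow
    exact h1.of_le (by exact_mod_cast Nat.le_succ m)
  have hadd : ∀ t s x, g x (t + s) = g (g x s) t := fun t s x => hflow.add hC t s x
  -- the height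
  have hp3 : ∀ y : E4, (EuclideanSpace.proj (3 : Fin 4) : E4 →L[ℝ] ℝ) y = y 3 := fun y => rfl
  have h3 : ∀ x t, g x t 3 = x 3 + t := by
    intro x t
    have h1 : ∀ t, HasDerivAt (fun t => g x t 3 - t) 0 t := by
      intro t
      have h2 := (EuclideanSpace.proj (3 : Fin 4) : E4 →L[ℝ] ℝ).hasFDerivAt.comp_hasDerivAt t
        (hg1 x t)
      rw [hp3, hU3] at h2
      have h4 := h2.sub (hasDerivAt_id t)
      rw [sub_self] at h4
      exact h4
    have h2 := is_const_of_deriv_eq_zero (fun t => (h1 t).differentiableAt)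
      (fun t => (h1 t).deriv) t 0
    simp only [hg0, sub_zero] at h2
    linarith
  have hup : ∀ c : ℝ, (c • up) 3 = c := by
    intro c
    rw [PiLp.smul_apply, up_three, smul_eq_mul, mul_one]
  have hc3 : ContDiff ℝ ∞ fun x : E4 => x 3 := (EuclideanSpace.proj (3 : Fin 4) : E4 →L[ℝ] ℝ).contDiff
  have hT3 : ContDiff ℝ ∞ fun p : ℝ × E4 => p.1 * p.2 3 :=
    contDiff_fst.mul (hc3.comp contDiff_snd)
  have hGs : ContDiff ℝ ∞ fun p : ℝ × E4 => g p.2 (-(p.1 * p.2 3)) + (p.1 * p.2 3) • up := by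
    have h1 : ContDiff ℝ ∞ fun p : ℝ × E4 => g p.2 (-(p.1 * p.2 3)) :=
      hsm.comp (hT3.neg.prodMk contDiff_snd)
    exact h1.add (hT3.smul contDiff_const)
  have hGis : ContDiff ℝ ∞ fun p : ℝ × E4 => g (p.2 - (p.1 * p.2 3) • up) (p.1 * p.2 3) :=
    hsm.comp (hT3.prodMk (contDiff_snd.sub (hT3.smul contDiff_const)))
  have hG3 : ∀ (t : ℝ) (x : E4), (g x (-(t * x 3)) + (t * x 3) • up) 3 = x 3 := by
    intro t x
    rw [PiLp.add_apply, h3, hup]
    ring
  have hG1 : ContDiff ℝ ∞ fun x : E4 => g x (-(1 * x 3)) + (1 * x 3) • up :=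
    hGs.comp (contDiff_const.prodMk contDiff_id)
  refine ⟨fun t x => g x (-(t * x 3)) + (t * x 3) • up,
    fun t x => g (x - (t * x 3) • up) (t * x 3), hGs, hGis, ?_, ?_, hG3, ?_, ?_, ?_⟩
  · intro t x
    show g ((g x (-(t * x 3)) + (t * x 3) • up) - (t * (g x (-(t * x 3)) + (t * x 3) • up) 3) • up)
      (t * (g x (-(t * x 3)) + (t * x 3) • up) 3) = x
    rw [hG3, add_sub_cancel_right, ← hadd, add_neg_cancel, hg0]
  · intro t x
    have e1 : g (x - (t * x 3) • up) (t * x 3) 3 = x 3 := by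
      rw [h3, PiLp.sub_apply, hup]
      ring
    show g (g (x - (t * x 3) • up) (t * x 3)) (-(t * (g (x - (t * x 3) • up) (t * x 3)) 3)) +
      (t * (g (x - (t * x 3) • up) (t * x 3)) 3) • up = x
    rw [e1, ← hadd, neg_add_cancel, hg0]
    abel
  · intro t x hx
    show g x (-(t * x 3)) + (t * x 3) • up = x
    rw [hx, mul_zero, neg_zero, hg0, zero_smul, add_zero]
  · intro x
    show g x (-(0 * x 3)) + (0 * x 3) • up = x
    rw [zero_mul, neg_zero, hg0, zero_smul, add_zero]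
  · intro x hx
    rw [← hUK x hx]
    show fderiv ℝ (fun x : E4 => g x (-(1 * x 3)) + (1 * x 3) • up) x (U x) = up
    have h1 : HasDerivAt (fun s => (fun x : E4 => g x (-(1 * x 3)) + (1 * x 3) • up) (g x s))
        (fderiv ℝ (fun x : E4 => g x (-(1 * x 3)) + (1 * x 3) • up) x (U x)) 0 := by
      have h2 := (hG1.differentiable (by simp) (g x 0)).hasFDerivAt.comp_hasDerivAt 0 (hg1 x 0)
      rw [hg0] at h2
      exact h2
    have h2 : (fun s => (fun x : E4 => g x (-(1 * x 3)) + (1 * x 3) • up) (g x s)) =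
        fun s => g x (-x 3) + (x 3 + s) • up := by
      funext s
      show g (g x s) (-(1 * g x s 3)) + (1 * g x s 3) • up = _
      rw [one_mul, h3, ← hadd]
      congr 2
      ring
    rw [h2] at h1
    have h4 : HasDerivAt (fun s : ℝ => g x (-x 3) + (x 3 + s) • up) up 0 := by
      have h5 : HasDerivAt (fun s : ℝ => (x 3 + s) • up) ((1 : ℝ) • up) 0 :=
        ((hasDerivAt_id (0 : ℝ)).const_add (x 3)).smul_const up
      rw [one_smul] at h5
      exact h5.const_add _
    exact h1.unique h4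

end Pool.Agent.U987.RH
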