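import Mathlib
import Pool.Agent.U987.RH.Flo
import Pool.Agent.U987.RH.Two

/-!
Straightening: a slice disc with finitely many critical points of the height is moved by a
height-preserving diffeomorphism to a disc with an immersed projection.
-/

set_option autoImplicit false

namespace Pool.Agent.U987.RH

open scoped ContDiff RealInnerProductSpace Topology Manifold
open Set Metric Filter

/-- The critical points of a Morse height are finite in number. -/
theorem crit_finite {φ : ℂ → E4} (h : SliceDisc φ) (hM : MorseHeight φ) :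
    {z | z ∈ closedBall (0 : ℂ) 1 ∧ fderiv ℝ (fun w => φ w 3) z = 0}.Finite := by
  obtain ⟨W, hW, hsub, hs⟩ := h.smooth
  have hF : ContDiffOn ℝ ∞ (fun w => φ w 3) W :=
    (EuclideanSpace.proj (3 : Fin 4) : E4 →L[ℝ] ℝ).contDiff.comp_contDiffOn hs
  have hc : ContinuousOn (fun z => fderiv ℝ (fun w => φ w 3) z) (closedBall 0 1) :=
    (hF.continuousOn_fderiv_of_isOpen hW (by simp)).mono hsub
  by_contra hinf
  have hcl : IsClosed {z | z ∈ closedBall (0 : ℂ) 1 ∧
      fderiv ℝ (fun w => φ w 3) z ∈ ({0} : Set (ℂ →L[ℝ] ℝ))} :=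
    hc.preimage_isClosed_of_isClosed isClosed_closedBall isClosed_singleton
  obtain ⟨x, hx, hacc⟩ := Set.Infinite.exists_accPt_of_subset_isCompact hinf
    ((isCompact_closedBall (0 : ℂ) 1).of_isClosed_subset hcl fun z hz => hz.1)
    (fun z hz => hz)
  have hx0 : fderiv ℝ (fun w => φ w 3) x = 0 := hx.2
  have hxb : x ∈ ball (0 : ℂ) 1 := by
    have := hx.1
    rw [← ball_union_sphere] at this
    exact this.resolve_right fun hs => h.trans x hs hx0
  have hd : HasFDerivAt (fderiv ℝ (fun w => φ w 3)) (fderiv ℝ (fderiv ℝ (fun w => φ w 3)) x) x := by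
    have h1 : ContDiffAt ℝ ∞ (fun w => φ w 3) x := hF.contDiffAt (hW.mem_nhds (hsub hx.1))
    have h2 : ContDiffAt ℝ ∞ (fderiv ℝ (fun w => φ w 3)) x := h1.fderiv_right (m := ∞) (by simp)
    exact (h2.differentiableAt (by simp)).hasFDerivAt
  have hanti : ∃ C, AntilipschitzWith C (fderiv ℝ (fderiv ℝ (fun w => φ w 3)) x) := by
    obtain ⟨K, -, hK⟩ := LinearMap.exists_antilipschitzWith
      (fderiv ℝ (fderiv ℝ (fun w => φ w 3)) x).toLinearMap (by
        rw [LinearMap.ker_eq_bot']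
        intro u hu
        refine hM x hxb hx0 u fun v => ?_
        have hu' : fderiv ℝ (fderiv ℝ (fun w => φ w 3)) x u = 0 := hu
        rw [hu']
        rfl)
    exact ⟨K, hK⟩
  have hev := hd.eventually_ne (c := 0) hanti
  rw [accPt_iff_frequently_nhdsNE] at hacc
  exact hacc (hev.mono fun z hz hz' => hz hz'.2)

/-- Height-preserving diffeomorphisms preserve slice discs. -/
theorem slice_diffeo {φ : ℂ → E4} (h : SliceDisc φ) {G Gi : E4 → E4} (hG : ContDiff ℝ ∞ G)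
    (hGi : ContDiff ℝ ∞ Gi) (hGG : ∀ x, Gi (G x) = x) (hG3 : ∀ x, G x 3 = x 3) :
    SliceDisc (fun z => G (φ z)) := by
  obtain ⟨W, hW, hsub, hs⟩ := h.smooth
  have hGd : ∀ x, HasFDerivAt G (fderiv ℝ G x) x := fun x =>
    (hG.differentiable (by simp) x).hasFDerivAt
  have hGinj : ∀ x, Function.Injective (fderiv ℝ G x) := by
    intro x
    have h1 : HasFDerivAt (fun x => Gi (G x)) ((fderiv ℝ Gi (G x)).comp (fderiv ℝ G x)) x :=
      ((hGi.differentiable (by simp) (G x)).hasFDerivAt).comp x (hGd x)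
    have h2 : (fun x => Gi (G x)) = id := funext hGG
    rw [h2] at h1
    have h3 := h1.unique (hasFDerivAt_id x)
    intro a b hab
    have h4 := DFunLike.congr_fun h3 a
    have h5 := DFunLike.congr_fun h3 b
    simp only [ContinuousLinearMap.comp_apply, ContinuousLinearMap.id_apply] at h4 h5
    rw [← h4, ← h5, hab]
  have hφd : ∀ z ∈ closedBall (0 : ℂ) 1, HasFDerivAt φ (fderiv ℝ φ z) z := fun z hz =>
    ((hs.contDiffAt (hW.mem_nhds (hsub hz))).differentiableAt (by simp)).hasFDerivAt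
  have hψd : ∀ z ∈ closedBall (0 : ℂ) 1,
      HasFDerivAt (fun w => G (φ w)) ((fderiv ℝ G (φ z)).comp (fderiv ℝ φ z)) z :=
    fun z hz => (hGd (φ z)).comp z (hφd z hz)
  have h3 : (fun w => G (φ w) 3) = fun w => φ w 3 := funext fun w => hG3 _
  refine ⟨⟨W, hW, hsub, hG.comp_contDiffOn hs⟩, ?_, ?_, ?_, ?_, ?_⟩
  · intro z hz w hw hzw
    apply h.inj hz hw
    rw [← hGG (φ z), ← hGG (φ w)]
    exact congrArg Gi hzw
  · intro z hz
    rw [(hψd z hz).fderiv]
    exact (hGinj _).comp (h.imm z hz)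
  · intro z hz
    show 0 < G (φ z) 3
    rw [hG3]
    exact h.inside z hz
  · intro z hz
    show G (φ z) 3 = 0
    rw [hG3]
    exact h.bdry z hz
  · intro z hz
    rw [h3]
    exact h.trans z hz

/-- **Straightening.** -/
theorem straighten {φ : ℂ → E4} (h : SliceDisc φ)
    (hC : {z | z ∈ closedBall (0 : ℂ) 1 ∧ fderiv ℝ (fun w => φ w 3) z = 0}.Finite) :
    ∃ G Gi : E4 → E4, ContDiff ℝ ∞ G ∧ ContDiff ℝ ∞ Gi ∧ (∀ x, Gi (G x) = x) ∧
      (∀ x, G (Gi x) = x) ∧ (∀ x, G x 3 = x 3) ∧ (∀ x, x 3 = 0 → G x = x) ∧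
      IsoStep φ (fun z => G (φ z)) ∧ SliceDisc (fun z => G (φ z)) ∧ ∀ z ∈ closedBall (0 : ℂ) 1,
        Function.Injective (fderiv ℝ (fun w => hor (G (φ w))) z) := by
  obtain ⟨W, hW, hsub, hs⟩ := h.smooth
  have hF : ContDiffOn ℝ ∞ (fun w => φ w 3) W :=
    (EuclideanSpace.proj (3 : Fin 4) : E4 →L[ℝ] ℝ).contDiff.comp_contDiffOn hs
  -- a larger disc
  set W₁ : Set ℂ := {z | z ∈ W ∧ fderiv ℝ φ z ∈ {A : ℂ →L[ℝ] E4 | Function.Injective A}} with hW₁
  have hW₁o : IsOpen W₁ := (hs.continuousOn_fderiv_of_isOpen hW (by simp)).isOpen_inter_preimage hW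
    ContinuousLinearMap.isOpen_injective
  set W₂ : Set ℂ := {z | z ∈ W ∧ fderiv ℝ (fun w => φ w 3) z ∈ ({0}ᶜ : Set (ℂ →L[ℝ] ℝ))} with hW₂
  have hW₂o : IsOpen W₂ := (hF.continuousOn_fderiv_of_isOpen hW (by simp)).isOpen_inter_preimage hW
    isOpen_compl_singleton
  have hsub' : closedBall (0 : ℂ) 1 ⊆ W₁ ∩ (ball 0 1 ∪ W₂) := by
    intro z hz
    refine ⟨⟨hsub hz, h.imm z hz⟩, ?_⟩
    have hz' := hz
    rw [← ball_union_sphere] at hz'
    rcases hz' with h1 | h1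
    · exact Or.inl h1
    · exact Or.inr ⟨hsub hz, h.trans z h1⟩
  obtain ⟨δ, hδ, hδs⟩ := (isCompact_closedBall (0 : ℂ) 1).exists_cthickening_subset_open
    (hW₁o.inter (isOpen_ball.union hW₂o)) hsub'
  rw [cthickening_closedBall hδ.le zero_le_one] at hδs
  set R : ℝ := δ + 1 with hR
  have hR0 : 0 < R := by positivity
  have hR1 : 1 < R := by linarith
  have hRs : ∀ z ∈ closedBall (0 : ℂ) 1, R • z ∈ closedBall (0 : ℂ) R := by
    intro z hz
    rw [mem_closedBall_zero_iff] at hz ⊢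
    rw [norm_smul, Real.norm_of_nonneg hR0.le]
    nlinarith
  -- the field
  set A : ℂ → ℂ →L[ℝ] E4 := fun z => fderiv ℝ φ (R • z) with hA
  have hAs : ∀ z ∈ closedBall (0 : ℂ) 1, ContDiffAt ℝ ∞ A z := by
    intro z hz
    have h1 := (hδs (hRs z hz)).1.1
    have h2 : ContDiffAt ℝ ∞ (fderiv ℝ φ) (R • z) :=
      (hs.contDiffAt (hW.mem_nhds h1)).fderiv_right (m := ∞) (by simp)
    have h3 : ContDiffAt ℝ ∞ (fun z : ℂ => R • z) z := contDiffAt_id.const_smul R
    exact ContDiffAt.comp (g := fderiv ℝ φ) (f := fun z : ℂ => R • z) z h2 h3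
  have hAi : ∀ z ∈ closedBall (0 : ℂ) 1, Function.Injective (A z) :=
    fun z hz => (hδs (hRs z hz)).1.2
  have hd3 : ∀ z ∈ W, ∀ u, fderiv ℝ (fun w => φ w 3) z u = fderiv ℝ φ z u 3 := by
    intro z hz u
    have h1 : HasFDerivAt φ (fderiv ℝ φ z) z :=
      ((hs.contDiffAt (hW.mem_nhds hz)).differentiableAt (by simp)).hasFDerivAt
    have h2 := (EuclideanSpace.proj (3 : Fin 4) : E4 →L[ℝ] ℝ).hasFDerivAt.comp z h1
    have h3 : fderiv ℝ (fun w => φ w 3) z = _ := h2.fderiv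
    rw [h3]
    rfl
  classical
  obtain ⟨X, hX1, hX2⟩ := xfield hAs hAi (F := hC.toFinset.image fun p : ℂ => R⁻¹ • p) (by
    intro z hz hz3
    rw [Finset.mem_image]
    refine ⟨R • z, ?_, by rw [smul_smul, inv_mul_cancel₀ hR0.ne', one_smul]⟩
    rw [Set.Finite.mem_toFinset]
    have h1 := hδs (hRs z hz)
    have h2 : fderiv ℝ (fun w => φ w 3) (R • z) = 0 := by
      ext u
      · rw [hd3 _ h1.1.1, hz3]; rfl
    refine ⟨?_, h2⟩
    rcases h1.2 with h3 | h3
    · exact ball_subset_closedBall h3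
    · exact absurd h2 h3.2)
  set Y : ℂ → E4 := fun z => X (R⁻¹ • z) with hY
  have hRi : ∀ z ∈ closedBall (0 : ℂ) R, R⁻¹ • z ∈ closedBall (0 : ℂ) 1 := by
    intro z hz
    rw [mem_closedBall_zero_iff] at hz ⊢
    rw [norm_smul, Real.norm_of_nonneg (by positivity), inv_mul_le_iff₀ hR0, mul_one]
    exact hz
  have hYs : ContDiffOn ℝ ∞ Y (ball 0 R) := by
    intro z hz
    have h3 : ContDiffAt ℝ ∞ (fun z : ℂ => R⁻¹ • z) z := contDiffAt_id.const_smul _
    exact (ContDiffAt.comp (g := X) (f := fun z : ℂ => R⁻¹ • z) z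
      (hX1 _ (hRi z (ball_subset_closedBall hz))) h3).contDiffWithinAt
  have hball : closedBall (0 : ℂ) 1 ⊆ ball 0 R := closedBall_subset_ball hR1
  obtain ⟨V, hV, hV3, hVφ⟩ := extend isOpen_ball hball
    (hs.mono fun z hz => (hδs (ball_subset_closedBall hz)).1.1) h.inj h.imm hYs
    (fun z hz => (hX2 _ (hRi z (ball_subset_closedBall hz))).1)
  have hYn : ∀ z ∈ closedBall (0 : ℂ) 1, nrm (fderiv ℝ φ z) (Y z) ≠ 0 := by
    intro z hz
    have h1 := (hX2 _ (hRi z (ball_subset_closedBall (hball hz)))).2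
    rw [hA] at h1
    simp only [smul_smul, mul_inv_cancel₀ hR0.ne', one_smul] at h1
    exact h1
  obtain ⟨Gt, Gti, hGt, hGti, hGGt, hGGt', hGt3, hGt0, hGt1, hGV⟩ := straight_flow hV hV3
    ((isCompact_closedBall (0 : ℂ) 1).image_of_continuousOn (hs.continuousOn.mono hsub))
  have hGts : ∀ t, ContDiff ℝ ∞ (Gt t) := fun t => hGt.comp (contDiff_const.prodMk contDiff_id)
  have hGtis : ∀ t, ContDiff ℝ ∞ (Gti t) := fun t => hGti.comp (contDiff_const.prodMk contDiff_id)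
  have hiso : IsoStep φ (fun z => Gt 1 (φ z)) := by
    refine ⟨fun t z => Gt t (φ z), ⟨univ ×ˢ W, isOpen_univ.prod hW,
      prod_mono (subset_univ _) hsub, ?_⟩, fun t _ => ⟨?_, ?_⟩, ?_, rfl⟩
    · have k0 : ContDiffOn ℝ ∞ (fun p : ℝ × ℂ => φ p.2) (univ ×ˢ W) :=
        hs.comp contDiff_snd.contDiffOn fun p hp => hp.2
      exact hGt.comp_contDiffOn (contDiff_fst.contDiffOn.prodMk k0)
    · exact slice_diffeo h (hGts t) (hGtis t) (hGGt t) (hGt3 t)
    · intro z hz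
      exact hGt0 t _ (h.bdry z hz)
    · funext z
      exact hGt1 _
  obtain ⟨G, hGe⟩ : ∃ G, G = Gt 1 := ⟨_, rfl⟩
  obtain ⟨Gi, hGie⟩ : ∃ Gi, Gi = Gti 1 := ⟨_, rfl⟩
  have hG : ContDiff ℝ ∞ G := hGe ▸ hGts 1
  have hGi : ContDiff ℝ ∞ Gi := hGie ▸ hGtis 1
  have hGG : ∀ x, Gi (G x) = x := by rw [hGe, hGie]; exact hGGt 1
  have hGG' : ∀ x, G (Gi x) = x := by rw [hGe, hGie]; exact hGGt' 1
  have hG3 : ∀ x, G x 3 = x 3 := by rw [hGe]; exact hGt3 1
  have hG0 : ∀ x : E4, x 3 = 0 → G x = x := by rw [hGe]; exact hGt0 1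
  rw [← hGe] at hGV hiso
  -- derivatives of `G`
  have hGd : ∀ x, HasFDerivAt G (fderiv ℝ G x) x := fun x =>
    (hG.differentiable (by simp) x).hasFDerivAt
  have hGinj : ∀ x, Function.Injective (fderiv ℝ G x) := by
    intro x
    have h1 : HasFDerivAt (fun x => Gi (G x)) ((fderiv ℝ Gi (G x)).comp (fderiv ℝ G x)) x :=
      ((hGi.differentiable (by simp) (G x)).hasFDerivAt).comp x (hGd x)
    have h2 : (fun x => Gi (G x)) = id := funext hGG
    rw [h2] at h1
    have h3 := h1.unique (hasFDerivAt_id x)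
    intro a b hab
    have h4 := DFunLike.congr_fun h3 a
    have h5 := DFunLike.congr_fun h3 b
    simp only [ContinuousLinearMap.comp_apply, ContinuousLinearMap.id_apply] at h4 h5
    rw [← h4, ← h5, hab]
  have hGd3 : ∀ x v, fderiv ℝ G x v 3 = v 3 := by
    intro x v
    have h1 := (EuclideanSpace.proj (3 : Fin 4) : E4 →L[ℝ] ℝ).hasFDerivAt.comp x (hGd x)
    have h2 : (fun x => (EuclideanSpace.proj (3 : Fin 4) : E4 →L[ℝ] ℝ) (G x)) =
        (EuclideanSpace.proj (3 : Fin 4) : E4 →L[ℝ] ℝ) := funext fun x => hG3 x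
    have h3 : HasFDerivAt (fun x => (EuclideanSpace.proj (3 : Fin 4) : E4 →L[ℝ] ℝ) (G x))
        ((EuclideanSpace.proj (3 : Fin 4) : E4 →L[ℝ] ℝ).comp (fderiv ℝ G x)) x := h1
    rw [h2] at h3
    have h4 := h3.unique (EuclideanSpace.proj (3 : Fin 4) : E4 →L[ℝ] ℝ).hasFDerivAt
    exact DFunLike.congr_fun h4 v
  have hφd : ∀ z ∈ closedBall (0 : ℂ) 1, HasFDerivAt φ (fderiv ℝ φ z) z := fun z hz =>
    ((hs.contDiffAt (hW.mem_nhds (hsub hz))).differentiableAt (by simp)).hasFDerivAt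
  have hψd : ∀ z ∈ closedBall (0 : ℂ) 1,
      HasFDerivAt (fun w => G (φ w)) ((fderiv ℝ G (φ z)).comp (fderiv ℝ φ z)) z :=
    fun z hz => (hGd (φ z)).comp z (hφd z hz)
  refine ⟨G, Gi, hG, hGi, hGG, hGG', hG3, hG0, hiso, slice_diffeo h hG hGi hGG hG3, ?_⟩
  · intro z hz
    have h1 : HasFDerivAt (fun w => hor (G (φ w)))
        (horC.comp ((fderiv ℝ G (φ z)).comp (fderiv ℝ φ z))) z :=
      horC.hasFDerivAt.comp z (hψd z hz)
    rw [h1.fderiv]
    rw [← ContinuousLinearMap.coe_coe, ← LinearMap.ker_eq_bot, LinearMap.ker_eq_bot']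
    intro u hu
    have hu' : hor (fderiv ℝ G (φ z) (fderiv ℝ φ z u)) = 0 := hu
    set v := fderiv ℝ φ z u with hv
    have h4 : fderiv ℝ G (φ z) v = v 3 • up := by
      have := decomp (fderiv ℝ G (φ z) v)
      rw [hu', map_zero, zero_add, hGd3] at this
      exact this.symm
    have h5 : fderiv ℝ G (φ z) (Y z) = up := by
      rw [← hVφ z hz]
      exact hGV _ ⟨z, hz, rfl⟩
    have h6 : v = v 3 • Y z := by
      apply hGinj (φ z)
      rw [h4, map_smul, h5]
    have h7 : nrm (fderiv ℝ φ z) v = 0 := nrm_apply_range (h.imm z hz) u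
    rw [h6, map_smul] at h7
    have h8 : v 3 = 0 := (smul_eq_zero.1 h7).resolve_right (hYn z hz)
    rw [h8, zero_smul] at h6
    apply h.imm z hz
    rw [← hv, h6, map_zero]

end Pool.Agent.U987.RH
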