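import Mathlib
import Pool.Agent.U987.RH.Fin
import Pool.Agent.U987.RH.Str

/-!
Slice discs up to isotopy: ribbon discs and the hyperbolic mean curvature.
-/

set_option autoImplicit false

namespace Pool.Agent.U987.RH

open scoped ContDiff RealInnerProductSpace Topology
open Set Metric Filter

/-- A Morse height is preserved by height-preserving maps. -/
theorem morse_congr {φ ψ : ℂ → E4} (h : ∀ z, ψ z 3 = φ z 3) (hM : MorseHeight φ) :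
    MorseHeight ψ := by
  have e : (fun w => ψ w 3) = fun w => φ w 3 := funext h
  unfold MorseHeight at hM ⊢
  rw [e]
  exact hM

theorem IsoStep.slice {φ ψ : ℂ → E4} (h : IsoStep φ ψ) : SliceDisc ψ := by
  obtain ⟨Φ, -, h1, -, h2⟩ := h
  rw [← h2]
  exact (h1 1 ⟨zero_le_one, le_rfl⟩).1

theorem IsoStep.bdry {φ ψ : ℂ → E4} (h : IsoStep φ ψ) : ∀ z ∈ sphere (0 : ℂ) 1, ψ z = φ z := by
  obtain ⟨Φ, -, h1, -, h2⟩ := h
  rw [← h2]
  exact (h1 1 ⟨zero_le_one, le_rfl⟩).2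

theorem IsoStep.symm {φ ψ : ℂ → E4} (h : IsoStep φ ψ) : IsoStep ψ φ := by
  have hb := h.bdry
  obtain ⟨Φ, ⟨W, hW, hsub, hs⟩, h1, h2, h3⟩ := h
  have hc : Continuous fun p : ℝ × ℂ => ((1 : ℝ) - p.1, p.2) := by fun_prop
  refine ⟨fun t => Φ (1 - t), ⟨(fun p : ℝ × ℂ => ((1 : ℝ) - p.1, p.2)) ⁻¹' W,
    hW.preimage hc, ?_, ?_⟩, ?_, ?_, ?_⟩
  · rintro ⟨t, z⟩ ⟨ht, hz⟩
    exact hsub ⟨⟨by linarith [ht.2], by linarith [ht.1]⟩, hz⟩
  · exact hs.comp (f := fun p : ℝ × ℂ => ((1 : ℝ) - p.1, p.2))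
      ((contDiff_const.sub contDiff_fst).prodMk contDiff_snd).contDiffOn fun p hp => hp
  · intro t ht
    have h4 := h1 (1 - t) ⟨by linarith [ht.2], by linarith [ht.1]⟩
    exact ⟨h4.1, fun z hz => (h4.2 z hz).trans (hb z hz).symm⟩
  · beta_reduce
    rw [sub_zero, h3]
  · beta_reduce
    rw [sub_self, h2]

theorem Isotopic.slice {φ ψ : ℂ → E4} (h : SliceDisc φ) (hi : Isotopic φ ψ) : SliceDisc ψ := by
  induction hi with
  | refl => exact h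
  | tail _ hbc _ => exact hbc.slice

theorem Isotopic.bdry {φ ψ : ℂ → E4} (hi : Isotopic φ ψ) : ∀ z ∈ sphere (0 : ℂ) 1, ψ z = φ z := by
  induction hi with
  | refl => exact fun _ _ => rfl
  | tail _ hbc ih => exact fun z hz => (hbc.bdry z hz).trans (ih z hz)

theorem Isotopic.symm {φ ψ : ℂ → E4} (hi : Isotopic φ ψ) : Isotopic ψ φ := by
  induction hi with
  | refl => exact Relation.ReflTransGen.refl
  | tail _ hbc ih => exact Relation.ReflTransGen.head hbc.symm ih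

theorem Isotopic.trans {φ ψ χ : ℂ → E4} (h : Isotopic φ ψ) (h' : Isotopic ψ χ) : Isotopic φ χ :=
  Relation.ReflTransGen.trans h h'

/-- **Ribbon discs are isotopic to discs of mean curvature less than one.** -/
theorem ribbon_curv {φ : ℂ → E4} (h : SliceDisc φ) (hM : MorseHeight φ)
    (hmin : ∀ z ∈ ball (0 : ℂ) 1, ¬ IsLocalMin (fun w => φ w 3) z) {ε : ℝ} (hε : 0 < ε) :
    ∃ ψ : ℂ → E4, Isotopic φ ψ ∧ (∀ z ∈ closedBall (0 : ℂ) 1, ψ z 3 < ε) ∧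
        ∃ c < 1, ∀ z ∈ closedBall (0 : ℂ) 1, hypMean ψ z ≤ c := by
  obtain ⟨G, Gi, g1, g2, g3, g4, g5, g6, g0, g7, g8⟩ := straighten h (crit_finite h hM)
  have hmin' : ∀ z ∈ ball (0 : ℂ) 1, ¬ IsLocalMin (fun w => G (φ w) 3) z := by
    have e : (fun w => G (φ w) 3) = fun w => φ w 3 := funext fun w => g5 _
    rw [e]
    exact hmin
  obtain ⟨ψ, a0, a1, a2, a3, a4⟩ := bend g7 (morse_congr (fun z => g5 _) hM) hmin' g8 hε
  exact ⟨ψ, (Relation.ReflTransGen.single g0).tail a0, a3, a4⟩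

/-- **All slice discs**: the mean curvature can be made smaller than `1 + ε`, by an isotopy. -/
theorem slice_curv {φ : ℂ → E4} (h : SliceDisc φ) {ε : ℝ} (hε : 0 < ε) :
    ∃ ψ : ℂ → E4, Isotopic φ ψ ∧ (∀ z ∈ closedBall (0 : ℂ) 1, ψ z 3 < ε) ∧
      ∀ z ∈ closedBall (0 : ℂ) 1, hypMean ψ z < 1 + ε := by
  obtain ⟨φ₁, a0, a1, -, a3, -, a5⟩ := morse_perturb h one_pos
  obtain ⟨G, Gi, g1, g2, g3, g4, g5, g6, g0, g7, g8⟩ := straighten a1 (crit_finite a1 a5)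
  obtain ⟨δ₀, hδ₀, hd⟩ := three g7 g8 hε
  obtain ⟨M, hM⟩ := (isCompact_closedBall (0 : ℂ) 1).exists_bound_of_continuousOn
    (f := fun z => φ₁ z 3) (by
      obtain ⟨W, hW, hsub, hs⟩ := a1.smooth
      exact (EuclideanSpace.proj (3 : Fin 4) : E4 →L[ℝ] ℝ).continuous.comp_continuousOn
        (hs.continuousOn.mono hsub))
  have hM0 : 0 < |M| + 1 := by positivity
  obtain ⟨δ, hδ, hδ', hδε⟩ : ∃ δ : ℝ, 0 < δ ∧ δ < δ₀ ∧ δ * (|M| + 1) < ε := by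
    refine ⟨min (δ₀ / 2) (ε / (2 * (|M| + 1))), lt_min (by linarith) (by positivity), ?_, ?_⟩
    · exact (min_le_left _ _).trans_lt (by linarith)
    · have h1 : min (δ₀ / 2) (ε / (2 * (|M| + 1))) ≤ ε / (2 * (|M| + 1)) := min_le_right _ _
      have h2 := mul_le_mul_of_nonneg_right h1 hM0.le
      have h3 : ε / (2 * (|M| + 1)) * (|M| + 1) = ε / 2 := by field_simp
      linarith
  obtain ⟨ψ, b1, b2, b3, b4⟩ := hd δ ⟨hδ, hδ'⟩
  have hstep : IsoStep (fun z => G (φ₁ z)) ψ := by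
    refine interp g7 b1 b2 g8 fun z _ w _ _ hlt => ?_
    beta_reduce at hlt ⊢
    rw [b3, b3]
    exact mul_lt_mul_of_pos_left hlt hδ
  refine ⟨ψ, ((Relation.ReflTransGen.single a0).tail g0).tail hstep, fun z hz => ?_, b4⟩
  rw [b3, g5]
  have h1 := hM z hz
  rw [Real.norm_eq_abs] at h1
  have h2 := le_abs_self (φ₁ z 3)
  have h3 := le_abs_self M
  calc δ * φ₁ z 3 ≤ δ * (|M| + 1) := mul_le_mul_of_nonneg_left (by linarith) hδ.le
    _ < ε := hδε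

/-- **Isotopy classes of slice discs.** -/
theorem classes {φ : ℂ → E4} (h : SliceDisc φ) : List.TFAE [
    ∃ ψ : ℂ → E4, Isotopic φ ψ ∧ MorseHeight ψ ∧
      ∀ z ∈ ball (0 : ℂ) 1, ¬ IsLocalMin (fun w => ψ w 3) z,
    ∃ ψ : ℂ → E4, Isotopic φ ψ ∧ ∀ z ∈ ball (0 : ℂ) 1, hypMean ψ z ≤ 1,
    ∀ ε : ℝ, 0 < ε → ∃ ψ : ℂ → E4, Isotopic φ ψ ∧
      (∀ z ∈ closedBall (0 : ℂ) 1, ψ z 3 < ε) ∧
      ∃ c < 1, ∀ z ∈ closedBall (0 : ℂ) 1, hypMean ψ z ≤ c] := by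
  tfae_have 1 → 3 := by
    rintro ⟨χ, hi, hM, hmin⟩ ε hε
    obtain ⟨ψ, b1, b2, b3⟩ := ribbon_curv (hi.slice h) hM hmin hε
    exact ⟨ψ, hi.trans b1, b2, b3⟩
  tfae_have 3 → 2 := by
    intro h
    obtain ⟨ψ, h1, -, c, hc, h3⟩ := h 1 one_pos
    exact ⟨ψ, h1, fun z hz => (h3 z (ball_subset_closedBall hz)).trans hc.le⟩
  tfae_have 2 → 1 := by
    rintro ⟨χ, hi, hH⟩
    obtain ⟨ψ, h0, -, -, -, -, h3, h4⟩ := two (hi.slice h) hH one_pos
    exact ⟨ψ, hi.tail h0, h3, h4⟩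
  tfae_finish

end Pool.Agent.U987.RH
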